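import Pool.Agent.N972.F2.Phi

/-!
# The exponential formula for the determinants under reciprocity (helper972)
-/

set_option autoImplicit false
set_option linter.unusedSectionVars false

open Finset Pool.Agent.N855.P17

namespace Pool.Agent.N972.F2

section alg

variable {ι : Type} [DecidableEq ι]

/-- the sum of an additive functional -/
def sm (f : ι → ZMod 2) (S : Finset ι) : ZMod 2 := ∑ p ∈ S, f p

theorem sm_empty (f : ι → ZMod 2) : sm f ∅ = 0 := sum_empty

theorem sm_add (f g : ι → ZMod 2) (S : Finset ι) : sm (fun p => f p + g p) S = sm f S + sm g S :=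
  sum_add_distrib

theorem sm_sdiff (f : ι → ZMod 2) {T B : Finset ι} (hB : B ⊆ T) : sm f (T \ B) = sm f T + sm f B :=
  par_sdiff hB

theorem sm_insert (f : ι → ZMod 2) {T : Finset ι} {c : ι} (hc : c ∉ T) :
    sm f (insert c T) = f c + sm f T := sum_insert hc

theorem sm_congr {f g : ι → ZMod 2} {S : Finset ι} (h : ∀ p ∈ S, f p = g p) : sm f S = sm g S :=
  sum_congr rfl h

/-- the left relation of the matrices -/
def HK (l : ι → ι → ZMod 2) (al k : ι → ZMod 2) : Prop :=
  ∀ S : Finset ι, ∀ q ∈ S, ∑ p ∈ S, k p * Lm l S p q = (sm al S + 1) * al q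

/-- the common value of the cofactors of a set with odd sum -/
noncomputable def T1 (l : ι → ι → ZMod 2) (al k : ι → ZMod 2) (S : Finset ι) : ZMod 2 :=
  ind (sm al S = 1 ∧ ∃ p ∈ S, k p = 1 ∧ tt l S p = 1)

variable {l : ι → ι → ZMod 2} {al k : ι → ZMod 2}

theorem T1_even {S : Finset ι} (h : sm al S = 0) : T1 l al k S = 0 := by
  refine ind_neg ?_
  rintro ⟨h1, -⟩
  rw [h] at h1
  exact zero_ne_one h1

theorem T1_par {S : Finset ι} (h : T1 l al k S ≠ 0) : sm al S = 1 := by
  rcases z01 (sm al S) with h1 | h1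
  · exact absurd (T1_even h1) h
  · exact h1

theorem ind01 (p : Prop) [Decidable p] : ind p = if p then 1 else 0 := by
  split_ifs with h
  · exact ind_pos h
  · exact ind_neg h

section hk

variable (hk : HK l al k)

include hk

/-- the cofactors of a set with odd sum -/
theorem tt_T1 {S : Finset ι} (hS : sm al S = 1) {p : ι} (hp : p ∈ S) (hkp : k p = 1) :
    tt l S p = T1 l al k S := by
  have h1 : ∀ p' ∈ S, k p' = 1 → tt l S p = tt l S p' := by
    intro p' hp' hkp'
    by_cases hne : p = p'
    · rw [hne]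
    · have h2 := tt_diff l (S := S) (k := k) (ψ := fun _ => 0) (fun j hj => by
        rw [hk S j hj, hS]
        have : (1 : ZMod 2) + 1 = 0 := by decide
        rw [this, zero_mul]) hp hp' hne hkp hkp'
      have h3 : tt l S p + tt l S p' = 0 := by
        rw [h2]
        refine sum_eq_zero fun A _ => ?_
        simp
      have : ∀ u w : ZMod 2, u + w = 0 → u = w := by decide
      exact this _ _ h3
  rcases z01 (tt l S p) with h | h
  · rw [h]
    symm
    refine ind_neg ?_
    rintro ⟨-, p', hp', hkp', h4⟩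
    rw [← h1 p' hp' hkp', h] at h4
    exact zero_ne_one h4
  · rw [h]
    symm
    exact ind_pos ⟨hS, p, hp, hkp, h⟩

/-- the difference of the cofactors of a set with even sum -/
theorem tt_T0 {S : Finset ι} (hS : sm al S = 0) {p p' : ι} (hp : p ∈ S) (hp' : p' ∈ S)
    (hkp : k p = 1) (hkp' : k p' = 1) :
    tt l S p + tt l S p' = ∑ A ∈ S.powerset, if p ∈ A then (if p' ∈ A then 0 else
      T1 l al k A * T1 l al k (S \ A)) else 0 := by
  by_cases hne : p = p'
  · subst hne
    rw [two0]
    symm
    refine sum_eq_zero fun A _ => ?_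
    split_ifs <;> rfl
  · rw [tt_diff l (S := S) (k := k) (ψ := al) (fun j hj => by
      rw [hk S j hj, hS]; ring) hp hp' hne hkp hkp']
    refine sum_congr rfl fun A hA => ?_
    rw [mem_powerset] at hA
    split_ifs with h1 h2
    · rfl
    · have h3 : ∑ j ∈ A, al j = sm al A := rfl
      rw [h3]
      rcases z01 (sm al A) with h | h
      · rw [h, zero_mul, T1_even h, zero_mul]
      · rw [h, one_mul, tt_T1 hk h h1 hkp]
        have h4 : sm al (S \ A) = 1 := by rw [sm_sdiff al hA, hS, h, zero_add]
        rw [tt_T1 hk h4 (mem_sdiff.2 ⟨hp', h2⟩) hkp']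
    · rfl

end hk

/-- the odd part -/
noncomputable def hh (l : ι → ι → ZMod 2) (al ρ : ι → ZMod 2) (S : Finset ι) : ZMod 2 :=
  if sm al S = 1 then Yd l ρ S else 0

/-- the even part with `ρ` odd -/
noncomputable def kk (l : ι → ι → ZMod 2) (al ρ : ι → ZMod 2) (S : Finset ι) : ZMod 2 :=
  if sm al S = 0 ∧ sm ρ S = 1 then Yd l ρ S else 0

/-- the even part with `ρ` even -/
noncomputable def gg (l : ι → ι → ZMod 2) (al ρ : ι → ZMod 2) (S : Finset ι) : ZMod 2 :=
  if sm al S = 0 ∧ sm ρ S = 0 then Yd l ρ S else 0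

theorem Yd_split (l : ι → ι → ZMod 2) (al ρ : ι → ZMod 2) (S : Finset ι) :
    Yd l ρ S = hh l al ρ S + kk l al ρ S + gg l al ρ S := by
  unfold hh kk gg
  rcases z01 (sm al S) with h1 | h1 <;> rcases z01 (sm ρ S) with h2 | h2 <;> rw [h1, h2] <;> simp

theorem kk_even {ρ : ι → ZMod 2} {S : Finset ι} (h : kk l al ρ S ≠ 0) :
    sm al S = 0 ∧ sm ρ S = 1 := by
  by_contra h1
  exact h (if_neg h1)

theorem hh_odd {ρ : ι → ZMod 2} {S : Finset ι} (h : hh l al ρ S ≠ 0) : sm al S = 1 := by
  by_contra h1
  exact h (if_neg h1)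

theorem hh_empty (ρ : ι → ZMod 2) : hh l al ρ ∅ = 0 := by
  unfold hh
  rw [sm_empty, if_neg (by decide)]

/-- the two halves -/
theorem half_indep (f : Finset ι → ZMod 2) {S : Finset ι} {c c' : ι} (hc : c ∈ S) (hc' : c' ∈ S) :
    cv (rs c f) f S = cv (rs c' f) f S := by
  have h1 : cv (rs c f) f S + cv (rs c' f) f S = 0 := by
    unfold cv rs
    rw [← sum_add_distrib]
    refine sum_involution (fun E _ => S \ E) ?_ ?_ ?_ ?_
    · intro E hE
      rw [mem_powerset] at hE
      have e1 : c ∈ S \ E ↔ c ∉ E := by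
        rw [mem_sdiff]; exact and_iff_right hc
      have e2 : c' ∈ S \ E ↔ c' ∉ E := by
        rw [mem_sdiff]; exact and_iff_right hc'
      rw [Finset.sdiff_sdiff_eq_self hE, if_congr e1 rfl rfl, if_congr e2 rfl rfl]
      have h2 := two0 (f E * f (S \ E))
      by_cases h3 : c ∈ E <;> by_cases h4 : c' ∈ E
      · rw [if_pos h3, if_pos h4, if_neg (not_not.2 h3), if_neg (not_not.2 h4), zero_mul, add_zero,
          add_zero, h2]
      · rw [if_pos h3, if_neg h4, if_neg (not_not.2 h3), if_pos h4, zero_mul, zero_mul, add_zero,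
          zero_add, mul_comm (f (S \ E)), h2]
      · rw [if_neg h3, if_pos h4, if_pos h3, if_neg (not_not.2 h4), zero_mul, zero_mul, add_zero,
          zero_add, mul_comm (f (S \ E)), h2]
      · rw [if_neg h3, if_neg h4, if_pos h3, if_pos h4, zero_mul, add_zero, zero_add,
          mul_comm (f (S \ E)), h2]
    · intro E hE _ h2
      have h4 : c ∈ S \ E ↔ c ∈ E := by rw [h2]
      rw [mem_sdiff] at h4
      by_cases h3 : c ∈ E
      · exact (h4.2 h3).2 h3
      · exact h3 (h4.1 ⟨hc, h3⟩)
    · intro E _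
      exact mem_powerset.2 sdiff_subset
    · intro E hE
      exact Finset.sdiff_sdiff_eq_self (mem_powerset.1 hE)
  have : ∀ u w : ZMod 2, u + w = 0 → u = w := by decide
  exact this _ _ h1

section hk2

variable (hk : HK l al k)

include hk

/-- the value of the odd part -/
theorem hh_T1 {ρ : ι → ZMod 2} {S : Finset ι} (hρ : ∀ p ∈ S, k p = 0 → ρ p = 0) :
    hh l al ρ S = sm ρ S * T1 l al k S := by
  unfold hh
  split_ifs with h
  · unfold Yd sm
    rw [sum_mul]
    refine sum_congr rfl fun r hr => ?_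
    rcases z01 (k r) with h1 | h1
    · rw [hρ r hr h1, zero_mul, zero_mul]
    · rw [tt_T1 hk h hr h1]
  · have h0 : sm al S = 0 := by
      rcases z01 (sm al S) with h1 | h1
      · exact h1
      · exact absurd h1 h
    rw [T1_even h0, mul_zero]

/-- the sum of the cofactors of a set with even sums -/
theorem Yd_even {ρ : ι → ZMod 2} {S : Finset ι} (hρ : ∀ p ∈ S, k p = 0 → ρ p = 0)
    (hS : sm al S = 0) (hS2 : sm ρ S = 0) {c : ι} (hc : c ∈ S) :
    Yd l ρ S = cv (rs c (hh l al ρ)) (hh l al ρ) S := by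
  by_cases hex : ∃ c' ∈ S, k c' = 1
  · obtain ⟨c', hc', hkc⟩ := hex
    rw [half_indep _ hc hc']
    have h1 : Yd l ρ S = ∑ r ∈ S, ρ r * (tt l S r + tt l S c') := by
      have h2 : ∑ r ∈ S, ρ r * (tt l S r + tt l S c') = Yd l ρ S + sm ρ S * tt l S c' := by
        unfold Yd sm
        rw [sum_mul, ← sum_add_distrib]
        exact sum_congr rfl fun r _ => by ring
      rw [h2, hS2, zero_mul, add_zero]
    rw [h1]
    have h3 : ∀ r ∈ S, ρ r * (tt l S r + tt l S c') = ∑ A ∈ S.powerset, if c' ∈ A then
        (if r ∈ S \ A then ρ r * (T1 l al k A * T1 l al k (S \ A)) else 0) else 0 := by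
      intro r hr
      rcases z01 (k r) with h4 | h4
      · rw [hρ r hr h4, zero_mul]
        symm
        refine sum_eq_zero fun A _ => ?_
        rw [zero_mul, ite_self, ite_self]
      · rw [add_comm (tt l S r), tt_T0 hk hS hc' hr hkc h4, mul_sum]
        refine sum_congr rfl fun A _ => ?_
        have e : r ∈ S \ A ↔ r ∉ A := by rw [mem_sdiff]; exact and_iff_right hr
        rw [if_congr e rfl rfl]
        split_ifs <;> simp
    rw [sum_congr rfl h3, sum_comm]
    unfold cv rs
    refine sum_congr rfl fun A hA => ?_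
    rw [mem_powerset] at hA
    split_ifs with h5
    · have h6 : ∑ r ∈ S, (if r ∈ S \ A then ρ r * (T1 l al k A * T1 l al k (S \ A)) else 0) =
          sm ρ (S \ A) * (T1 l al k A * T1 l al k (S \ A)) := by
        unfold sm
        rw [sum_mul]
        symm
        rw [← sum_subset (sdiff_subset : S \ A ⊆ S)]
        · exact sum_congr rfl fun r hr => by rw [if_pos hr]
        · intro r _ hr
          rw [if_neg hr]
      rw [h6, hh_T1 hk fun p hp => hρ p (hA hp), hh_T1 hk fun p hp => hρ p (sdiff_subset hp),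
        sm_sdiff ρ hA, hS2, zero_add]
      have : ∀ u w z : ZMod 2, u * (w * z) = u * w * (u * z) := by decide
      exact this _ _ _
    · rw [sum_const_zero, zero_mul]
  · push Not at hex
    have h0 : ∀ p ∈ S, ρ p = 0 := by
      intro p hp
      apply hρ p hp
      rcases z01 (k p) with h | h
      · exact h
      · exact absurd h (hex p hp)
    have h1 : Yd l ρ S = 0 := by
      unfold Yd
      exact sum_eq_zero fun r hr => by rw [h0 r hr, zero_mul]
    rw [h1]
    symm
    refine sum_eq_zero fun A hA => ?_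
    have h2 : hh l al ρ (S \ A) = 0 := by
      unfold hh Yd
      rw [sum_eq_zero fun r hr => by rw [h0 r (sdiff_subset hr), zero_mul], ite_self]
    rw [h2, mul_zero]

/-- the cofactor of a set with `al` even and `ρ` odd -/
theorem tt_even {ρ : ι → ZMod 2} {S : Finset ι} (hρ : ∀ p ∈ S, k p = 0 → ρ p = 0)
    (hS : sm al S = 0) (hS2 : sm ρ S = 1) {r : ι} (hr : r ∈ S) (hkr : k r = 1) :
    tt l S r = Yd l ρ S + ∑ A ∈ S.powerset, if r ∈ A then 0 else
      hh l al ρ A * T1 l al k (S \ A) := by
  have h1 : tt l S r + Yd l ρ S = ∑ s ∈ S, ρ s * (tt l S s + tt l S r) := by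
    have h2 : ∑ s ∈ S, ρ s * (tt l S s + tt l S r) = Yd l ρ S + sm ρ S * tt l S r := by
      unfold Yd sm
      rw [sum_mul, ← sum_add_distrib]
      exact sum_congr rfl fun r _ => by ring
    rw [h2, hS2, one_mul, add_comm]
  have h3 : ∀ s ∈ S, ρ s * (tt l S s + tt l S r) = ∑ A ∈ S.powerset, if r ∈ A then 0 else
      (if s ∈ A then ρ s * (T1 l al k A * T1 l al k (S \ A)) else 0) := by
    intro s hs
    rcases z01 (k s) with h4 | h4
    · rw [hρ s hs h4, zero_mul]
      symm
      refine sum_eq_zero fun A _ => ?_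
      rw [zero_mul, ite_self, ite_self]
    · rw [tt_T0 hk hS hs hr h4 hkr, mul_sum]
      refine sum_congr rfl fun A _ => ?_
      split_ifs <;> simp
  have h5 : ∑ s ∈ S, ρ s * (tt l S s + tt l S r) = ∑ A ∈ S.powerset, if r ∈ A then 0 else
      hh l al ρ A * T1 l al k (S \ A) := by
    rw [sum_congr rfl h3, sum_comm]
    refine sum_congr rfl fun A hA => ?_
    rw [mem_powerset] at hA
    split_ifs with h6
    · exact sum_const_zero
    · rw [hh_T1 hk fun p hp => hρ p (hA hp)]
      unfold sm
      rw [sum_mul, sum_mul]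
      symm
      rw [← sum_subset hA]
      · refine sum_congr rfl fun s hs => ?_
        rw [if_pos hs]
        ring
      · intro s _ hs
        rw [if_neg hs]
  rw [h5] at h1
  have : ∀ u w z : ZMod 2, u + w = z → u = w + z := by decide
  exact this _ _ _ h1

end hk2

/-- the logarithmic derivative of the even part -/
theorem rs_gg (hk : HK l al k) {ρ : ι → ZMod 2} (hρ : ∀ p, k p = 0 → ρ p = 0) (c : ι) :
    rs c (gg l al ρ) = cv (rs c (hh l al ρ)) (hh l al ρ) := by
  funext S
  by_cases hc : c ∈ S
  · have h1 : rs c (gg l al ρ) S = gg l al ρ S := if_pos hc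
    rw [h1]
    unfold gg
    split_ifs with h
    · exact Yd_even hk (fun p _ => hρ p) h.1 h.2 hc
    · symm
      refine sum_eq_zero fun A hA => ?_
      rw [mem_powerset] at hA
      by_contra hne
      apply h
      have h2 : rs c (hh l al ρ) A ≠ 0 := left_ne_zero_of_mul hne
      have h3 : hh l al ρ (S \ A) ≠ 0 := right_ne_zero_of_mul hne
      have h4 : hh l al ρ A ≠ 0 := by
        intro h5
        apply h2
        unfold rs
        rw [h5, ite_self]
      have h5 := hh_odd h4
      have h6 := hh_odd h3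
      rw [hh_T1 hk fun p _ => hρ p] at h3 h4
      have h7 := left_ne_zero_of_mul h3
      have h8 := left_ne_zero_of_mul h4
      rw [sm_sdiff _ hA] at h6 h7
      rw [h5] at h6
      have a1 : ∀ u : ZMod 2, u + 1 = 1 → u = 0 := by decide
      have a2 : ∀ u w : ZMod 2, u + w ≠ 0 → w ≠ 0 → u = 0 := by decide
      exact ⟨a1 _ h6, a2 _ _ h7 h8⟩
  · have h1 : rs c (gg l al ρ) S = 0 := if_neg hc
    rw [h1]
    symm
    refine sum_eq_zero fun A hA => ?_
    have : rs c (hh l al ρ) A = 0 := if_neg fun h => hc (mem_powerset.1 hA h)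
    rw [this, zero_mul]

/-- the logarithmic derivative of the determinants -/
theorem rs_Dd (l : ι → ι → ZMod 2) (ρ : ι → ZMod 2) (c : ι) :
    rs c (Dd l ρ) = cv (rs c (Yd l ρ)) (Dd l ρ) := by
  funext S
  by_cases hc : c ∈ S
  · have h1 : rs c (Dd l ρ) S = Dd l ρ S := if_pos hc
    rw [h1, Dd_exp l ρ S hc]
    unfold cv rs
    refine sum_congr rfl fun A _ => ?_
    split_ifs <;> simp
  · have h1 : rs c (Dd l ρ) S = 0 := if_neg hc
    rw [h1]
    symm
    refine sum_eq_zero fun A hA => ?_
    have : rs c (Yd l ρ) A = 0 := if_neg fun h => hc (mem_powerset.1 hA h)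
    rw [this, zero_mul]

theorem cv_zero_left (g : Finset ι → ZMod 2) : cv (fun _ => 0) g = fun _ => 0 := by
  funext T
  unfold cv
  exact sum_eq_zero fun E _ => by rw [zero_mul]

theorem cv_add_l (f g h : Finset ι → ZMod 2) :
    cv (fun T => f T + g T) h = fun T => cv f h T + cv g h T := by
  funext T
  exact cv_add_left f g h T

theorem cv_hh (ρ : ι → ZMod 2) : cv (hh l al ρ) (hh l al ρ) = fun _ => 0 := by
  rw [cv_self]
  funext T
  rw [hh_empty, zero_mul]

/-- a function with a supported logarithmic derivative -/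
theorem exp_support {f g : Finset ι → ZMod 2} (h : ∀ c, rs c f = cv (rs c g) f)
    (hg : ∀ S, g S ≠ 0 → sm al S = 0) : ∀ S, f S ≠ 0 → sm al S = 0 := by
  have key : ∀ n : ℕ, ∀ S : Finset ι, S.card = n → f S ≠ 0 → sm al S = 0 := by
    intro n
    induction n using Nat.strong_induction_on with
    | _ n ih =>
      intro S hS hf
      by_cases hS0 : S = ∅
      · rw [hS0, sm_empty]
      · obtain ⟨c, hc⟩ := nonempty_iff_ne_empty.2 hS0
        have h1 : rs c f S = f S := if_pos hc
        rw [← h1, h c] at hf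
        unfold cv at hf
        obtain ⟨A, hA, hne⟩ := exists_ne_zero_of_sum_ne_zero hf
        rw [mem_powerset] at hA
        have h2 : rs c g A ≠ 0 := left_ne_zero_of_mul hne
        have h3 := right_ne_zero_of_mul hne
        have hcA : c ∈ A := by
          by_contra h4
          exact h2 (if_neg h4)
        have h5 : g A ≠ 0 := by
          intro h6
          apply h2
          unfold rs
          rw [h6, ite_self]
        have h6 := hg A h5
        have hlt : (S \ A).card < n := by
          rw [← hS]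
          apply card_lt_card
          rw [ssubset_iff_subset_ne]
          refine ⟨sdiff_subset, fun h7 => ?_⟩
          rw [← h7] at hc
          exact (mem_sdiff.1 hc).2 hcA
        have h7 := ih _ hlt (S \ A) rfl h3
        rw [sm_sdiff al hA, h6, add_zero] at h7
        exact h7
  exact fun S => key _ S rfl

/-- uniqueness -/
theorem exp_unique {f f' g : Finset ι → ZMod 2} (h : ∀ c, rs c f = cv (rs c g) f)
    (h' : ∀ c, rs c f' = cv (rs c g) f') (h0 : f ∅ = f' ∅) : f = f' := by
  have key : ∀ n : ℕ, ∀ S : Finset ι, S.card = n → f S = f' S := by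
    intro n
    induction n using Nat.strong_induction_on with
    | _ n ih =>
      intro S hS
      by_cases hS0 : S = ∅
      · rw [hS0, h0]
      · obtain ⟨c, hc⟩ := nonempty_iff_ne_empty.2 hS0
        have h1 : rs c f S = f S := if_pos hc
        have h2 : rs c f' S = f' S := if_pos hc
        rw [← h1, ← h2, h c, h' c]
        unfold cv
        refine sum_congr rfl fun A hA => ?_
        rw [mem_powerset] at hA
        by_cases hcA : c ∈ A
        · have hlt : (S \ A).card < n := by
            rw [← hS]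
            apply card_lt_card
            rw [ssubset_iff_subset_ne]
            refine ⟨sdiff_subset, fun h7 => ?_⟩
            rw [← h7] at hc
            exact (mem_sdiff.1 hc).2 hcA
          rw [ih _ hlt (S \ A) rfl]
        · have : rs c g A = 0 := if_neg hcA
          rw [this, zero_mul, zero_mul]
  funext S
  exact key _ S rfl

/-- the exponential -/
noncomputable def Ge (l : ι → ι → ZMod 2) (al ρ : ι → ZMod 2) : Finset ι → ZMod 2 :=
  fun T => Dd l ρ T + cv (hh l al ρ) (Dd l ρ) T

theorem Ge_empty (ρ : ι → ZMod 2) : Ge l al ρ ∅ = 1 := by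
  unfold Ge cv
  rw [Dd_empty, powerset_empty, sum_singleton, hh_empty, zero_mul, add_zero]

section hk3

variable (hk : HK l al k) {ρ : ι → ZMod 2} (hρ : ∀ p, k p = 0 → ρ p = 0)

include hk hρ

theorem rs_Ge (c : ι) : rs c (Ge l al ρ) = cv (rs c (kk l al ρ)) (Ge l al ρ) := by
  set h := hh l al ρ with hh'
  set κ := kk l al ρ with hκ
  set g := gg l al ρ with hg
  set F := Dd l ρ with hF
  have e1 : rs c (Yd l ρ) = fun T => rs c h T + rs c κ T + cv (rs c h) h T := by
    have : rs c g = cv (rs c h) h := rs_gg hk hρ c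
    rw [← this]
    funext T
    unfold rs
    split_ifs
    · exact Yd_split l al ρ T
    · simp
  have e2 : rs c F = fun T => cv (rs c h) F T + cv (rs c κ) F T + cv (cv (rs c h) h) F T := by
    rw [hF, rs_Dd, e1, cv_add_l, cv_add_l]
  have e3 : rs c (Ge l al ρ) = fun T => rs c F T + (cv (rs c h) F T + cv h (rs c F) T) := by
    funext T
    have h1 : rs c (Ge l al ρ) T = rs c F T + rs c (cv h F) T := by
      unfold rs Ge
      split_ifs
      · rfl
      · rw [add_zero]
    rw [h1, rs_cv]
  have e4 : cv h (rs c F) = fun T => cv (cv (rs c h) h) F T + cv (rs c κ) (cv h F) T := by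
    rw [e2, cv_comm h, cv_add_l, cv_add_l]
    have a1 : cv (cv (rs c h) F) h = cv (cv (rs c h) h) F := by ac_rfl
    have a2 : cv (cv (rs c κ) F) h = cv (rs c κ) (cv h F) := by ac_rfl
    have a3 : cv (cv (cv (rs c h) h) F) h = fun _ => 0 := by
      have : cv (cv (cv (rs c h) h) F) h = cv (cv h h) (cv (rs c h) F) := by ac_rfl
      rw [this, hh', cv_hh, cv_zero_left]
    rw [a1, a2, a3]
    funext T
    rw [add_zero]
  have e5 : cv (rs c κ) (Ge l al ρ) = fun T => cv (rs c κ) F T + cv (rs c κ) (cv h F) T := by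
    rw [cv_comm (rs c κ)]
    have : Ge l al ρ = fun T => F T + cv h F T := rfl
    rw [this, cv_add_l]
    funext T
    rw [cv_comm F, cv_comm (cv h F)]
  rw [e3, e5, e4, e2]
  funext T
  have : ∀ u w z t : ZMod 2, u + w + z + (u + (z + t)) = w + t := by decide
  exact this _ _ _ _

theorem Ge_even (S : Finset ι) (h : Ge l al ρ S ≠ 0) : sm al S = 0 :=
  exp_support (rs_Ge hk hρ) (fun S hS => (kk_even hS).1) S h

omit hk hρ in
/-- the determinants from the exponential -/
theorem Dd_Ge : Dd l ρ = fun T => Ge l al ρ T + cv (hh l al ρ) (Ge l al ρ) T := by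
  have h1 : cv (hh l al ρ) (Ge l al ρ) = fun T => cv (hh l al ρ) (Dd l ρ) T := by
    have : Ge l al ρ = fun T => Dd l ρ T + cv (hh l al ρ) (Dd l ρ) T := rfl
    rw [cv_comm, this, cv_add_l]
    have h2 : cv (cv (hh l al ρ) (Dd l ρ)) (hh l al ρ) = fun _ => 0 := by
      have : cv (cv (hh l al ρ) (Dd l ρ)) (hh l al ρ) =
        cv (cv (hh l al ρ) (hh l al ρ)) (Dd l ρ) := by ac_rfl
      rw [this, cv_hh, cv_zero_left]
    rw [h2]
    funext T
    rw [add_zero, cv_comm]
  rw [h1]
  funext T
  unfold Ge
  have : ∀ u w : ZMod 2, u = u + w + w := by decide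
  exact this _ _

/-- the determinants of the sets with even sum -/
theorem Dd_even {S : Finset ι} (hS : sm al S = 0) : Dd l ρ S = Ge l al ρ S := by
  rw [congrFun (Dd_Ge (al := al)) S]
  have : cv (hh l al ρ) (Ge l al ρ) S = 0 := by
    refine sum_eq_zero fun A hA => ?_
    by_contra hne
    have h1 := hh_odd (left_ne_zero_of_mul hne)
    have h2 := Ge_even hk hρ _ (right_ne_zero_of_mul hne)
    rw [sm_sdiff al (mem_powerset.1 hA), hS, h1] at h2
    exact absurd h2 (by decide)
  rw [this, add_zero]

/-- the determinants of the sets with odd sum -/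
theorem Dd_odd {S : Finset ι} (hS : sm al S = 1) :
    Dd l ρ S = cv (hh l al ρ) (Ge l al ρ) S := by
  rw [congrFun (Dd_Ge (al := al)) S]
  have : Ge l al ρ S = 0 := by
    by_contra hne
    have h1 := Ge_even hk hρ S hne
    rw [hS] at h1
    exact absurd h1 (by decide)
  rw [this, zero_add]

end hk3

/-- the multiplication by an additive functional -/
def mE (ε : ι → ZMod 2) (f : Finset ι → ZMod 2) (S : Finset ι) : ZMod 2 := sm ε S * f S

theorem mE_cv (ε : ι → ZMod 2) (f g : Finset ι → ZMod 2) (S : Finset ι) :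
    mE ε (cv f g) S = cv (mE ε f) g S + cv f (mE ε g) S := by
  unfold mE cv
  rw [mul_sum, ← sum_add_distrib]
  refine sum_congr rfl fun A hA => ?_
  have h1 := sm_sdiff ε (mem_powerset.1 hA)
  have h2 : sm ε S = sm ε A + sm ε (S \ A) := by
    rw [h1]
    have : ∀ u w : ZMod 2, u = w + (u + w) := by decide
    exact this _ _
  rw [h2]
  ring

/-- the derivative of an exponential -/
theorem mE_exp {f g : Finset ι → ZMod 2} (h : ∀ c, rs c f = cv (rs c g) f) (ε : ι → ZMod 2) :
    mE ε f = cv (mE ε g) f := by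
  funext S
  have h1 : mE ε f S = ∑ c ∈ S, ε c * rs c f S := by
    unfold mE sm
    rw [sum_mul]
    refine sum_congr rfl fun c hc => ?_
    have : rs c f S = f S := if_pos hc
    rw [this]
  rw [h1]
  have h2 : ∀ c ∈ S, ε c * rs c f S = ∑ A ∈ S.powerset, (if c ∈ A then ε c * (g A * f (S \ A))
      else 0) := by
    intro c _
    rw [h c]
    unfold cv rs
    rw [mul_sum]
    refine sum_congr rfl fun A _ => ?_
    split_ifs <;> simp
  rw [sum_congr rfl h2, sum_comm]
  unfold cv mE sm
  refine sum_congr rfl fun A hA => ?_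
  rw [mem_powerset] at hA
  rw [sum_mul, sum_mul]
  symm
  rw [← sum_subset hA]
  · refine sum_congr rfl fun c hc => ?_
    rw [if_pos hc]
    ring
  · intro c _ hc
    rw [if_neg hc]

/-- **the recursion for the sets with even sum** -/
theorem rec_even (hk : HK l al k) {ρ : ι → ZMod 2} (hρ : ∀ p, k p = 0 → ρ p = 0) (ε : ι → ZMod 2)
    {D : Finset ι} (hD : sm al D = 0) :
    ∑ a ∈ D.powerset, sm ε a * kk l al ρ a * Dd l ρ (D \ a) = sm ε D * Dd l ρ D := by
  have h1 := congrFun (mE_exp (rs_Ge hk hρ) ε) D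
  rw [Dd_even hk hρ hD]
  have h2 : mE ε (Ge l al ρ) D = sm ε D * Ge l al ρ D := rfl
  rw [← h2, h1]
  unfold cv mE
  refine sum_congr rfl fun a ha => ?_
  rw [mem_powerset] at ha
  by_cases h3 : kk l al ρ a = 0
  · rw [h3, mul_zero, zero_mul, zero_mul]
  · rw [Dd_even hk hρ]
    rw [sm_sdiff al ha, hD, (kk_even h3).1, zero_add]

end alg

end Pool.Agent.N972.F2
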