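import Pool.Agent.N972.F2.Id2

/-!
# The kernel criteria for the cofactors over the field with two elements (helper972)
-/

set_option autoImplicit false
set_option linter.unusedSectionVars false

open Finset Pool.Agent.N855.P17

namespace Pool.Agent.N972.F2

/-! ### transfer to a finite type -/

section sub

variable {ι : Type} [DecidableEq ι]

theorem Ph_sub (P : Finset ι) (m : ι → ι → ZMod 2) {J : Finset ι} (hJ : J ⊆ P) (I : Finset ι) :
    I ⊆ P → ∀ T ⊆ P, Ph T (∏ i ∈ I, lf (m i) J) =
      Ph (T.subtype (fun x => x ∈ P)) (∏ i ∈ I.subtype (fun x => x ∈ P),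
        lf (fun j : {x // x ∈ P} => m i.1 j.1) (J.subtype (fun x => x ∈ P))) := by
  induction I using Finset.induction_on with
  | empty =>
    intro _ T hT
    have e : (∅ : Finset ι).subtype (fun x => x ∈ P) = ∅ := by
      ext x
      simp
    rw [e, prod_empty, prod_empty, Ph_one, Ph_one]
    have : T.subtype (fun x => x ∈ P) = ∅ ↔ T = ∅ := by
      rw [subtype_eq_empty]
      constructor
      · intro h
        rw [eq_empty_iff_forall_notMem]
        intro x hx
        exact h x (hT hx) hx
      · rintro rfl x _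
        exact notMem_empty x
    rw [if_congr this rfl rfl]
  | insert i I hi ih =>
    intro hI T hT
    have hiP : i ∈ P := hI (mem_insert_self i I)
    have hI' : I ⊆ P := fun x hx => hI (mem_insert_of_mem hx)
    have e : (insert i I).subtype (fun x => x ∈ P) =
        insert ⟨i, hiP⟩ (I.subtype (fun x => x ∈ P)) := by
      ext x
      simp only [mem_subtype, mem_insert]
      constructor
      · rintro (h | h)
        · left; exact Subtype.ext h
        · right; exact h
      · rintro (h | h)
        · left; exact congrArg Subtype.val h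
        · right; exact h
    have hi' : (⟨i, hiP⟩ : {x // x ∈ P}) ∉ I.subtype (fun x => x ∈ P) := by
      rw [mem_subtype]; exact hi
    rw [e, prod_insert hi, prod_insert hi', Ph_lf', Ph_lf']
    rw [← sum_sub hJ (fun j => m i j * (if j ∈ T then Ph (T.erase j) (∏ k ∈ I, lf (m k) J) else 0))]
    refine sum_congr rfl fun j _ => ?_
    congr 1
    have hm : j ∈ T.subtype (fun x => x ∈ P) ↔ j.1 ∈ T := mem_subtype
    rw [if_congr hm rfl rfl]
    split_ifs with h
    · rw [ih hI' (T.erase j.1) ((erase_subset _ _).trans hT)]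
      congr 1
      congr 1
      ext x
      simp only [mem_erase, mem_subtype]
      constructor
      · rintro ⟨h1, h2⟩
        exact ⟨fun h => h1 (congrArg Subtype.val h), h2⟩
      · rintro ⟨h1, h2⟩
        exact ⟨fun h => h1 (Subtype.ext h), h2⟩
    · rfl

/-- the variables outside of the set do not matter -/
theorem Ph_rest (m : ι → ι → ZMod 2) {J T : Finset ι} (hT : T ⊆ J) (I : Finset ι) :
    ∀ T' ⊆ T, Ph T' (∏ i ∈ I, lf (m i) J) = Ph T' (∏ i ∈ I, lf (m i) T) := by
  induction I using Finset.induction_on with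
  | empty =>
    intro T' _
    rw [prod_empty, prod_empty]
  | insert i I hi ih =>
    intro T' hT'
    rw [prod_insert hi, prod_insert hi, Ph_lf _ (hT'.trans hT), Ph_lf _ hT']
    refine sum_congr rfl fun j _ => ?_
    rw [ih (T'.erase j) ((erase_subset _ _).trans hT')]

theorem Ph_prod_congr {m m' : ι → ι → ZMod 2} {T I : Finset ι}
    (h : ∀ i ∈ I, ∀ j ∈ T, m i j = m' i j) :
    Ph T (∏ i ∈ I, lf (m i) T) = Ph T (∏ i ∈ I, lf (m' i) T) := by
  congr 1
  exact prod_congr rfl fun i hi => lf_congr (h i hi)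

theorem Ph_fin [Fintype ι] (m : ι → ι → ZMod 2) (S : Finset ι) :
    Ph S (∏ i ∈ S, lf (m i) S) ≠ 0 ↔
    ∀ y : ι → ZMod 2, (∀ p ∈ S, ∑ q ∈ S, m p q * y q = 0) → ∀ q ∈ S, y q = 0 := by
  have h1 : Ph S (∏ i ∈ S, lf (m i) S) = hd m (fun _ => 0) (fun _ => 0) S S := by
    have h2 := Ph_hd (a := fun _ : ι => (0 : ZMod 2)) (Φ := Ph) (C := Cc ι) (y := yy) (fun T => by
      rw [Ph_one]
      split_ifs with h
      · rw [h, prod_empty]
      · obtain ⟨c, hc⟩ := nonempty_iff_ne_empty.2 h
        exact (prod_eq_zero hc rfl).symm) Ph_C Ph_y (fun _ => 0) m S S S (Subset.refl S)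
    rw [← h2]
    congr 1
    refine prod_congr rfl fun i _ => ?_
    unfold lf af
    rw [map_zero, zero_add]
  rw [h1, hd_ne]
  constructor
  · intro h y hy
    exact (h (fun _ => 0) y (fun p hp => by rw [zero_mul, zero_add]; exact hy p hp)
      (fun q hq => by simp)).2
  · intro h x y h3 h4
    have hT := (inj_iff m S).1 h
    refine ⟨hT x fun q hq => ?_, h y fun p hp => ?_⟩
    · have := h4 q hq
      rwa [zero_mul, add_zero] at this
    · have := h3 p hp
      rwa [zero_mul, zero_add] at this

/-- **a square system** -/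
theorem Ph_ker (m : ι → ι → ZMod 2) (S : Finset ι) :
    Ph S (∏ i ∈ S, lf (m i) S) ≠ 0 ↔
    ∀ y : ι → ZMod 2, (∀ p ∈ S, ∑ q ∈ S, m p q * y q = 0) → ∀ q ∈ S, y q = 0 := by
  have hu : S.subtype (fun x => x ∈ S) = (univ : Finset {x // x ∈ S}) := by
    ext x
    simp only [mem_univ, mem_subtype, iff_true]
    exact x.2
  rw [Ph_sub S m (Subset.refl S) S (Subset.refl S) S (Subset.refl S),
    Ph_fin (fun (i j : {x // x ∈ S}) => m i.1 j.1)]
  constructor
  · intro h y hy q hq
    refine h (fun i => y i.1) (fun p _ => ?_) ⟨q, hq⟩ (mem_subtype.2 hq)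
    have h1 := hy p.1 p.2
    rw [← sum_sub (Subset.refl S) fun q => m p.1 q * y q] at h1
    exact h1
  · intro h y hy q _
    have h1 := h (ex S y) (fun p hp => ?_) q.1 q.2
    · rw [ex_val] at h1
      exact h1
    · rw [← sum_sub (Subset.refl S) fun q => m p q * ex S y q]
      have h2 := hy ⟨p, hp⟩ (mem_subtype.2 hp)
      rw [← h2]
      exact sum_congr rfl fun q _ => by rw [ex_val]

end sub

/-! ### the criteria -/

section crit

variable {ι : Type} [DecidableEq ι]

theorem a01 (z : ZMod 2) : z ≠ 0 ↔ z = 1 := by revert z; decide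

theorem eq_of_add {u w : ZMod 2} (h : u + w = 0) : u = w := by
  have : ∀ u w : ZMod 2, u + w = 0 → u = w := by decide
  exact this _ _ h

/-- the sum of a shifted vector -/
theorem sum_shift (f x : ι → ZMod 2) (S : Finset ι) (c : ZMod 2) :
    ∑ q ∈ S, f q * (x q + c) = ∑ q ∈ S, f q * x q + (∑ q ∈ S, f q) * c := by
  rw [sum_mul, ← sum_add_distrib]
  exact sum_congr rfl fun q _ => by ring

/-- the kernel criterion for a cofactor of a matrix `M` with row sums zero -/
theorem cof_ker (M : ι → ι → ZMod 2) {S : Finset ι} {r : ι} (hr : r ∈ S)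
    (hrow : ∀ p ∈ S, ∑ q ∈ S, M p q = 0) (k : ι → ZMod 2) (hkr : k r = 1)
    (hcol : ∀ q ∈ S, ∑ p ∈ S, k p * M p q = 0) :
    Ph (S.erase r) (∏ i ∈ S.erase r, lf (M i) S) ≠ 0 ↔
    ∀ y : ι → ZMod 2, (∀ p ∈ S, ∑ q ∈ S, M p q * y q = 0) → ∀ p ∈ S, ∀ q ∈ S, y p = y q := by
  rw [Ph_rest M (erase_subset r S) (S.erase r) (S.erase r) (Subset.refl _), Ph_ker]
  have hsum : ∀ f : ι → ZMod 2, ∑ q ∈ S, f q = f r + ∑ q ∈ S.erase r, f q := fun f =>
    (add_sum_erase S f hr).symm
  constructor
  · intro h y hy
    have h1 : ∀ q ∈ S.erase r, y q + y r = 0 := by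
      refine h (fun q => y q + y r) fun p hp => ?_
      have h2 := sum_shift (M p) y S (y r)
      rw [hy p (mem_of_mem_erase hp), hrow p (mem_of_mem_erase hp), zero_mul, add_zero, hsum,
        two0, mul_zero, zero_add] at h2
      exact h2
    have h5 : ∀ p ∈ S, y p = y r := by
      intro p hp
      by_cases hpr : p = r
      · rw [hpr]
      · exact eq_of_add (h1 p (mem_erase.2 ⟨hpr, hp⟩))
    intro p hp q hq
    rw [h5 p hp, h5 q hq]
  · intro h y hy q hq
    set x : ι → ZMod 2 := fun q => if q = r then 0 else y q with hx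
    have hxr : x r = 0 := if_pos rfl
    have hxy : ∀ q ∈ S.erase r, x q = y q := fun q hq => if_neg (ne_of_mem_erase hq)
    have h1 : ∀ p ∈ S.erase r, ∑ q ∈ S, M p q * x q = 0 := by
      intro p hp
      rw [hsum, hxr, mul_zero, zero_add, ← hy p hp]
      exact sum_congr rfl fun q hq => by rw [hxy q hq]
    have h2 : ∑ q ∈ S, M r q * x q = 0 := by
      have h3 : ∑ p ∈ S, k p * ∑ q ∈ S, M p q * x q = 0 := by
        have h4 : ∑ p ∈ S, k p * ∑ q ∈ S, M p q * x q =
            ∑ q ∈ S, (∑ p ∈ S, k p * M p q) * x q := by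
          simp only [mul_sum, sum_mul]
          rw [sum_comm]
          exact sum_congr rfl fun q _ => sum_congr rfl fun p _ => by ring
        rw [h4]
        exact sum_eq_zero fun q hq => by rw [hcol q hq, zero_mul]
      have h4 : ∑ p ∈ S.erase r, k p * ∑ q ∈ S, M p q * x q = 0 :=
        sum_eq_zero fun p hp => by rw [h1 p hp, mul_zero]
      rw [hsum, hkr, one_mul, h4, add_zero] at h3
      exact h3
    have h3 := h x (fun p hp => by
      by_cases hpr : p = r
      · rw [hpr]; exact h2
      · exact h1 p (mem_erase.2 ⟨hpr, hp⟩)) q (mem_of_mem_erase hq) r hr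
    rw [← hxy q hq, h3, hxr]

/-- **the criterion of the cofactors** -/
theorem tt_Ts (l : ι → ι → ZMod 2) {al k : ι → ZMod 2} (hk : HK l al k) {S : Finset ι}
    (hS : sm al S = 1) {r : ι} (hr : r ∈ S) (hkr : k r = 1) : tt l S r = 1 ↔ Ts l S := by
  rw [← a01, tt_lf, cof_ker (Lm l S) hr (fun p hp => Lm_row l hp) k hkr]
  · rfl
  · intro q hq
    rw [hk S q hq, hS]
    have : (1 : ZMod 2) + 1 = 0 := by decide
    rw [this, zero_mul]

theorem T1_Ts (l : ι → ι → ZMod 2) {al k : ι → ZMod 2} (hk : HK l al k) {S : Finset ι}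
    (hS : sm al S = 1) {r : ι} (hr : r ∈ S) (hkr : k r = 1) : T1 l al k S = ind (Ts l S) := by
  have h1 := ind_ne (tt l S r)
  rw [← tt_T1 hk hS hr hkr, ← ind_congr (tt_Ts l hk hS hr hkr), ← ind_congr (a01 (tt l S r))]
  exact h1.symm

/-- **the criterion with a functional** -/
theorem Yd_ker (l : ι → ι → ZMod 2) (ρ : ι → ZMod 2) {S : Finset ι} (hS : S.Nonempty) :
    Yd l ρ S = 1 ↔ ∀ (x : ι → ZMod 2) (a : ZMod 2),
      (∀ p ∈ S, ∑ q ∈ S, Lm l S p q * x q = a * ρ p) →
      a = 0 ∧ ∀ p ∈ S, ∀ q ∈ S, x p = x q := by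
  obtain ⟨c, hc⟩ := hS
  set m : ι → ι → ZMod 2 := fun i j => if j = c then ρ i else Lm l S i j with hm
  have hYm : Yd l ρ S = Ph S (∏ i ∈ S, lf (m i) S) := by
    rw [Ph_expcol m S S S (Subset.refl S) c hc]
    unfold Yd
    refine sum_congr rfl fun r hr => ?_
    have h1 : m r c = ρ r := if_pos rfl
    rw [h1]
    congr 1
    rw [← tt_col l hr hc, ll_prod l (erase_subset r S), Ph_rest _ (erase_subset c S) _ _
      (Subset.refl _), Ph_rest _ (erase_subset c S) _ _ (Subset.refl _)]
    refine Ph_prod_congr fun i _ j hj => ?_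
    rw [hm]
    simp only
    rw [if_neg (ne_of_mem_erase hj)]
  have hsum : ∀ f : ι → ZMod 2, ∑ q ∈ S, f q = f c + ∑ q ∈ S.erase c, f q := fun f =>
    (add_sum_erase S f hc).symm
  rw [← a01, hYm, Ph_ker]
  constructor
  · intro h x a hxa
    have h1 := h (fun q => if q = c then a else x q + x c) (fun p hp => by
      rw [hsum]
      have h2 := sum_shift (Lm l S p) x S (x c)
      rw [hxa p hp, Lm_row l hp, zero_mul, add_zero, hsum, two0, mul_zero, zero_add] at h2
      have h3 : ∑ q ∈ S.erase c, m p q * (if q = c then a else x q + x c) = a * ρ p := by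
        rw [← h2]
        refine sum_congr rfl fun q hq => ?_
        rw [hm]
        simp only
        rw [if_neg (ne_of_mem_erase hq), if_neg (ne_of_mem_erase hq)]
      rw [h3, if_pos rfl]
      have h4 : m p c = ρ p := if_pos rfl
      rw [h4, mul_comm]
      exact two0 _)
    have ha := h1 c hc
    rw [if_pos rfl] at ha
    refine ⟨ha, ?_⟩
    have h5 : ∀ p ∈ S, x p = x c := by
      intro p hp
      by_cases hpc : p = c
      · rw [hpc]
      · have := h1 p hp
        rw [if_neg hpc] at this
        exact eq_of_add this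
    intro p hp q hq
    rw [h5 p hp, h5 q hq]
  · intro h y hy
    set x : ι → ZMod 2 := fun q => if q = c then 0 else y q with hx
    have h1 := h x (y c) (fun p hp => by
      have h2 := hy p hp
      rw [hsum] at h2 ⊢
      have h4 : m p c = ρ p := if_pos rfl
      have hxc : x c = 0 := if_pos rfl
      rw [h4] at h2
      rw [hxc, mul_zero, zero_add]
      have h3 : ∑ q ∈ S.erase c, m p q * y q = ∑ q ∈ S.erase c, Lm l S p q * x q := by
        refine sum_congr rfl fun q hq => ?_
        rw [hm, hx]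
        simp only
        rw [if_neg (ne_of_mem_erase hq), if_neg (ne_of_mem_erase hq)]
      rw [h3, mul_comm] at h2
      exact (eq_of_add h2).symm)
    obtain ⟨h2, h3⟩ := h1
    intro q hq
    by_cases hqc : q = c
    · rw [hqc, h2]
    · have h4 := h3 q hq c hc
      rw [hx] at h4
      simp only [if_true] at h4
      rw [if_neg hqc] at h4
      exact h4

/-! ### the product form of `Mf` -/

theorem Ph_two (l : ι → ι → ZMod 2) (ψ : ι → ZMod 2) {S : Finset ι} {p p' : ι} (hp : p ∈ S)
    (hp' : p' ∈ S) (hne : p ≠ p') :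
    Ph (S.erase p') (lf ψ S * ∏ i ∈ (S.erase p).erase p', ll l S i) =
    ∑ A ∈ S.powerset, if p ∈ A then (if p' ∈ A then 0 else
      (∑ j ∈ A, ψ j) * (tt l A p * tt l (S \ A) p')) else 0 := by
  rw [Ph_lf', two_roots l hp hp' hne]
  have h10 : ∀ j ∈ S, ψ j * (if j ∈ S.erase p' then Ph ((S.erase p').erase j)
      (∑ A ∈ S.powerset, if p ∈ A then (if p' ∈ A then 0 else (∏ i ∈ A.erase p, ll l A i) *
        ∏ i ∈ (S \ A).erase p', ll l (S \ A) i) else 0) else 0) =
      ∑ A ∈ S.powerset, if p ∈ A then (if p' ∈ A then 0 else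
        (if j ∈ A then ψ j else 0) * (tt l A p * tt l (S \ A) p')) else 0 := by
    intro j hj
    by_cases hjp : j = p'
    · subst hjp
      rw [if_neg (notMem_erase _ S), mul_zero]
      symm
      refine sum_eq_zero fun A _ => ?_
      split_ifs <;> simp
    · rw [if_pos (mem_erase.2 ⟨hjp, hj⟩), map_sum, mul_sum]
      refine sum_congr rfl fun A hA => ?_
      rw [mem_powerset] at hA
      split_ifs with h11 h12 h13
      · rw [map_zero, mul_zero]
      · congr 1
        have e : (S.erase p').erase j = A.erase j ∪ (S \ A).erase p' := by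
          ext x
          simp only [mem_erase, mem_union, mem_sdiff]
          constructor
          · rintro ⟨h1, h2, h3⟩
            by_cases h4 : x ∈ A
            · exact Or.inl ⟨h1, h4⟩
            · exact Or.inr ⟨h2, h3, h4⟩
          · rintro (⟨h1, h2⟩ | ⟨h1, h2, h3⟩)
            · refine ⟨h1, ?_, hA h2⟩
              rintro rfl
              exact h12 h2
            · refine ⟨?_, h1, h2⟩
              rintro rfl
              exact h3 h13
        rw [e, ll_prod l (erase_subset p A), ll_prod l (erase_subset p' (S \ A)),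
          Ph_mul (Lm l A) (Lm l (S \ A)) (A.erase p) ((S \ A).erase p') (A.erase j)
            ((S \ A).erase p')
            (Finset.disjoint_of_subset_left (erase_subset j A) disjoint_sdiff)
            (Finset.disjoint_of_subset_left (erase_subset p' (S \ A)) sdiff_disjoint)
            (Finset.disjoint_of_subset_left (erase_subset j A)
              (Finset.disjoint_of_subset_right (erase_subset p' (S \ A)) disjoint_sdiff)),
          ← tt_lf, ← ll_prod l (erase_subset p A), tt_col l h11 h13]
      · have e : (S.erase p').erase j = A ∪ ((S \ A).erase p').erase j := by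
          ext x
          simp only [mem_erase, mem_union, mem_sdiff]
          constructor
          · rintro ⟨h1, h2, h3⟩
            by_cases h4 : x ∈ A
            · exact Or.inl h4
            · exact Or.inr ⟨h1, h2, h3, h4⟩
          · rintro (h2 | ⟨h1, h2, h3, h4⟩)
            · refine ⟨?_, ?_, hA h2⟩
              · rintro rfl
                exact h13 h2
              · rintro rfl
                exact h12 h2
            · exact ⟨h1, h2, h3⟩
        rw [e, ll_prod l (erase_subset p A), ll_prod l (erase_subset p' (S \ A)),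
          Ph_mul (Lm l A) (Lm l (S \ A)) (A.erase p) ((S \ A).erase p') A
            (((S \ A).erase p').erase j) disjoint_sdiff
            (Finset.disjoint_of_subset_left ((erase_subset j _).trans (erase_subset p' (S \ A)))
              sdiff_disjoint)
            (Finset.disjoint_of_subset_right ((erase_subset j _).trans (erase_subset p' (S \ A)))
              disjoint_sdiff), Ph_deg _ A (A.erase p) A]
        · ring
        · rw [card_erase_of_mem h11]
          have := card_pos.2 ⟨p, h11⟩
          omega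
      · rw [map_zero, mul_zero]
  rw [sum_congr rfl h10, sum_comm]
  refine sum_congr rfl fun A hA => ?_
  rw [mem_powerset] at hA
  split_ifs with h11 h12
  · exact sum_const_zero
  · rw [← sum_mul]
    congr 1
    symm
    rw [← sum_subset hA]
    · exact sum_congr rfl fun j hj => by rw [if_pos hj]
    · intro j _ hj
      rw [if_neg hj]
  · exact sum_const_zero

theorem prod_add_nil {R : Type} [CommRing R] (E : R) (hE : E * E = 0) (f c : ι → R) (I : Finset ι) :
    ∏ i ∈ I, (f i + c i * E) = ∏ i ∈ I, f i + E * ∑ i ∈ I, c i * ∏ k ∈ I.erase i, f k := by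
  induction I using Finset.induction_on with
  | empty => simp
  | insert a s ha ih =>
    rw [prod_insert ha, ih, prod_insert ha, sum_insert ha, erase_insert ha]
    have h1 : ∑ i ∈ s, c i * ∏ k ∈ (insert a s).erase i, f k =
        f a * ∑ i ∈ s, c i * ∏ k ∈ s.erase i, f k := by
      rw [mul_sum]
      refine sum_congr rfl fun i hi => ?_
      have hne : a ≠ i := by
        rintro rfl
        exact ha hi
      rw [erase_insert_of_ne hne, prod_insert fun h => ha (mem_of_mem_erase h)]
      ring
    rw [h1]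
    have h2 : (f a + c a * E) * (∏ i ∈ s, f i + E * ∑ i ∈ s, c i * ∏ k ∈ s.erase i, f k) =
        f a * ∏ i ∈ s, f i + E * (c a * ∏ i ∈ s, f i + f a * ∑ i ∈ s, c i * ∏ k ∈ s.erase i, f k) +
        c a * (E * E) * ∑ i ∈ s, c i * ∏ k ∈ s.erase i, f k := by ring
    rw [h2, hE]
    ring

/-- **the product form** -/
theorem Mf_prod (l : ι → ι → ZMod 2) (ρ ε : ι → ZMod 2) {n : Finset ι} {r : ι} (hr : r ∈ n) :
    Mf l ρ ε n r = Ph (n.erase r) (∏ i ∈ n.erase r, lf (fun j => Lm l n i j + ρ i * ε j) n) := by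
  have h1 : ∏ i ∈ n.erase r, lf (fun j => Lm l n i j + ρ i * ε j) n =
      ∏ i ∈ n.erase r, (ll l n i + Cc ι (ρ i) * lf ε n) := by
    refine prod_congr rfl fun i hi => ?_
    rw [ll_lf l (mem_of_mem_erase hi), ← lf_smul, ← lf_add]
  rw [h1, prod_add_nil _ (lf_sq ε n), map_add]
  unfold Mf
  congr 1
  rw [mul_sum, map_sum]
  have h2 : ∀ i ∈ n.erase r, Ph (n.erase r) (lf ε n * (Cc ι (ρ i) *
      ∏ k ∈ (n.erase r).erase i, ll l n k)) = ∑ A ∈ n.powerset, if r ∈ A then 0 else
        (if i ∈ A then sm ε A * (ρ i * tt l A i) * tt l (n \ A) r else 0) := by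
    intro i hi
    have hin := mem_of_mem_erase hi
    have hir := ne_of_mem_erase hi
    have e1 : lf ε n * (Cc ι (ρ i) * ∏ k ∈ (n.erase r).erase i, ll l n k) =
        Cc ι (ρ i) * (lf ε n * ∏ k ∈ (n.erase i).erase r, ll l n k) := by
      rw [erase_right_comm]
      ring
    rw [e1, Ph_C, Ph_two l ε hin hr hir, mul_sum]
    refine sum_congr rfl fun A _ => ?_
    unfold sm
    split_ifs <;> ring
  rw [sum_congr rfl h2, sum_comm]
  have h3 : ∑ C ∈ (n.erase r).powerset, sm ε C * Yd l ρ C * tt l (n \ C) r =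
      ∑ C ∈ n.powerset, if r ∈ C then 0 else sm ε C * Yd l ρ C * tt l (n \ C) r := by
    rw [← sum_subset (powerset_mono.2 (erase_subset r n))]
    · refine sum_congr rfl fun C hC => ?_
      rw [if_neg fun h => notMem_erase r n (mem_powerset.1 hC h)]
    · intro C hC hC2
      rw [if_pos]
      by_contra h
      exact hC2 (mem_powerset.2 fun x hx => mem_erase.2 ⟨fun h1 => h (h1 ▸ hx),
        mem_powerset.1 hC hx⟩)
  rw [h3]
  refine sum_congr rfl fun A hA => ?_
  rw [mem_powerset] at hA
  split_ifs with h4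
  · rw [sum_const_zero]
  · unfold Yd
    rw [mul_sum, sum_mul]
    have hA' : A ⊆ n.erase r := fun x hx => mem_erase.2 ⟨fun h1 => h4 (h1 ▸ hx), hA hx⟩
    rw [← sum_subset hA']
    · exact sum_congr rfl fun i hi => by rw [if_pos hi]
    · intro i _ hi
      rw [if_neg hi]

/-- **the criterion with two functionals** -/
theorem Mf_ker (l : ι → ι → ZMod 2) {al k : ι → ZMod 2} (hk : HK l al k) (ρ ε : ι → ZMod 2)
    {n : Finset ι} (hn : sm al n = 1) (hεn : sm ε n = 0) (hρn : ∑ p ∈ n, k p * ρ p = 0) {r : ι}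
    (hr : r ∈ n) (hkr : k r = 1) :
    Mf l ρ ε n r = 1 ↔ ∀ x : ι → ZMod 2,
      (∀ p ∈ n, ∑ q ∈ n, Lm l n p q * x q = (∑ q ∈ n, ε q * x q) * ρ p) →
      ∀ p ∈ n, ∀ q ∈ n, x p = x q := by
  rw [← a01, Mf_prod l ρ ε hr, cof_ker (fun i j => Lm l n i j + ρ i * ε j) hr ?_ k hkr ?_]
  · have h1 : ∀ (x : ι → ZMod 2) (p : ι), ∑ q ∈ n, (Lm l n p q + ρ p * ε q) * x q =
        ∑ q ∈ n, Lm l n p q * x q + (∑ q ∈ n, ε q * x q) * ρ p := by
      intro x p
      rw [sum_mul, ← sum_add_distrib]
      exact sum_congr rfl fun q _ => by ring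
    constructor
    · intro h x hx
      refine h x fun p hp => ?_
      rw [h1, hx p hp]
      exact two0 _
    · intro h x hx
      refine h x fun p hp => ?_
      have h2 := hx p hp
      rw [h1] at h2
      exact eq_of_add h2
  · intro p hp
    rw [sum_add_distrib, Lm_row l hp, ← mul_sum]
    have : ∑ q ∈ n, ε q = 0 := hεn
    rw [this, mul_zero, add_zero]
  · intro q hq
    have h1 : ∀ p ∈ n, k p * (Lm l n p q + ρ p * ε q) = k p * Lm l n p q + k p * ρ p * ε q := by
      intro p _
      ring
    rw [sum_congr rfl h1, sum_add_distrib, ← sum_mul, hρn, zero_mul, add_zero, hk n q hq, hn]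
    have : (1 : ZMod 2) + 1 = 0 := by decide
    rw [this, zero_mul]

/-- the invariant vanishes for the functional of a row -/
theorem Mf_row (l : ι → ι → ZMod 2) {ρ ε : ι → ZMod 2} {n : Finset ι} {r s : ι} (hr : r ∈ n)
    (hs : s ∈ n) (hsr : s ≠ r) (hρ : ρ s = 1) (hε : ∀ j ∈ n, ε j = Lm l n s j) :
    Mf l ρ ε n r = 0 := by
  rw [Mf_prod l ρ ε hr, prod_eq_zero (mem_erase.2 ⟨hsr, hs⟩), map_zero]
  have h1 : lf (fun j => Lm l n s j + ρ s * ε j) n = lf (fun _ => 0) n := by
    refine lf_congr fun j hj => ?_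
    rw [hρ, one_mul, hε j hj]
    exact two0 _
  rw [h1]
  unfold lf
  exact sum_eq_zero fun j _ => by rw [map_zero, zero_mul]

end crit

end Pool.Agent.N972.F2
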