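import Pool.Agent.N972.F2.Alg

/-!
# The identities of the criteria over the field with two elements (helper972)
-/

set_option autoImplicit false
set_option linter.unusedSectionVars false

open Finset Pool.Agent.N855.P17

namespace Pool.Agent.N972.F2

section id

variable {ι : Type} [DecidableEq ι] {l : ι → ι → ZMod 2} {al k : ι → ZMod 2}

theorem Dd_congr (l : ι → ι → ZMod 2) {ρ ρ' : ι → ZMod 2} {S : Finset ι}
    (h : ∀ p ∈ S, ρ p = ρ' p) : Dd l ρ S = Dd l ρ' S := by
  unfold Dd
  congr 1
  exact GG_congr (fun i hi => by rw [h i hi]) fun _ _ _ _ => rfl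

theorem Yd_congr (l : ι → ι → ZMod 2) {ρ ρ' : ι → ZMod 2} {S : Finset ι}
    (h : ∀ p ∈ S, ρ p = ρ' p) : Yd l ρ S = Yd l ρ' S :=
  sum_congr rfl fun r hr => by rw [h r hr]

theorem Yd_add (l : ι → ι → ZMod 2) (ρ ρ' : ι → ZMod 2) (S : Finset ι) :
    Yd l (fun p => ρ p + ρ' p) S = Yd l ρ S + Yd l ρ' S := by
  unfold Yd
  rw [← sum_add_distrib]
  exact sum_congr rfl fun r _ => by ring

/-- the complement -/
theorem sum_compl (N : Finset ι) (g : Finset ι → ZMod 2) :
    ∑ C ∈ N.powerset, g C = ∑ C ∈ N.powerset, g (N \ C) := by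
  refine sum_bij' (fun E _ => N \ E) (fun E _ => N \ E) ?_ ?_ ?_ ?_ ?_
  · intro E _
    exact mem_powerset.2 sdiff_subset
  · intro E _
    exact mem_powerset.2 sdiff_subset
  · intro E hE
    exact Finset.sdiff_sdiff_eq_self (mem_powerset.1 hE)
  · intro E hE
    exact Finset.sdiff_sdiff_eq_self (mem_powerset.1 hE)
  · intro E hE
    rw [Finset.sdiff_sdiff_eq_self (mem_powerset.1 hE)]

theorem mE_of {f g h : Finset ι → ZMod 2} (hf : ∀ c, rs c f = cv (rs c g) h) (ε : ι → ZMod 2) :
    mE ε f = cv (mE ε g) h := by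
  funext S
  have h1 : mE ε f S = ∑ c ∈ S, ε c * rs c f S := by
    unfold mE sm
    rw [sum_mul]
    refine sum_congr rfl fun c hc => ?_
    have : rs c f S = f S := if_pos hc
    rw [this]
  rw [h1]
  have h2 : ∀ c ∈ S, ε c * rs c f S = ∑ A ∈ S.powerset, (if c ∈ A then ε c * (g A * h (S \ A))
      else 0) := by
    intro c _
    rw [hf c]
    unfold cv rs
    rw [mul_sum]
    refine sum_congr rfl fun A _ => ?_
    split_ifs <;> simp
  rw [sum_congr rfl h2, sum_comm]
  unfold cv mE sm
  refine sum_congr rfl fun A hA => ?_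
  rw [mem_powerset] at hA
  rw [sum_mul, sum_mul]
  symm
  rw [← sum_subset hA]
  · refine sum_congr rfl fun c hc => ?_
    rw [if_pos hc]
    ring
  · intro c _ hc
    rw [if_neg hc]

theorem insert_sdiff_sub {r : ι} {N C : Finset ι} (hr : r ∉ N) (hC : C ⊆ N) :
    insert r N \ C = insert r (N \ C) := insert_sdiff_of_notMem N fun h => hr (hC h)

theorem insert_sdiff_ins {r : ι} {N C : Finset ι} (hr : r ∉ N) :
    insert r N \ insert r C = N \ C := by
  ext x
  simp only [mem_sdiff, mem_insert]
  constructor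
  · rintro ⟨h1 | h1, h2⟩
    · exact absurd (Or.inl h1) h2
    · exact ⟨h1, fun h => h2 (Or.inr h)⟩
  · rintro ⟨h1, h2⟩
    refine ⟨Or.inr h1, ?_⟩
    rintro (h | h)
    · exact hr (h ▸ h1)
    · exact h2 h

/-- the cofactor of an extended set -/
theorem T1_insert (hk : HK l al k) {ρ : ι → ZMod 2} {s : ι} {S : Finset ι} (hs : s ∉ S)
    (hks : k s = 1) (hals : al s = 1) (hl : ∀ i ∈ S, l i s = ρ i) :
    T1 l al k (insert s S) = if sm al S = 0 then Dd l ρ S else 0 := by
  have h0 := sm_insert al hs
  rw [hals] at h0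
  split_ifs with h
  · rw [h, add_zero] at h0
    rw [← tt_T1 hk h0 (mem_insert_self s S) hks, tt_Dd l (mem_insert_self s S), erase_insert hs]
    exact Dd_congr l hl
  · apply T1_even
    rw [h0]
    have : ∀ u : ZMod 2, ¬ u = 0 → 1 + u = 0 := by decide
    exact this _ h

/-- **identity (C)**, without the vertex of `-4` -/
theorem idC0 (hk : HK l al k) {ρ : ι → ZMod 2} (hρ : ∀ p, k p = 0 → ρ p = 0) (ε : ι → ZMod 2)
    {s : ι} {D : Finset ι} (hs : s ∉ D) (hks : k s = 1) (hals : al s = 1)
    (hl : ∀ i ∈ D, l i s = ρ i) (hD : sm al D = 0) :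
    ∑ a ∈ D.powerset, sm ε a * kk l al ρ a * T1 l al k (insert s (D \ a)) =
      sm ε D * T1 l al k (insert s D) := by
  rw [T1_insert hk hs hks hals hl, if_pos hD, ← rec_even hk hρ ε hD]
  refine sum_congr rfl fun a ha => ?_
  rw [mem_powerset] at ha
  by_cases h : kk l al ρ a = 0
  · rw [h, mul_zero, zero_mul, zero_mul]
  · rw [T1_insert hk (fun h1 => hs (sdiff_subset h1)) hks hals (fun i hi => hl i (sdiff_subset hi)),
      if_pos]
    rw [sm_sdiff al ha, hD, (kk_even h).1, zero_add]

/-- the invariant of the classes with two functionals -/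
noncomputable def Mf (l : ι → ι → ZMod 2) (ρ ε : ι → ZMod 2) (n : Finset ι) (r : ι) : ZMod 2 :=
  tt l n r + ∑ C ∈ (n.erase r).powerset, sm ε C * Yd l ρ C * tt l (n \ C) r

/-- **identity (D)**, without the vertex of `-4` -/
theorem idD0 (hk : HK l al k) {ρ : ι → ZMod 2} (hρ : ∀ p, k p = 0 → ρ p = 0) (ε : ι → ZMod 2)
    {n : Finset ι} {r : ι} (hr : r ∈ n) (hkr : k r = 1) (hn : sm al n = 1) (hρn : sm ρ n = 0)
    (hεn : sm ε n = 0) :
    Mf l ρ ε n r = T1 l al k n + ∑ a ∈ n.powerset, sm ε a * kk l al ρ a * T1 l al k (n \ a) := by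
  set N := n.erase r with hN
  have hrN : r ∉ N := notMem_erase r n
  have hnN : insert r N = n := insert_erase hr
  set u : Finset ι → ZMod 2 := fun X => T1 l al k (insert r X) with hu
  set h := hh l al ρ with hh'
  set g := gg l al ρ with hg
  set κ := kk l al ρ with hκ
  have hsub : ∀ C ∈ N.powerset, n \ C = insert r (N \ C) := by
    intro C hC
    rw [← hnN, insert_sdiff_sub hrN (mem_powerset.1 hC)]
  have hal : ∀ C ∈ N.powerset, sm al (n \ C) = 1 + sm al C := by
    intro C hC
    rw [sm_sdiff al ((mem_powerset.1 hC).trans (erase_subset r n)), hn]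
  have hrC : ∀ C ∈ N.powerset, r ∈ n \ C := fun C hC =>
    mem_sdiff.2 ⟨hr, fun h1 => hrN (mem_powerset.1 hC h1)⟩
  unfold Mf
  rw [← hN, tt_T1 hk hn hr hkr]
  congr 1
  -- the three parts
  have hsplit : ∀ C ∈ N.powerset, sm ε C * Yd l ρ C * tt l (n \ C) r =
      mE ε h C * cv h u (N \ C) + sm ε C * h C * κ (n \ C) + sm ε C * κ C * T1 l al k (n \ C) +
        mE ε g C * u (N \ C) := by
    intro C hC
    rw [Yd_split l al ρ C]
    have h0 := hal C hC
    rcases z01 (sm al C) with h1 | h1
    · -- even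
      rw [h1, add_zero] at h0
      have h2 : h C = 0 := by
        rw [hh']
        unfold hh
        rw [if_neg]
        rw [h1]
        exact zero_ne_one
      have h3 : hh l al ρ C = 0 := h2
      rw [tt_T1 hk h0 (hrC C hC) hkr]
      unfold mE
      rw [h2, h3, hu]
      simp only
      rw [← hsub C hC]
      ring
    · -- odd
      have h4 : (1 : ZMod 2) + 1 = 0 := by decide
      rw [h1, h4] at h0
      have h2 : κ C = 0 := by
        rw [hκ]
        unfold kk
        rw [if_neg]
        rw [h1]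
        exact fun h5 => one_ne_zero h5.1
      have h3 : g C = 0 := by
        rw [hg]
        unfold gg
        rw [if_neg]
        rw [h1]
        exact fun h5 => one_ne_zero h5.1
      have h2' : kk l al ρ C = 0 := h2
      have h3' : gg l al ρ C = 0 := h3
      have h5 : hh l al ρ C = h C := rfl
      unfold mE
      rw [h2, h3, h2', h3', h5]
      by_cases h6 : h C = 0
      · rw [h6]; ring
      · have h7 : sm ρ C = 1 := by
          rw [hh', hh_T1 hk fun p _ => hρ p] at h6
          rcases z01 (sm ρ C) with h8 | h8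
          · rw [h8, zero_mul] at h6
            exact absurd rfl h6
          · exact h8
        have h8 : sm ρ (n \ C) = 1 := by
          rw [sm_sdiff ρ ((mem_powerset.1 hC).trans (erase_subset r n)), hρn, h7, zero_add]
        rw [tt_even hk (fun p _ => hρ p) h0 h8 (hrC C hC) hkr]
        have h9 : Yd l ρ (n \ C) = κ (n \ C) := by
          rw [hκ]
          unfold kk
          rw [if_pos ⟨h0, h8⟩]
        have h10 : ∑ A ∈ (n \ C).powerset, (if r ∈ A then 0 else
            hh l al ρ A * T1 l al k ((n \ C) \ A)) = cv h u (N \ C) := by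
          rw [hsub C hC]
          have hrX : r ∉ N \ C := fun h1 => hrN (sdiff_subset h1)
          rw [sum_powerset_insert hrX]
          have e1 : ∑ A ∈ (N \ C).powerset, (if r ∈ insert r A then 0 else
              hh l al ρ (insert r A) * T1 l al k (insert r (N \ C) \ insert r A)) = 0 :=
            sum_eq_zero fun A _ => if_pos (mem_insert_self r A)
          rw [e1, add_zero]
          unfold cv
          refine sum_congr rfl fun A hA => ?_
          rw [if_neg fun h1 => hrX (mem_powerset.1 hA h1), insert_sdiff_sub hrX (mem_powerset.1 hA)]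
        rw [h9, h10]
        ring
  rw [sum_congr rfl hsplit, sum_add_distrib, sum_add_distrib, sum_add_distrib]
  -- the cancellation
  have e1 : ∑ C ∈ N.powerset, mE ε h C * cv h u (N \ C) = cv (mE ε h) (cv h u) N := rfl
  have e2 : ∑ C ∈ N.powerset, mE ε g C * u (N \ C) = cv (mE ε h) (cv h u) N := by
    have h1 : mE ε g = cv (mE ε h) h := mE_of (fun c => rs_gg hk hρ c) ε
    rw [← cv_assoc, ← h1]
    rfl
  rw [e1, e2]
  -- the remaining sums
  rw [← hnN, sum_powerset_insert hrN, hnN]
  have e3 : ∑ C ∈ N.powerset, sm ε (insert r C) * κ (insert r C) * T1 l al k (n \ insert r C) =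
      ∑ C ∈ N.powerset, sm ε C * h C * κ (n \ C) := by
    rw [sum_compl]
    refine sum_congr rfl fun C hC => ?_
    have hCn : C ⊆ n := (mem_powerset.1 hC).trans (erase_subset r n)
    rw [← hsub C hC, Finset.sdiff_sdiff_eq_self hCn]
    by_cases h1 : κ (n \ C) = 0
    · rw [h1]; ring
    · have h2 := kk_even h1
      have h3 := h2.2
      rw [sm_sdiff ρ hCn, hρn, zero_add] at h3
      have h4 : h C = T1 l al k C := by
        rw [hh', hh_T1 hk fun p _ => hρ p, h3, one_mul]
      rw [h4, sm_sdiff ε hCn, hεn, zero_add]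
      ring
  rw [e3]
  have : ∀ u w z t : ZMod 2, u + w + z + u = z + w := by decide
  exact this _ _ _ 0

/-- **identity (A)**, without the vertex of `-4` -/
theorem idA0 (hk : HK l al k) {ρ : ι → ZMod 2} {D : Finset ι} (hρ : ∀ p ∈ D, k p = 0 → ρ p = 0)
    (hD : sm al D = 0) (hρD : sm ρ D = 0) {c : ι} (hc : c ∈ D) :
    Yd l ρ D = ∑ A ∈ D.powerset, if c ∈ A then
      (sm ρ A * T1 l al k A) * (sm ρ (D \ A) * T1 l al k (D \ A)) else 0 := by
  rw [Yd_even hk hρ hD hρD hc]
  unfold cv rs
  refine sum_congr rfl fun A hA => ?_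
  rw [mem_powerset] at hA
  split_ifs with h
  · rw [hh_T1 hk fun p hp => hρ p (hA hp), hh_T1 hk fun p hp => hρ p (sdiff_subset hp)]
  · rw [zero_mul]

/-- the functional with the value changed at `t` -/
def ad (ρ : ι → ZMod 2) (t : ι) (i : ι) : ZMod 2 := ρ i + if i = t then 1 else 0

theorem sm_ad (ρ : ι → ZMod 2) (t : ι) (S : Finset ι) :
    sm (ad ρ t) S = sm ρ S + if t ∈ S then 1 else 0 := by
  unfold ad
  rw [sm_add ρ (fun i => if i = t then 1 else 0)]
  congr 1
  unfold sm
  rw [sum_ite_eq']

theorem Dd_ad_notMem (ρ : ι → ZMod 2) {t : ι} {S : Finset ι} (ht : t ∉ S) :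
    Dd l (ad ρ t) S = Dd l ρ S := by
  refine Dd_congr l fun p hp => ?_
  unfold ad
  rw [if_neg, add_zero]
  rintro rfl
  exact ht hp

theorem Yd_ad_notMem (ρ : ι → ZMod 2) {t : ι} {S : Finset ι} (ht : t ∉ S) :
    Yd l (ad ρ t) S = Yd l ρ S := by
  refine Yd_congr l fun p hp => ?_
  unfold ad
  rw [if_neg, add_zero]
  rintro rfl
  exact ht hp

theorem Yd_ad (ρ : ι → ZMod 2) {t : ι} {S : Finset ι} (ht : t ∈ S) :
    Yd l (ad ρ t) S = Yd l ρ S + tt l S t := by
  unfold ad
  rw [Yd_add l ρ (fun i => if i = t then 1 else 0)]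
  congr 1
  unfold Yd
  have h1 : ∀ r ∈ S, (if r = t then (1 : ZMod 2) else 0) * tt l S r = if r = t then tt l S r else 0 := by
    intro r _
    split_ifs <;> simp
  rw [sum_congr rfl h1, sum_ite_eq', if_pos ht]

theorem Dd_ad (ρ : ι → ZMod 2) {t : ι} {S : Finset ι} (ht : t ∈ S) :
    Dd l (ad ρ t) S = Dd l ρ S + Dd l (fun i => ρ i + l i t) (S.erase t) := by
  have key : ∀ I ⊆ S.erase t, ∀ T ⊆ S.erase t, Ph T (∏ i ∈ I, lf (Lr l ρ S i) S) =
      Ph T (∏ i ∈ I, lf (Lr l (fun i => ρ i + l i t) (S.erase t) i) (S.erase t)) := by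
    intro I
    induction I using Finset.induction_on with
    | empty =>
      intro _ T _
      rw [prod_empty, prod_empty]
    | insert i I hi ih =>
      intro hI T hT
      have hiS : i ∈ S.erase t := hI (mem_insert_self i I)
      rw [prod_insert hi, prod_insert hi, Ph_lf _ (hT.trans (erase_subset t S)), Ph_lf _ hT]
      refine sum_congr rfl fun j hj => ?_
      rw [ih (fun k hk => hI (mem_insert_of_mem hk)) (T.erase j) ((erase_subset j T).trans hT)]
      congr 1
      unfold Lr Lm
      by_cases hij : i = j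
      · subst hij
        rw [if_pos rfl, if_pos rfl, if_pos rfl]
        have h1 : t ∈ S.erase i := mem_erase.2 ⟨(ne_of_mem_erase hiS).symm, ht⟩
        rw [← add_sum_erase (S.erase i) _ h1, erase_right_comm, if_pos rfl]
        ring
      · rw [if_neg hij, if_neg hij, if_neg (Ne.symm hij), if_neg (Ne.symm hij)]
  rw [Dd_lf, Dd_lf, Dd_lf, ← key _ (Subset.refl _) _ (Subset.refl _), ← mul_prod_erase S _ ht,
    ← mul_prod_erase S (fun i => lf (Lr l ρ S i) S) ht]
  have h1 : ∏ x ∈ S.erase t, lf (Lr l (ad ρ t) S x) S = ∏ x ∈ S.erase t, lf (Lr l ρ S x) S := by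
    refine prod_congr rfl fun i hi => lf_congr fun j _ => ?_
    unfold Lr ad
    rw [if_neg (ne_of_mem_erase hi), add_zero]
  have h2 : lf (Lr l (ad ρ t) S t) S = lf (Lr l ρ S t) S + yy t := by
    have e : Lr l (ad ρ t) S t = fun j => Lr l ρ S t j + if j = t then 1 else 0 := by
      funext j
      unfold Lr ad
      by_cases hjt : j = t
      · rw [if_pos hjt, if_pos rfl, if_pos hjt, if_pos hjt]
        ring
      · rw [if_neg hjt, if_neg hjt, if_neg hjt]
        ring
    rw [e, lf_add]
    congr 1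
    unfold lf
    rw [sum_eq_single t]
    · simp only [if_true]
      rw [map_one, one_mul]
    · intro j _ hj
      simp only
      rw [if_neg hj, map_zero, zero_mul]
    · intro h
      exact absurd ht h
  rw [h1, h2, add_mul, map_add, Ph_y, if_pos ht]

/-- the restriction to the sets without `t` -/
def rt (t : ι) (f : Finset ι → ZMod 2) (S : Finset ι) : ZMod 2 := if t ∈ S then 0 else f S

theorem rt_of {t : ι} {f : Finset ι → ZMod 2} {S : Finset ι} (h : t ∉ S) : rt t f S = f S := if_neg h

theorem rt_cv (t : ι) (f g : Finset ι → ZMod 2) : rt t (cv f g) = cv (rt t f) (rt t g) := by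
  funext S
  by_cases h : t ∈ S
  · have h1 : rt t (cv f g) S = 0 := if_pos h
    rw [h1]
    symm
    refine sum_eq_zero fun A hA => ?_
    by_cases h2 : t ∈ A
    · have : rt t f A = 0 := if_pos h2
      rw [this, zero_mul]
    · have : rt t g (S \ A) = 0 := if_pos (mem_sdiff.2 ⟨h, h2⟩)
      rw [this, mul_zero]
  · rw [rt_of h]
    unfold cv
    refine sum_congr rfl fun A hA => ?_
    rw [rt_of fun h1 => h (mem_powerset.1 hA h1), rt_of fun h1 => h (sdiff_subset h1)]

theorem rt_rs (t c : ι) (f : Finset ι → ZMod 2) : rs c (rt t f) = rt t (rs c f) := by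
  funext S
  have h1 : rs c (rt t f) S = if c ∈ S then (if t ∈ S then 0 else f S) else 0 := rfl
  have h2 : rt t (rs c f) S = if t ∈ S then 0 else (if c ∈ S then f S else 0) := rfl
  rw [h1, h2]
  split_ifs <;> rfl

theorem rt_mE (t : ι) (ε : ι → ZMod 2) (f : Finset ι → ZMod 2) : mE ε (rt t f) = rt t (mE ε f) := by
  funext S
  unfold mE rt
  split_ifs
  · rw [mul_zero]
  · rfl

theorem cv_add_r (f g h : Finset ι → ZMod 2) :
    cv h (fun T => f T + g T) = fun T => cv h f T + cv h g T := by
  rw [cv_comm, cv_add_l]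
  funext T
  rw [cv_comm f, cv_comm g]

section vert

variable (hk : HK l al k) {t : ι} (ht : al t = 1) (hkt : k t = 0) (hk1 : ∀ i, i ≠ t → k i = 1)
  (hlt : ∀ i, i ≠ t → l i t = al i)

include hk hk1 in
/-- the determinant with the functional `al` -/
theorem Dd_al {S : Finset ι} (hS : t ∉ S) : Dd l al S = un1 S + T1 l al k S := by
  set ρ : ι → ZMod 2 := fun i => if i = t then 0 else al i with hρ
  have hρ0 : ∀ p, k p = 0 → ρ p = 0 := by
    intro p hp
    by_cases h : p = t
    · rw [hρ]
      simp only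
      rw [if_pos h]
    · rw [hk1 p h] at hp
      exact absurd hp one_ne_zero
  have hρe : ∀ T : Finset ι, t ∉ T → ∀ p ∈ T, al p = ρ p := by
    intro T hT p hp
    rw [hρ]
    simp only
    rw [if_neg]
    rintro rfl
    exact hT hp
  rw [Dd_congr l (hρe S hS), congrFun (Dd_Ge (al := al)) S]
  have hG : ∀ T : Finset ι, t ∉ T → Ge l al ρ T = un1 T := by
    intro T hT
    by_cases hT0 : T = ∅
    · rw [hT0, Ge_empty]
      unfold un1
      rw [if_pos rfl]
    · obtain ⟨c, hc⟩ := nonempty_iff_ne_empty.2 hT0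
      have h1 : rs c (Ge l al ρ) T = Ge l al ρ T := if_pos hc
      rw [← h1, rs_Ge hk hρ0]
      unfold un1
      rw [if_neg hT0]
      refine sum_eq_zero fun A hA => ?_
      have h2 : kk l al ρ A = 0 := by
        by_contra h3
        have h4 := kk_even h3
        rw [← sm_congr (hρe A fun h5 => hT (mem_powerset.1 hA h5)), h4.1] at h4
        exact zero_ne_one h4.2
      have h3 : rs c (kk l al ρ) A = 0 := by
        unfold rs
        rw [h2, ite_self]
      rw [h3, zero_mul]
  rw [hG S hS]
  congr 1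
  have h1 : cv (hh l al ρ) (Ge l al ρ) S = cv (hh l al ρ) un1 S := by
    refine cv_congr (fun _ _ => rfl) fun T hT => hG T fun h => hS (hT h)
  rw [h1, cv_un, hh_T1 hk fun p _ => hρ0 p]
  by_cases h2 : T1 l al k S = 0
  · rw [h2, mul_zero]
  · rw [← sm_congr (hρe S hS), T1_par h2, one_mul]

include hk hk1 hlt in
/-- the cofactor at the vertex `t` -/
theorem tt_t {S : Finset ι} (hS : t ∈ S) :
    tt l S t = un1 (S.erase t) + T1 l al k (S.erase t) := by
  rw [tt_Dd l hS, ← Dd_al hk hk1 (notMem_erase t S)]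
  exact Dd_congr l fun p hp => hlt p (ne_of_mem_erase hp)

include hk ht hk1 hlt in
/-- **identity (A)** with the vertex of `-4` -/
theorem idA1 {ρ : ι → ZMod 2} {D : Finset ι} (hD : sm al D = 0) (htD : t ∈ D) :
    Yd l (ad ρ t) D = Yd l ρ D + T1 l al k (D.erase t) := by
  rw [Yd_ad ρ htD, tt_t hk hk1 hlt htD]
  have h1 : un1 (D.erase t) = 0 := by
    unfold un1
    rw [if_neg]
    intro h2
    have h3 : sm al (D.erase t) = 1 := by
      have := sm_insert al (notMem_erase t D)
      rw [insert_erase htD, hD, ht] at this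
      have a1 : ∀ u : ZMod 2, 0 = 1 + u → u = 1 := by decide
      exact a1 _ this
    rw [h2, sm_empty] at h3
    exact zero_ne_one h3
  rw [h1, zero_add]

include hk ht hkt hk1 hlt in
/-- **identity (D)** with the vertex of `-4` -/
theorem idD1 {ρ : ι → ZMod 2} (hρ : ρ t = 0) {ε : ι → ZMod 2} (hε : ε t = 0) {n : Finset ι} {r : ι}
    (hr : r ∈ n) (hrt : r ≠ t) (htn : t ∈ n) (hn : sm al n = 1) (hρn : sm ρ n = 0)
    (hεn : sm ε n = 0) :
    Mf l (ad ρ t) ε n r = T1 l al k n + ∑ a ∈ n.powerset, sm ε a *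
      (if sm al a = 0 ∧ sm ρ a = 1 then Yd l (ad ρ t) a else 0) * T1 l al k (n \ a) +
        Yd l ε (n.erase t) := by
  have hρ0 : ∀ (f : ι → ZMod 2), f t = 0 → ∀ p, k p = 0 → f p = 0 := by
    intro f hf p hp
    by_cases h : p = t
    · rw [h, hf]
    · rw [hk1 p h] at hp
      exact absurd hp one_ne_zero
  have hkr := hk1 r hrt
  set N := n.erase r with hN
  have hrN : r ∉ N := notMem_erase r n
  have htN : t ∈ N := mem_erase.2 ⟨hrt.symm, htn⟩
  set M := N.erase t with hM
  have htM : t ∉ M := notMem_erase t N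
  have hNM : insert t M = N := insert_erase htN
  set n' := n.erase t with hn'
  have hn'M : n' = insert r M := by
    rw [hM, hN, hn', erase_right_comm, insert_erase (mem_erase.2 ⟨hrt, hr⟩)]
  have htn' : t ∉ n' := notMem_erase t n
  have hnn' : insert t n' = n := insert_erase htn
  have hrM : r ∉ M := fun h => hrN (mem_of_mem_erase h)
  have haln' : sm al n' = 0 := by
    have := sm_insert al htn'
    rw [hnn', hn, ht] at this
    have a1 : ∀ u : ZMod 2, 1 = 1 + u → u = 0 := by decide
    exact a1 _ this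
  have hεn' : sm ε n' = 0 := by
    have := sm_insert ε htn'
    rw [hnn', hεn, hε, zero_add] at this
    exact this.symm
  have hρn' : sm ρ n' = 0 := by
    have := sm_insert ρ htn'
    rw [hnn', hρn, hρ, zero_add] at this
    exact this.symm
  have hins : ∀ (f : ι → ZMod 2) (b : Finset ι), b ⊆ n' → sm f (insert t b) = f t + sm f b :=
    fun f b hb => sm_insert f fun h => htn' (hb h)
  have hMn' : M ⊆ n' := by rw [hn'M]; exact subset_insert r M
  -- the left side
  have hL : Mf l (ad ρ t) ε n r = Mf l ρ ε n r +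
      ∑ b ∈ M.powerset, sm ε b * T1 l al k b * T1 l al k (n' \ b) := by
    unfold Mf
    rw [← hN, add_assoc]
    congr 1
    have h1 : ∀ C ∈ N.powerset, sm ε C * Yd l (ad ρ t) C * tt l (n \ C) r =
        sm ε C * Yd l ρ C * tt l (n \ C) r +
          (if t ∈ C then sm ε C * tt l C t * tt l (n \ C) r else 0) := by
      intro C _
      split_ifs with h
      · rw [Yd_ad ρ h]; ring
      · rw [Yd_ad_notMem ρ h, add_zero]
    rw [sum_congr rfl h1, sum_add_distrib]
    congr 1
    rw [← hNM, sum_powerset_insert htM]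
    have h2 : ∑ C ∈ M.powerset, (if t ∈ C then sm ε C * tt l C t * tt l (n \ C) r else 0) = 0 :=
      sum_eq_zero fun C hC => if_neg fun h => htM (mem_powerset.1 hC h)
    rw [h2, zero_add]
    refine sum_congr rfl fun b hb => ?_
    rw [mem_powerset] at hb
    have htb : t ∉ b := fun h => htM (hb h)
    rw [if_pos (mem_insert_self t b), tt_t hk hk1 hlt (mem_insert_self t b), erase_insert htb,
      hins ε b (hb.trans hMn'), hε, zero_add]
    have h3 : n \ insert t b = n' \ b := by
      rw [← hnn', insert_sdiff_ins htn']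
    rw [h3]
    by_cases hb0 : b = ∅
    · rw [hb0, sm_empty]; ring
    · have h4 : un1 b = 0 := if_neg hb0
      rw [h4, zero_add]
      by_cases h5 : T1 l al k b = 0
      · rw [h5]; ring
      · have h6 := T1_par h5
        have h7 : sm al (n' \ b) = 1 := by
          rw [sm_sdiff al (hb.trans hMn'), haln', h6, zero_add]
        have h8 : r ∈ n' := by rw [hn'M]; exact mem_insert_self r M
        rw [tt_T1 hk h7 (mem_sdiff.2 ⟨h8, fun h => hrM (hb h)⟩) hkr]
  -- the sum of the right side
  have hR : ∑ a ∈ n.powerset, sm ε a *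
      (if sm al a = 0 ∧ sm ρ a = 1 then Yd l (ad ρ t) a else 0) * T1 l al k (n \ a) =
      ∑ a ∈ n.powerset, sm ε a * kk l al ρ a * T1 l al k (n \ a) := by
    have h1 : ∀ a ∈ n.powerset, sm ε a *
        (if sm al a = 0 ∧ sm ρ a = 1 then Yd l (ad ρ t) a else 0) * T1 l al k (n \ a) =
        sm ε a * kk l al ρ a * T1 l al k (n \ a) + (if t ∈ a then
          sm ε a * (if sm al a = 0 ∧ sm ρ a = 1 then tt l a t else 0) * T1 l al k (n \ a) else 0) := by
      intro a _
      unfold kk
      by_cases h : t ∈ a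
      · rw [if_pos h, Yd_ad ρ h]
        split_ifs <;> ring
      · rw [if_neg h, Yd_ad_notMem ρ h, add_zero]
    rw [sum_congr rfl h1, sum_add_distrib]
    have h2 : ∑ a ∈ n.powerset, (if t ∈ a then
          sm ε a * (if sm al a = 0 ∧ sm ρ a = 1 then tt l a t else 0) * T1 l al k (n \ a) else 0) = 0 := by
      set f : Finset ι → ZMod 2 := fun b => sm ε b * sm ρ b * T1 l al k b with hf
      have hf0 : cv f f n' = 0 := by
        rw [cv_self]
        have : f ∅ = 0 := by
          rw [hf]
          simp only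
          rw [sm_empty, zero_mul, zero_mul]
        simp only [this, zero_mul]
      refine Eq.trans ?_ hf0
      rw [← hnn', sum_powerset_insert htn']
      have h3 : ∑ a ∈ n'.powerset, (if t ∈ a then
          sm ε a * (if sm al a = 0 ∧ sm ρ a = 1 then tt l a t else 0) *
            T1 l al k (insert t n' \ a) else 0) = 0 :=
        sum_eq_zero fun C hC => if_neg fun h => htn' (mem_powerset.1 hC h)
      rw [h3, zero_add]
      unfold cv
      refine sum_congr rfl fun b hb => ?_
      rw [mem_powerset] at hb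
      have htb : t ∉ b := fun h => htn' (hb h)
      rw [if_pos (mem_insert_self t b), insert_sdiff_ins htn', hins ε b hb, hins al b hb,
        hins ρ b hb, hε, hρ, ht, zero_add, zero_add, tt_t hk hk1 hlt (mem_insert_self t b),
        erase_insert htb, hf]
      simp only
      rw [sm_sdiff ε hb, sm_sdiff ρ hb, hεn', hρn', zero_add, zero_add]
      by_cases h5 : T1 l al k b = 0
      · rw [h5, add_zero, mul_zero, zero_mul]
        by_cases hb0 : b = ∅
        · rw [hb0, sm_empty, zero_mul, zero_mul]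
        · have h4 : un1 b = 0 := if_neg hb0
          rw [h4, ite_self, mul_zero, zero_mul]
      · have h6 := T1_par h5
        have h7 : un1 b = 0 := by
          unfold un1
          rw [if_neg]
          rintro rfl
          rw [sm_empty] at h6
          exact zero_ne_one h6
        have h8 : (1 : ZMod 2) + 1 = 0 := by decide
        rw [h6, h7, zero_add, h8]
        rcases z01 (sm ρ b) with h9 | h9
        · rw [h9]
          simp
        · rw [h9, if_pos ⟨rfl, rfl⟩]
          have : ∀ u w z : ZMod 2, u * w * z = u * 1 * w * (u * 1 * z) := by decide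
          exact this _ _ _
    rw [h2, add_zero]
  -- the last term
  have hY : Yd l ε n' = ∑ b ∈ M.powerset, sm ε b * T1 l al k b * T1 l al k (n' \ b) := by
    have hrn' : r ∈ n' := by rw [hn'M]; exact mem_insert_self r M
    rw [idA0 hk (fun p _ => hρ0 ε hε p) haln' hεn' hrn']
    rw [sum_compl, hn'M, sum_powerset_insert hrM]
    have h3 : ∑ A ∈ M.powerset, (if r ∈ insert r M \ insert r A then
        sm ε (insert r M \ insert r A) * T1 l al k (insert r M \ insert r A) *
          (sm ε (insert r M \ (insert r M \ insert r A)) *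
            T1 l al k (insert r M \ (insert r M \ insert r A))) else 0) = 0 := by
      refine sum_eq_zero fun A _ => if_neg fun h => ?_
      rw [mem_sdiff] at h
      exact h.2 (mem_insert_self r A)
    rw [h3, add_zero]
    refine sum_congr rfl fun b hb => ?_
    rw [mem_powerset] at hb
    have hb' : b ⊆ insert r M := hb.trans (subset_insert r M)
    rw [if_pos (mem_sdiff.2 ⟨mem_insert_self r M, fun h => hrM (hb h)⟩),
      Finset.sdiff_sdiff_eq_self hb', ← hn'M, sm_sdiff ε (by rw [hn'M]; exact hb'), hεn', zero_add]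
    have : ∀ u w z : ZMod 2, u * w * (u * z) = u * z * w := by decide
    exact this _ _ _
  rw [hL, hR, hY, idD0 hk (hρ0 ρ hρ) ε hr hkr hn hρn hεn]

end vert

end id

end Pool.Agent.N972.F2
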