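import Pool.Agent.N972.F2.Id

/-!
# The recursion of the ramified class with the vertex of `-4` (helper972)
-/

set_option autoImplicit false
set_option linter.unusedSectionVars false

open Finset Pool.Agent.N855.P17

namespace Pool.Agent.N972.F2

section id2

variable {ι : Type} [DecidableEq ι] {l : ι → ι → ZMod 2} {al k : ι → ZMod 2}

theorem rt_add (t : ι) (f g : Finset ι → ZMod 2) :
    rt t (fun T => f T + g T) = fun T => rt t f T + rt t g T := by
  funext S
  unfold rt
  split_ifs
  · rw [add_zero]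
  · rfl

theorem rt_zero (t : ι) : rt t (fun _ => 0) = fun _ => 0 := by
  funext S
  unfold rt
  rw [ite_self]

section vert

variable (hk : HK l al k) {t : ι} (ht : al t = 1) (hkt : k t = 0) (hk1 : ∀ i, i ≠ t → k i = 1)
  (hlt : ∀ i, i ≠ t → l i t = al i)

/-- the second functional -/
def sh (al ρ : ι → ZMod 2) (t : ι) (i : ι) : ZMod 2 := if i = t then 0 else ρ i + al i

theorem sm_sh {ρ : ι → ZMod 2} {t : ι} {S : Finset ι} (hS : t ∉ S) :
    sm (sh al ρ t) S = sm ρ S + sm al S := by
  rw [← sm_add]
  refine sm_congr fun p hp => ?_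
  unfold sh
  rw [if_neg]
  rintro rfl
  exact hS hp

include hk1 in
theorem sup0 {ρ : ι → ZMod 2} (hρ : ρ t = 0) (p : ι) (hp : k p = 0) : ρ p = 0 := by
  by_cases h : p = t
  · rw [h, hρ]
  · rw [hk1 p h] at hp
    exact absurd hp one_ne_zero

theorem sh_t {ρ : ι → ZMod 2} : sh al ρ t t = 0 := if_pos rfl

include hk hk1 in
/-- the sum of the odd parts -/
theorem hh_sum {ρ : ι → ZMod 2} (hρ : ρ t = 0) {S : Finset ι} (hS : t ∉ S) :
    hh l al ρ S + hh l al (sh al ρ t) S = T1 l al k S := by
  rw [hh_T1 hk fun p _ => sup0 hk1 hρ p, hh_T1 hk fun p _ => sup0 hk1 sh_t p, sm_sh hS]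
  by_cases h : T1 l al k S = 0
  · rw [h]; ring
  · rw [T1_par h]
    have : ∀ u w : ZMod 2, u * w + (u + 1) * w = w := by decide
    exact this _ _

include hk hk1 in
/-- the even part of the second functional -/
theorem kk_sh {ρ : ι → ZMod 2} (hρ : ρ t = 0) {S : Finset ι} (hS : t ∉ S) :
    kk l al (sh al ρ t) S = kk l al ρ S + cv (hh l al ρ) (hh l al (sh al ρ t)) S := by
  have hρ' := fun p => sup0 hk1 hρ p
  have hσ' := fun p => sup0 hk1 (sh_t (al := al) (ρ := ρ)) p
  set σ := sh al ρ t with hσ
  -- the convolution is supported on the even sets with `ρ` odd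
  have hcv : ¬ (sm al S = 0 ∧ sm ρ S = 1) → cv (hh l al ρ) (hh l al σ) S = 0 := by
    intro hn
    refine sum_eq_zero fun A hA => ?_
    rw [mem_powerset] at hA
    by_contra hne
    apply hn
    have h1 := left_ne_zero_of_mul hne
    have h2 := right_ne_zero_of_mul hne
    have h3 := hh_odd h1
    have h4 := hh_odd h2
    rw [hh_T1 hk fun p _ => hρ' p] at h1
    rw [hh_T1 hk fun p _ => hσ' p] at h2
    have h5 := left_ne_zero_of_mul h1
    have h6 := left_ne_zero_of_mul h2
    rw [hσ, sm_sh (fun h => hS (sdiff_subset h)), h4] at h6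
    rw [sm_sdiff al hA, h3] at h4
    rw [sm_sdiff ρ hA] at h6
    have a1 : ∀ u : ZMod 2, u + 1 = 1 → u = 0 := by decide
    have a2 : ∀ u w : ZMod 2, w ≠ 0 → u + w + 1 ≠ 0 → u = 1 := by decide
    exact ⟨a1 _ h4, a2 _ _ h5 h6⟩
  unfold kk
  rw [hσ, sm_sh hS, ← hσ]
  by_cases h : sm al S = 0 ∧ sm ρ S = 1
  · obtain ⟨h1, h2⟩ := h
    rw [if_pos ⟨h1, by rw [h1, h2, add_zero]⟩, if_pos ⟨h1, h2⟩]
    -- the sum of the cofactors
    set τ : ι → ZMod 2 := fun i => if i = t then 0 else al i with hτ
    have hτt : τ t = 0 := if_pos rfl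
    have hτ' := fun p => sup0 hk1 hτt p
    have e1 : Yd l σ S = Yd l ρ S + Yd l τ S := by
      rw [← Yd_add]
      refine Yd_congr l fun p hp => ?_
      have hpt : p ≠ t := by
        rintro rfl
        exact hS hp
      rw [hσ, hτ]
      unfold sh
      simp only
      rw [if_neg hpt, if_neg hpt]
    rw [e1]
    congr 1
    have hτal : ∀ T ⊆ S, sm τ T = sm al T := by
      intro T hT
      refine sm_congr fun p hp => ?_
      rw [hτ]
      simp only
      rw [if_neg]
      rintro rfl
      exact hS (hT hp)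
    have hne : S.Nonempty := by
      rw [nonempty_iff_ne_empty]
      rintro rfl
      rw [sm_empty] at h2
      exact zero_ne_one h2
    obtain ⟨c, hc⟩ := hne
    have hhτ : ∀ T ⊆ S, hh l al τ T = hh l al ρ T + hh l al σ T := by
      intro T hT
      rw [hh_sum hk hk1 hρ fun h => hS (hT h), hh_T1 hk fun p _ => hτ' p, hτal T hT]
      by_cases h3 : T1 l al k T = 0
      · rw [h3, mul_zero]
      · rw [T1_par h3, one_mul]
    rw [Yd_even hk (fun p _ => hτ' p) h1 (by rw [hτal S (Subset.refl S), h1]) hc]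
    -- all the products but the mixed ones vanish
    have e2 : cv (rs c (hh l al τ)) (hh l al τ) S =
        cv (rs c (hh l al ρ)) (hh l al σ) S + cv (rs c (hh l al σ)) (hh l al ρ) S := by
      unfold cv
      rw [← sum_add_distrib]
      refine sum_congr rfl fun A hA => ?_
      rw [mem_powerset] at hA
      by_cases hcA : c ∈ A
      · have r1 : ∀ f : Finset ι → ZMod 2, rs c f A = f A := fun f => if_pos hcA
        rw [r1, r1, r1, hhτ A hA, hhτ (S \ A) sdiff_subset]
        have z1 : hh l al ρ A * hh l al ρ (S \ A) = 0 := by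
          by_contra hne
          have h3 := left_ne_zero_of_mul hne
          have h4 := right_ne_zero_of_mul hne
          rw [hh_T1 hk fun p _ => hρ' p] at h3 h4
          have h5 := left_ne_zero_of_mul h3
          have h6 := left_ne_zero_of_mul h4
          rw [sm_sdiff ρ hA, h2] at h6
          have : ∀ u : ZMod 2, u ≠ 0 → 1 + u ≠ 0 → False := by decide
          exact this _ h5 h6
        have z2 : hh l al σ A * hh l al σ (S \ A) = 0 := by
          by_contra hne
          have h3 := left_ne_zero_of_mul hne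
          have h4 := right_ne_zero_of_mul hne
          have h7 := hh_odd h3
          have h8 := hh_odd h4
          rw [hh_T1 hk fun p _ => hσ' p] at h3 h4
          have h5 := left_ne_zero_of_mul h3
          have h6 := left_ne_zero_of_mul h4
          rw [hσ, sm_sh (fun h => hS (hA h)), h7] at h5
          rw [hσ, sm_sh (fun h => hS (sdiff_subset h)), h8, sm_sdiff ρ hA, h2] at h6
          have : ∀ u : ZMod 2, u + 1 ≠ 0 → 1 + u + 1 ≠ 0 → False := by decide
          exact this _ h5 h6
        have : ∀ u w z v : ZMod 2, u * z = 0 → w * v = 0 → (u + w) * (z + v) = u * v + w * z := by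
          decide
        exact this _ _ _ _ z1 z2
      · have r1 : ∀ f : Finset ι → ZMod 2, rs c f A = 0 := fun f => if_neg hcA
        rw [r1, r1, r1]
        ring
    rw [e2]
    -- the two parts
    have e3 : cv (rs c (hh l al σ)) (hh l al ρ) S =
        ∑ A ∈ S.powerset, if c ∈ A then 0 else hh l al ρ A * hh l al σ (S \ A) := by
      unfold cv
      rw [sum_compl]
      refine sum_congr rfl fun A hA => ?_
      rw [mem_powerset] at hA
      rw [Finset.sdiff_sdiff_eq_self hA]
      by_cases hcA : c ∈ A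
      · have : rs c (hh l al σ) (S \ A) = 0 := if_neg fun h => (mem_sdiff.1 h).2 hcA
        rw [this, if_pos hcA, zero_mul]
      · have : rs c (hh l al σ) (S \ A) = hh l al σ (S \ A) := if_pos (mem_sdiff.2 ⟨hc, hcA⟩)
        rw [this, if_neg hcA, mul_comm]
    rw [e3]
    unfold cv
    rw [← sum_add_distrib]
    refine sum_congr rfl fun A _ => ?_
    unfold rs
    split_ifs
    · rw [add_zero]
    · rw [zero_mul, zero_add]
  · rw [hcv h, if_neg h, if_neg, add_zero]
    rintro ⟨h1, h2⟩
    rw [h1, add_zero] at h2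
    exact h ⟨h1, h2⟩

include hk hk1 in
/-- the second exponential -/
theorem rt_Ge_sh {ρ : ι → ZMod 2} (hρ : ρ t = 0) :
    rt t (Ge l al (sh al ρ t)) = fun T => rt t (Ge l al ρ) T +
      cv (cv (rt t (hh l al ρ)) (rt t (hh l al (sh al ρ t)))) (rt t (Ge l al ρ)) T := by
  have hρ' := fun p => sup0 hk1 hρ p
  have hσ' := fun p => sup0 hk1 (sh_t (al := al) (ρ := ρ)) p
  set σ := sh al ρ t with hσ
  set h := rt t (hh l al ρ) with hh1
  set h' := rt t (hh l al σ) with hh2
  set κ := rt t (kk l al ρ) with hκ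
  set κ' := rt t (kk l al σ) with hκ'
  set G := rt t (Ge l al ρ) with hG
  have hhh : cv h h = fun _ => 0 := by
    rw [hh1, ← rt_cv, cv_hh, rt_zero]
  have hhh' : cv h' h' = fun _ => 0 := by
    rw [hh2, ← rt_cv, cv_hh, rt_zero]
  have eκ : κ' = fun T => κ T + cv h h' T := by
    funext T
    rw [hκ', hκ, hh1, hh2, ← rt_cv]
    unfold rt
    split_ifs with h3
    · rw [add_zero]
    · exact kk_sh hk hk1 hρ h3
  have rG : ∀ c, rs c G = cv (rs c κ) G := by
    intro c
    rw [hG, rt_rs, rs_Ge hk hρ', rt_cv, ← rt_rs]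
  have rG' : ∀ c, rs c (rt t (Ge l al σ)) = cv (rs c κ') (rt t (Ge l al σ)) := by
    intro c
    rw [rt_rs, rs_Ge hk hσ', rt_cv, ← rt_rs]
  refine exp_unique rG' ?_ ?_
  · intro c
    have e1 : rs c (fun T => G T + cv (cv h h') G T) = fun T => rs c G T +
        (cv (rs c (cv h h')) G T + cv (cv h h') (rs c G) T) := by
      funext T
      have h1 : rs c (fun T => G T + cv (cv h h') G T) T = rs c G T + rs c (cv (cv h h') G) T := by
        unfold rs
        split_ifs
        · rfl
        · rw [add_zero]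
      rw [h1, rs_cv]
    have e2 : rs c κ' = fun T => rs c κ T + rs c (cv h h') T := by
      rw [eκ]
      funext T
      unfold rs
      split_ifs
      · rfl
      · rw [add_zero]
    have e3 : rs c (cv h h') = fun T => cv (rs c h) h' T + cv h (rs c h') T := by
      funext T
      exact rs_cv c h h' T
    have e4 : cv (rs c (cv h h')) (cv (cv h h') G) = fun _ => 0 := by
      rw [e3, cv_add_l]
      have a1 : cv (cv (rs c h) h') (cv (cv h h') G) =
        cv (cv h' h') (cv (rs c h) (cv h G)) := by ac_rfl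
      have a2 : cv (cv h (rs c h')) (cv (cv h h') G) =
        cv (cv h h) (cv (rs c h') (cv h' G)) := by ac_rfl
      rw [a1, a2, hhh, hhh', cv_zero_left, cv_zero_left]
      funext T
      rw [add_zero]
    have e5 : cv (rs c κ') (fun T => G T + cv (cv h h') G T) = fun T => (cv (rs c κ) G T +
        cv (rs c (cv h h')) G T) + (cv (rs c κ) (cv (cv h h') G) T) := by
      rw [cv_add_r, e2, cv_add_l, cv_add_l, e4]
      funext T
      simp only [add_zero]
    rw [e1, e5, rG]
    funext T
    have a3 : cv (cv h h') (cv (rs c κ) G) = cv (rs c κ) (cv (cv h h') G) := by ac_rfl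
    rw [a3]
    ring
  · have h1 : rt t (Ge l al σ) ∅ = 1 := by
      rw [rt_of (notMem_empty t), Ge_empty]
    have h2 : G ∅ = 1 := by
      rw [hG, rt_of (notMem_empty t), Ge_empty]
    rw [h1, h2]
    unfold cv
    simp only [powerset_empty, sum_singleton]
    rw [hh1, rt_of (notMem_empty t), hh_empty]
    ring

include hk ht hk1 hlt in
/-- the determinants of the sets with the vertex `t` -/
theorem Dd_ad_t {ρ : ι → ZMod 2} (hρ : ρ t = 0) {Q : Finset ι} (hQ : t ∉ Q) (hal : sm al Q = 1) :
    Dd l (ad ρ t) (insert t Q) = cv (fun b => rt t (fun b => kk l al ρ (insert t b)) b +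
      rt t (hh l al (sh al ρ t)) b) (rt t (Ge l al ρ)) Q := by
  have hρ' := fun p => sup0 hk1 hρ p
  have hσ' := fun p => sup0 hk1 (sh_t (al := al) (ρ := ρ)) p
  have h1 : sm al (insert t Q) = 0 := by
    rw [sm_insert al hQ, ht, hal]
    decide
  rw [Dd_ad ρ (mem_insert_self t Q), erase_insert hQ, Dd_even hk hρ' h1, cv_add_l]
  congr 1
  · -- the first part
    have h2 : rs t (Ge l al ρ) (insert t Q) = Ge l al ρ (insert t Q) := if_pos (mem_insert_self t Q)
    rw [← h2, rs_Ge hk hρ']
    unfold cv
    rw [sum_powerset_insert hQ]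
    have h3 : ∑ A ∈ Q.powerset, rs t (kk l al ρ) A * Ge l al ρ (insert t Q \ A) = 0 := by
      refine sum_eq_zero fun A hA => ?_
      have : rs t (kk l al ρ) A = 0 := if_neg fun h => hQ (mem_powerset.1 hA h)
      rw [this, zero_mul]
    rw [h3, zero_add]
    refine sum_congr rfl fun A hA => ?_
    rw [mem_powerset] at hA
    have h4 : rs t (kk l al ρ) (insert t A) = kk l al ρ (insert t A) := if_pos (mem_insert_self t A)
    rw [h4, insert_sdiff_ins hQ, rt_of fun h => hQ (hA h), rt_of fun h => hQ (sdiff_subset h)]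
  · -- the second part
    have h2 : Dd l (fun i => ρ i + l i t) Q = Dd l (sh al ρ t) Q := by
      refine Dd_congr l fun p hp => ?_
      have hpt : p ≠ t := by
        rintro rfl
        exact hQ hp
      unfold sh
      rw [if_neg hpt, hlt p hpt]
    rw [h2, Dd_odd hk hσ' hal]
    have h3 : cv (hh l al (sh al ρ t)) (Ge l al (sh al ρ t)) Q =
        cv (rt t (hh l al (sh al ρ t))) (rt t (Ge l al (sh al ρ t))) Q := by
      rw [← rt_cv, rt_of hQ]
    rw [h3, rt_Ge_sh hk hk1 hρ, cv_add_r]
    have h4 : cv (rt t (hh l al (sh al ρ t)))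
        (cv (cv (rt t (hh l al ρ)) (rt t (hh l al (sh al ρ t)))) (rt t (Ge l al ρ))) =
        fun _ => 0 := by
      have a1 : cv (rt t (hh l al (sh al ρ t)))
          (cv (cv (rt t (hh l al ρ)) (rt t (hh l al (sh al ρ t)))) (rt t (Ge l al ρ))) =
          cv (cv (rt t (hh l al (sh al ρ t))) (rt t (hh l al (sh al ρ t))))
            (cv (rt t (hh l al ρ)) (rt t (Ge l al ρ))) := by ac_rfl
      rw [a1, ← rt_cv, cv_hh, rt_zero, cv_zero_left]
    simp only [h4, add_zero]

include hk ht hk1 hlt in
/-- **identity (C)** with the vertex of `-4`, first form -/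
theorem idC1 {ρ : ι → ZMod 2} (hρ : ρ t = 0) {ε : ι → ZMod 2} (hε : ε t = 0) {P : Finset ι}
    (htP : t ∉ P) (hP : sm al P = 1) :
    ∑ a ∈ (insert t P).powerset, sm ε a * (if sm al a = 0 ∧ sm ρ a = 1 then Yd l (ad ρ t) a else 0) *
      Dd l (ad ρ t) (insert t P \ a) = sm ε P * Dd l (ad ρ t) (insert t P) +
        cv (mE ε (T1 l al k)) (Dd l ρ) P := by
  have hρ' := fun p => sup0 hk1 hρ p
  set κ := rt t (kk l al ρ) with hκ
  set κt := rt t (fun b => kk l al ρ (insert t b)) with hκt
  set h' := rt t (hh l al (sh al ρ t)) with hh2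
  set h := rt t (hh l al ρ) with hh1
  set G := rt t (Ge l al ρ) with hG
  set X := cv (fun b => κt b + h' b) G with hX
  have hXP : Dd l (ad ρ t) (insert t P) = X P := Dd_ad_t hk ht hk1 hlt hρ htP hP
  -- the part without `t`
  have h1 : ∑ a ∈ P.powerset, sm ε a *
      (if sm al a = 0 ∧ sm ρ a = 1 then Yd l (ad ρ t) a else 0) * Dd l (ad ρ t) (insert t P \ a) =
      cv (mE ε κ) X P := by
    refine sum_congr rfl fun a ha => ?_
    rw [mem_powerset] at ha
    have hta : t ∉ a := fun h => htP (ha h)
    rw [Yd_ad_notMem ρ hta, insert_sdiff_sub htP ha]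
    have h2 : (if sm al a = 0 ∧ sm ρ a = 1 then Yd l ρ a else 0) = kk l al ρ a := rfl
    rw [h2]
    have h3 : mE ε κ a = sm ε a * kk l al ρ a := by
      unfold mE
      rw [hκ, rt_of hta]
    rw [h3]
    by_cases h4 : kk l al ρ a = 0
    · rw [h4]; ring
    · rw [Dd_ad_t hk ht hk1 hlt hρ (fun h => htP (sdiff_subset h))]
      rw [sm_sdiff al ha, hP, (kk_even h4).1, add_zero]
  -- the part with `t`
  have h2 : ∑ b ∈ P.powerset, sm ε (insert t b) *
      (if sm al (insert t b) = 0 ∧ sm ρ (insert t b) = 1 then Yd l (ad ρ t) (insert t b) else 0) *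
      Dd l (ad ρ t) (insert t P \ insert t b) = cv (mE ε (fun b => κt b + h b)) G P := by
    refine sum_congr rfl fun b hb => ?_
    rw [mem_powerset] at hb
    have htb : t ∉ b := fun h => htP (hb h)
    have htPb : t ∉ P \ b := fun h => htP (sdiff_subset h)
    rw [insert_sdiff_ins htP, sm_insert ε htb, hε, zero_add, Dd_ad_notMem ρ htPb,
      Yd_ad ρ (mem_insert_self t b), tt_t hk hk1 hlt (mem_insert_self t b), erase_insert htb]
    unfold mE
    beta_reduce
    rw [hκt, hh1, rt_of htb, rt_of htb, hG, rt_of htPb]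
    have hal := sm_insert al htb
    have hrh := sm_insert ρ htb
    rw [ht] at hal
    rw [hρ, zero_add] at hrh
    unfold kk
    rw [hal, hrh]
    rcases z01 (sm al b) with h3 | h3
    · rw [h3, add_zero, if_neg (fun h => one_ne_zero h.1), if_neg (fun h => one_ne_zero h.1)]
      have h4 : hh l al ρ b = 0 := by
        unfold hh
        rw [if_neg]
        rw [h3]
        exact zero_ne_one
      rw [h4]
      ring
    · have h4 : (1 : ZMod 2) + 1 = 0 := by decide
      have h5 : un1 b = 0 := by
        unfold un1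
        rw [if_neg]
        rintro rfl
        rw [sm_empty] at h3
        exact zero_ne_one h3
      have h6 : sm al (P \ b) = 0 := by rw [sm_sdiff al hb, hP, h3]; decide
      rw [h3, h4, h5, zero_add, Dd_even hk hρ' h6, hh_T1 hk fun p _ => hρ' p]
      rcases z01 (sm ρ b) with h7 | h7
      · rw [h7, if_neg (fun h => zero_ne_one h.2), if_neg (fun h => zero_ne_one h.2)]
        ring
      · rw [h7, if_pos ⟨rfl, rfl⟩, if_pos ⟨rfl, rfl⟩, one_mul]
  -- the derivative
  have h3 : mE ε X P = cv (mE ε (fun b => κt b + h' b)) G P + cv (mE ε κ) X P := by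
    have e1 : mE ε G = cv (mE ε κ) G := by
      refine mE_exp (fun c => ?_) ε
      rw [hG, rt_rs, rs_Ge hk hρ', rt_cv, ← rt_rs]
    rw [hX, mE_cv, e1]
    congr 1
    have : cv (fun b => κt b + h' b) (cv (mE ε κ) G) = cv (mE ε κ) (cv (fun b => κt b + h' b) G) := by
      ac_rfl
    rw [this]
  have h4 : mE ε X P = sm ε P * X P := rfl
  -- the correction
  have h5 : cv (mE ε (T1 l al k)) (Dd l ρ) P = cv (mE ε fun b => h b + h' b) G P := by
    refine sum_congr rfl fun b hb => ?_
    rw [mem_powerset] at hb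
    have htb : t ∉ b := fun h => htP (hb h)
    have htPb : t ∉ P \ b := fun h => htP (sdiff_subset h)
    unfold mE
    beta_reduce
    rw [hh1, hh2, rt_of htb, rt_of htb, hh_sum hk hk1 hρ htb, hG, rt_of htPb]
    by_cases h6 : T1 l al k b = 0
    · rw [h6]; ring
    · rw [Dd_even hk hρ']
      rw [sm_sdiff al hb, hP, T1_par h6]
      decide
  rw [sum_powerset_insert htP, h1, h2, hXP, ← h4, h3, h5]
  have h6 : cv (mE ε fun b => κt b + h b) G P = cv (mE ε κt) G P + cv (mE ε h) G P := by
    rw [← cv_add_left]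
    congr 1
    funext T
    unfold mE
    ring
  have h7 : cv (mE ε fun b => κt b + h' b) G P = cv (mE ε κt) G P + cv (mE ε h') G P := by
    rw [← cv_add_left]
    congr 1
    funext T
    unfold mE
    ring
  have h8 : cv (mE ε fun b => h b + h' b) G P = cv (mE ε h) G P + cv (mE ε h') G P := by
    rw [← cv_add_left]
    congr 1
    funext T
    unfold mE
    ring
  rw [h6, h7, h8]
  have : ∀ u w z v : ZMod 2, u + (w + z) = w + v + u + (z + v) := by decide
  exact this _ _ _ _

include hk in
/-- the correction term as a criterion -/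
theorem corr {ρ ε : ι → ZMod 2} {s : ι} {P : Finset ι} (hs : s ∉ P) (hks : k s = 1)
    (hals : al s = 1) (hl : ∀ i ∈ P, l i s = ρ i) (hP : sm al P = 1) (hεs : ε s = 1)
    (hεP : sm ε P = 1) (hε : ∀ p ∈ P, k p = 0 → ε p = 0) :
    Yd l ε (insert s P) = cv (mE ε (T1 l al k)) (Dd l ρ) P := by
  have h1 : sm al (insert s P) = 0 := by rw [sm_insert al hs, hals, hP]; decide
  have h2 : sm ε (insert s P) = 0 := by rw [sm_insert ε hs, hεs, hεP]; decide
  have h3 : ∀ p ∈ insert s P, k p = 0 → ε p = 0 := by
    intro p hp hkp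
    rcases mem_insert.1 hp with h | h
    · rw [h, hks] at hkp
      exact absurd hkp one_ne_zero
    · exact hε p h hkp
  rw [idA0 hk h3 h1 h2 (mem_insert_self s P), sum_powerset_insert hs]
  have h4 : ∑ A ∈ P.powerset, (if s ∈ A then sm ε A * T1 l al k A *
      (sm ε (insert s P \ A) * T1 l al k (insert s P \ A)) else 0) = 0 :=
    sum_eq_zero fun A hA => if_neg fun h => hs (mem_powerset.1 hA h)
  rw [h4, zero_add]
  unfold cv
  rw [sum_compl]
  refine sum_congr rfl fun b hb => ?_
  rw [mem_powerset] at hb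
  have hsb : s ∉ P \ b := fun h => hs (sdiff_subset h)
  rw [if_pos (mem_insert_self s _), insert_sdiff_ins hs, Finset.sdiff_sdiff_eq_self hb,
    T1_insert hk hsb hks hals (fun i hi => hl i (sdiff_subset hi)), sm_insert ε hsb, hεs,
    sm_sdiff ε hb, hεP]
  unfold mE
  by_cases h5 : T1 l al k b = 0
  · rw [h5]; ring
  · rw [if_pos]
    · have : ∀ u w z : ZMod 2, (1 + (1 + u)) * w * (u * z) = u * z * w := by decide
      exact this _ _ _
    · rw [sm_sdiff al hb, hP, T1_par h5]
      decide

/-- the sum of the cofactors with the column of a vertex -/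
theorem Yd_col (l : ι → ι → ZMod 2) {S : Finset ι} {v : ι} (hv : v ∈ S) {ε : ι → ZMod 2}
    (h : ∀ p ∈ S, ε p = Lm l S p v) : Yd l ε S = 0 := by
  rw [← tt_ann l hv]
  unfold Yd
  exact sum_congr rfl fun p hp => by rw [h p hp]

include hk ht hkt hk1 hlt in
/-- **identity (C)** with the vertex of `-4`, for the functional of a vertex `v` -/
theorem idC2 {ρ : ι → ZMod 2} (hρ : ρ t = 0) {ε : ι → ZMod 2} (hε : ε t = 0) {s v : ι}
    {D : Finset ι} (htD : t ∈ D) (hs : s ∉ D) (hst : s ≠ t) (hals : al s = 1)
    (hl : ∀ i ∈ D, l i s = ad ρ t i) (hD : sm al D = 0) (hv : v ∈ D) (hvt : v ≠ t)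
    (hcol : ∀ p ∈ D, p ≠ v → p ≠ t → ε p = l p v) (hrow : ∀ p ∈ D, p ≠ v → p ≠ t → l v p = l p v)
    (hvs : l v s = 1) (hεD : sm ε D = 1) (hsv : l s v = 1) :
    ∑ a ∈ D.powerset, sm ε a * (if sm al a = 0 ∧ sm ρ a = 1 then Yd l (ad ρ t) a else 0) *
      T1 l al k (insert s (D \ a)) = T1 l al k (insert s D) := by
  set P := D.erase t with hP
  have htP : t ∉ P := notMem_erase t D
  have hDP : insert t P = D := insert_erase htD
  have hvP : v ∈ P := mem_erase.2 ⟨hvt, hv⟩
  have hsP : s ∉ P := fun h => hs (mem_of_mem_erase h)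
  have hks := hk1 s hst
  have hst' : s ∉ insert t P := by rw [hDP]; exact hs
  have halP : sm al P = 1 := by
    have := sm_insert al htP
    rw [hDP, hD, ht] at this
    have a1 : ∀ u : ZMod 2, 0 = 1 + u → u = 1 := by decide
    exact a1 _ this
  have hεP : sm ε P = 1 := by
    have := sm_insert ε htP
    rw [hDP, hεD, hε, zero_add] at this
    exact this.symm
  -- the functional with the value one at `s`
  set ε' : ι → ZMod 2 := fun i => if i = s then 1 else ε i with hε'
  have hεε : ∀ p ∈ P, ε' p = ε p := by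
    intro p hp
    rw [hε']
    simp only
    rw [if_neg]
    rintro rfl
    exact hsP hp
  have hcor : cv (mE ε (T1 l al k)) (Dd l ρ) P = 0 := by
    have h1 : Yd l ε' (insert s P) = cv (mE ε' (T1 l al k)) (Dd l ρ) P := by
      refine corr hk hsP hks hals (fun i hi => ?_) halP (if_pos rfl) ?_ ?_
      · rw [hl i (mem_of_mem_erase hi)]
        unfold ad
        rw [if_neg (ne_of_mem_erase hi), add_zero]
      · rw [sm_congr hεε, hεP]
      · intro p hp hkp
        rw [hεε p hp]
        exact sup0 hk1 hε p hkp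
    have h2 : cv (mE ε' (T1 l al k)) (Dd l ρ) P = cv (mE ε (T1 l al k)) (Dd l ρ) P := by
      refine sum_congr rfl fun b hb => ?_
      rw [mem_powerset] at hb
      unfold mE
      rw [sm_congr fun p hp => hεε p (hb hp)]
    rw [← h2, ← h1]
    refine Yd_col l (mem_insert_of_mem hvP) fun p hp => ?_
    rcases mem_insert.1 hp with h | h
    · rw [h, hε']
      simp only [if_true]
      unfold Lm
      have hne : s ≠ v := by
        rintro rfl
        exact hsP hvP
      rw [if_neg hne, hsv]
    · by_cases hpv : p = v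
      · rw [hpv, hεε v hvP]
        unfold Lm
        rw [if_pos rfl]
        have e1 : (insert s P).erase v = insert s (P.erase v) := by
          rw [erase_insert_of_ne]
          rintro rfl
          exact hsP hvP
        rw [e1, sum_insert fun h => hsP (mem_of_mem_erase h), hvs]
        have e2 : ∑ r ∈ P.erase v, l v r = ∑ r ∈ P.erase v, ε r := by
          refine sum_congr rfl fun r hr => ?_
          have h3 := mem_of_mem_erase hr
          rw [hcol r (mem_of_mem_erase h3) (ne_of_mem_erase hr) (ne_of_mem_erase h3),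
            hrow r (mem_of_mem_erase h3) (ne_of_mem_erase hr) (ne_of_mem_erase h3)]
        rw [e2]
        have e3 : ε v + ∑ r ∈ P.erase v, ε r = 1 := by
          rw [add_sum_erase P _ hvP]
          exact hεP
        have a1 : ∀ u w : ZMod 2, u + w = 1 → u = 1 + w := by decide
        exact a1 _ _ e3
      · rw [hεε p h]
        unfold Lm
        rw [if_neg hpv]
        exact hcol p (mem_of_mem_erase h) hpv (ne_of_mem_erase h)
  -- the first form
  have hmain := idC1 hk ht hk1 hlt hρ hε htP halP
  rw [hcor, add_zero, hεP, one_mul, hDP] at hmain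
  rw [T1_insert hk hs hks hals hl, if_pos hD, ← hmain]
  refine sum_congr rfl fun a ha => ?_
  rw [mem_powerset] at ha
  by_cases h : sm al a = 0 ∧ sm ρ a = 1
  · have h5 : sm al (D \ a) = 0 := by rw [sm_sdiff al ha, hD, h.1, zero_add]
    rw [T1_insert hk (fun h1 => hs (sdiff_subset h1)) hks hals (fun i hi => hl i (sdiff_subset hi)),
      if_pos h5]
  · rw [if_neg h]
    ring

end vert

end id2

end Pool.Agent.N972.F2
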