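import Pool.Agent.N972.F2.Quad

/-!
# The criterion of an alternating matrix (helper972)
-/

set_option autoImplicit false
set_option linter.unusedSectionVars false

open Finset Pool.Agent.N855.P17

namespace Pool.Agent.N972.F2

/-! ### symmetric matrices -/

section hf

variable {K : Type} [DecidableEq K]

/-- the indicator of an injective principal block -/
noncomputable def Hf (M : K → K → ZMod 2) (I : Finset K) : ZMod 2 :=
  ind (∀ v : K → ZMod 2, (∀ r ∈ I, ∑ c ∈ I, M r c * v c = 0) → ∀ r ∈ I, v r = 0)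

theorem Hf_sub (M : K → K → ZMod 2) {P J : Finset K} (hJ : J ⊆ P) :
    (res (κ := {x // x ∈ P}) (fun a b => M a.1 b.1) (J.subtype (fun x => x ∈ P))).det = Hf M J := by
  unfold Hf
  rw [← ind_ne (res (κ := {x // x ∈ P}) (fun a b => M a.1 b.1) (J.subtype (fun x => x ∈ P))).det,
    ind_congr det_res_ne]
  refine ind_congr ?_
  have hs : ∀ (v : K → ZMod 2) (r : K), ∑ c ∈ J.subtype (fun x => x ∈ P), M r c.1 * v c.1 =
      ∑ c ∈ J, M r c * v c := fun v r => sum_sub hJ fun c => M r c * v c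
  constructor
  · intro h v hv r hr
    refine h (fun c => v c.1) (fun r hr => ?_) ⟨r, hJ hr⟩ (mem_subtype.2 hr)
    rw [hs v r.1]
    exact hv r.1 (mem_subtype.1 hr)
  · intro h v hv r hr
    have h1 := h (ex P v) (fun r hr => by
      rw [← hs (ex P v) r]
      have h2 := hv ⟨r, hJ hr⟩ (mem_subtype.2 hr)
      rw [← h2]
      exact sum_congr rfl fun c _ => by rw [ex_val]) r.1 (mem_subtype.1 hr)
    rwa [ex_val] at h1

/-- **the expansion** -/
theorem Hf_rec {M : K → K → ZMod 2} (hM : ∀ a b, M a b = M b a) {I : Finset K} {i : K}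
    (hi : i ∈ I) : Hf M I = M i i * Hf M (I.erase i) +
      ∑ j ∈ I.erase i, M i j * Hf M ((I.erase i).erase j) := by
  have hu : ∀ J ⊆ I, ∀ j (hj : j ∈ I), (J.subtype (fun x => x ∈ I)).erase ⟨j, hj⟩ =
      (J.erase j).subtype (fun x => x ∈ I) := by
    intro J _ j hj
    ext x
    simp only [mem_erase, mem_subtype]
    constructor
    · rintro ⟨h1, h2⟩
      exact ⟨fun h => h1 (Subtype.ext h), h2⟩
    · rintro ⟨h1, h2⟩
      exact ⟨fun h => h1 (congrArg Subtype.val h), h2⟩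
  have h := hf_res (S := fun a b : {x // x ∈ I} => M a.1 b.1) (fun a b => hM a.1 b.1)
    (I := I.subtype (fun x => x ∈ I)) (i := ⟨i, hi⟩) (mem_subtype.2 hi)
  rw [Hf_sub M (Subset.refl I), hu I (Subset.refl I) i hi, Hf_sub M (erase_subset i I)] at h
  rw [h]
  congr 1
  rw [← sum_sub (erase_subset i I) fun j => M i j * Hf M ((I.erase i).erase j)]
  refine sum_congr rfl fun j _ => ?_
  rw [hu (I.erase i) (erase_subset i I) j.1 j.2,
    Hf_sub M ((erase_subset j.1 _).trans (erase_subset i I))]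

theorem Hf_empty (M : K → K → ZMod 2) : Hf M ∅ = 1 :=
  ind_pos fun _ _ r hr => absurd hr (notMem_empty r)

end hf

/-! ### the block matrix -/

section blk

/-- the block matrix -/
def Mb (Λ L : ℕ → ℕ → ZMod 2) (d g : ℕ → ZMod 2) : (ℕ ⊕ ℕ) ⊕ Unit → (ℕ ⊕ ℕ) ⊕ Unit → ZMod 2
  | Sum.inl (Sum.inl i), Sum.inl (Sum.inl j) => Λ i j
  | Sum.inl (Sum.inl i), Sum.inl (Sum.inr j) => L i j
  | Sum.inl (Sum.inr j), Sum.inl (Sum.inl i) => L i j
  | Sum.inl (Sum.inr _), Sum.inl (Sum.inr _) => 0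
  | Sum.inl (Sum.inl i), Sum.inr _ => d i
  | Sum.inr _, Sum.inl (Sum.inl i) => d i
  | Sum.inl (Sum.inr j), Sum.inr _ => g j
  | Sum.inr _, Sum.inl (Sum.inr j) => g j
  | Sum.inr _, Sum.inr _ => 0

/-- the index set -/
def Ix (T1 T2 : Finset ℕ) (U : Finset Unit) : Finset ((ℕ ⊕ ℕ) ⊕ Unit) :=
  (T1.disjSum T2).disjSum U

theorem Ix_sum (T1 T2 : Finset ℕ) (U : Finset Unit) (f : (ℕ ⊕ ℕ) ⊕ Unit → ZMod 2) :
    ∑ x ∈ Ix T1 T2 U, f x = ∑ i ∈ T1, f (Sum.inl (Sum.inl i)) + ∑ j ∈ T2, f (Sum.inl (Sum.inr j)) +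
      ∑ u ∈ U, f (Sum.inr u) := by
  unfold Ix
  rw [sum_disjSum, sum_disjSum]

theorem Ix_erase1 (T1 T2 : Finset ℕ) (U : Finset Unit) (i : ℕ) :
    (Ix T1 T2 U).erase (Sum.inl (Sum.inl i)) = Ix (T1.erase i) T2 U := by
  ext x
  unfold Ix
  rcases x with (x | x) | x <;> simp

theorem Ix_erase2 (T1 T2 : Finset ℕ) (U : Finset Unit) (j : ℕ) :
    (Ix T1 T2 U).erase (Sum.inl (Sum.inr j)) = Ix T1 (T2.erase j) U := by
  ext x
  unfold Ix
  rcases x with (x | x) | x <;> simp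

theorem Ix_erase3 (T1 T2 : Finset ℕ) :
    (Ix T1 T2 {()}).erase (Sum.inr ()) = Ix T1 T2 ∅ := by
  ext x
  unfold Ix
  rcases x with (x | x) | x <;> simp

theorem Ix_mem (T1 T2 : Finset ℕ) (U : Finset Unit) : (∀ i, Sum.inl (Sum.inl i) ∈ Ix T1 T2 U ↔ i ∈ T1) ∧
    (∀ j, Sum.inl (Sum.inr j) ∈ Ix T1 T2 U ↔ j ∈ T2) ∧ (∀ u, Sum.inr u ∈ Ix T1 T2 U ↔ u ∈ U) := by
  unfold Ix
  refine ⟨fun i => ?_, fun j => ?_, fun u => ?_⟩ <;> simp

variable {Λ L : ℕ → ℕ → ZMod 2} {d g : ℕ → ZMod 2}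

theorem Mb_symm (hΛ : ∀ i j, Λ i j = Λ j i) (a b : (ℕ ⊕ ℕ) ⊕ Unit) :
    Mb Λ L d g a b = Mb Λ L d g b a := by
  rcases a with (a | a) | a <;> rcases b with (b | b) | b <;> first
    | rfl
    | exact hΛ _ _

/-- the expansion along the column `j` -/
theorem H_col (hΛ : ∀ i j, Λ i j = Λ j i) (T1 : Finset ℕ) {T2 : Finset ℕ} {j : ℕ} (hj : j ∈ T2) :
    Hf (Mb Λ L d g) (Ix T1 T2 ∅) =
      ∑ i ∈ T1, L i j * Hf (Mb Λ L d g) (Ix (T1.erase i) (T2.erase j) ∅) := by
  rw [Hf_rec (Mb_symm hΛ) (i := Sum.inl (Sum.inr j)) ((Ix_mem T1 T2 ∅).2.1 j |>.2 hj), Ix_erase2,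
    Ix_sum]
  have h1 : Mb Λ L d g (Sum.inl (Sum.inr j)) (Sum.inl (Sum.inr j)) = 0 := rfl
  have h2 : ∀ i ∈ T1, Mb Λ L d g (Sum.inl (Sum.inr j)) (Sum.inl (Sum.inl i)) *
      Hf (Mb Λ L d g) ((Ix T1 (T2.erase j) ∅).erase (Sum.inl (Sum.inl i))) =
      L i j * Hf (Mb Λ L d g) (Ix (T1.erase i) (T2.erase j) ∅) := by
    intro i _
    rw [Ix_erase1]
    rfl
  have h3 : ∑ j' ∈ T2.erase j, Mb Λ L d g (Sum.inl (Sum.inr j)) (Sum.inl (Sum.inr j')) *
      Hf (Mb Λ L d g) ((Ix T1 (T2.erase j) ∅).erase (Sum.inl (Sum.inr j'))) = 0 := by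
    refine sum_eq_zero fun j' _ => ?_
    have : Mb Λ L d g (Sum.inl (Sum.inr j)) (Sum.inl (Sum.inr j')) = 0 := rfl
    rw [this, zero_mul]
  rw [h1, zero_mul, zero_add, sum_congr rfl h2, h3, sum_empty, add_zero, add_zero]

/-- the minors -/
theorem HA (hΛ : ∀ i j, Λ i j = Λ j i) {S : Finset ℕ} : ∀ (n : ℕ) (T1 T2 : Finset ℕ), T2.card = n →
    T1.card = T2.card → T2 ⊆ S →
    Hf (Mb Λ L d g) (Ix T1 T2 ∅) = Ph T2 (∏ i ∈ T1, lf (L i) S) := by
  intro n
  induction n with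
  | zero =>
    intro T1 T2 h2 h1 _
    have e2 := card_eq_zero.1 h2
    rw [h2] at h1
    have e1 := card_eq_zero.1 h1
    rw [e1, e2, prod_empty, Ph_one, if_pos rfl]
    exact Hf_empty _
  | succ n ih =>
    intro T1 T2 h2 h1 hS
    obtain ⟨j, hj⟩ := card_pos.1 (by omega : 0 < T2.card)
    rw [H_col hΛ T1 hj, Ph_expcol L S T1 T2 hS j hj]
    refine sum_congr rfl fun i hi => ?_
    rw [ih (T1.erase i) (T2.erase j) (by rw [card_erase_of_mem hj]; omega)
      (by rw [card_erase_of_mem hi, card_erase_of_mem hj]; omega) ((erase_subset j T2).trans hS)]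

/-- the pairs -/
def prs (T : Finset ℕ) : Finset (ℕ × ℕ) := (T ×ˢ T).filter fun p => p.1 < p.2

theorem mem_prs {T : Finset ℕ} {p : ℕ × ℕ} : p ∈ prs T ↔ p.1 ∈ T ∧ p.2 ∈ T ∧ p.1 < p.2 := by
  unfold prs
  rw [mem_filter, mem_product, and_assoc]

/-- the expansion along the row of a pair -/
theorem H_two (hΛ : ∀ i j, Λ i j = Λ j i) (hΛ0 : ∀ i, Λ i i = 0) {a b : ℕ} (hab : a ≠ b) :
    Hf (Mb Λ L d g) (Ix {a, b} ∅ ∅) = Λ a b := by
  rw [Hf_rec (Mb_symm hΛ) (i := Sum.inl (Sum.inl a)) ((Ix_mem _ _ _).1 a |>.2 (by simp)), Ix_erase1,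
    Ix_sum]
  have e : ({a, b} : Finset ℕ).erase a = {b} := by
    ext x
    simp only [mem_erase, mem_insert, mem_singleton]
    constructor
    · rintro ⟨h1, h2 | h2⟩
      · exact absurd h2 h1
      · exact h2
    · rintro rfl
      exact ⟨Ne.symm hab, Or.inr rfl⟩
  have h1 : Mb Λ L d g (Sum.inl (Sum.inl a)) (Sum.inl (Sum.inl a)) = 0 := hΛ0 a
  rw [h1, zero_mul, zero_add, e, sum_singleton, sum_empty, sum_empty, add_zero, add_zero, Ix_erase1]
  have e2 : ({b} : Finset ℕ).erase b = ∅ := by simp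
  rw [e2]
  have e3 : Ix ∅ ∅ ∅ = ∅ := rfl
  rw [e3, Hf_empty, mul_one]
  rfl

/-- the minors with two additional rows -/
theorem HB (hΛ : ∀ i j, Λ i j = Λ j i) (hΛ0 : ∀ i, Λ i i = 0) {S : Finset ℕ} :
    ∀ (n : ℕ) (T1 T2 : Finset ℕ), T2.card = n → T1.card = T2.card + 2 → T2 ⊆ S →
    Hf (Mb Λ L d g) (Ix T1 T2 ∅) =
      ∑ p ∈ prs T1, Λ p.1 p.2 * Ph T2 (∏ i ∈ (T1.erase p.1).erase p.2, lf (L i) S) := by
  intro n
  induction n with
  | zero =>
    intro T1 T2 h2 h1 _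
    have e2 := card_eq_zero.1 h2
    rw [h2, zero_add] at h1
    obtain ⟨a, b, hab, e1⟩ := card_eq_two.1 h1
    rw [e2]
    have hT : ∀ a b : ℕ, a < b → prs {a, b} = {(a, b)} := by
      intro a b hab
      ext ⟨x, y⟩
      rw [mem_prs, mem_singleton]
      simp only [mem_insert, mem_singleton, Prod.mk.injEq]
      constructor
      · rintro ⟨h3 | h3, h4 | h4, h5⟩ <;> omega
      · rintro ⟨rfl, rfl⟩
        exact ⟨Or.inl rfl, Or.inr rfl, hab⟩
    have hE : ∀ a b : ℕ, (({a, b} : Finset ℕ).erase a).erase b = ∅ := by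
      intro a b
      ext x
      simp only [mem_erase, mem_insert, mem_singleton, notMem_empty, iff_false]
      rintro ⟨h3, h4, h5 | h5⟩
      · exact h4 h5
      · exact h3 h5
    rcases lt_or_gt_of_ne hab with h | h
    · rw [e1, hT a b h, sum_singleton, hE a b, prod_empty, Ph_one, if_pos rfl, mul_one,
        H_two hΛ hΛ0 hab]
    · have e3 : ({a, b} : Finset ℕ) = {b, a} := pair_comm a b
      rw [e1, e3, hT b a h, sum_singleton, hE b a, prod_empty, Ph_one, if_pos rfl, mul_one,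
        H_two hΛ hΛ0 (Ne.symm hab)]
  | succ n ih =>
    intro T1 T2 h2 h1 hS
    obtain ⟨j, hj⟩ := card_pos.1 (by omega : 0 < T2.card)
    rw [H_col hΛ T1 hj]
    have e1 : ∀ i ∈ T1, L i j * Hf (Mb Λ L d g) (Ix (T1.erase i) (T2.erase j) ∅) =
        ∑ p ∈ prs T1, if i ∈ (T1.erase p.1).erase p.2 then Λ p.1 p.2 * (L i j *
          Ph (T2.erase j) (∏ x ∈ ((T1.erase p.1).erase p.2).erase i, lf (L x) S)) else 0 := by
      intro i hi
      rw [ih (T1.erase i) (T2.erase j) (by rw [card_erase_of_mem hj]; omega)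
        (by rw [card_erase_of_mem hi, card_erase_of_mem hj]; omega) ((erase_subset j T2).trans hS),
        mul_sum]
      have hsub : prs (T1.erase i) ⊆ prs T1 := by
        intro p hp
        rw [mem_prs] at hp ⊢
        exact ⟨mem_of_mem_erase hp.1, mem_of_mem_erase hp.2.1, hp.2.2⟩
      rw [← sum_subset hsub]
      · refine sum_congr rfl fun p hp => ?_
        rw [mem_prs] at hp
        rw [if_pos]
        · have e : ((T1.erase i).erase p.1).erase p.2 = ((T1.erase p.1).erase p.2).erase i := by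
            ext x
            simp only [mem_erase]
            tauto
          rw [e]
          ring
        · exact mem_erase.2 ⟨(ne_of_mem_erase hp.2.1).symm, mem_erase.2
            ⟨(ne_of_mem_erase hp.1).symm, hi⟩⟩
      · intro p hp hp'
        rw [if_neg]
        intro h3
        apply hp'
        rw [mem_prs] at hp ⊢
        have h4 := mem_erase.1 h3
        have h5 := mem_erase.1 h4.2
        exact ⟨mem_erase.2 ⟨h5.1.symm, hp.1⟩, mem_erase.2 ⟨h4.1.symm, hp.2.1⟩, hp.2.2⟩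
    rw [sum_congr rfl e1, sum_comm]
    refine sum_congr rfl fun p _ => ?_
    rw [Ph_expcol L S ((T1.erase p.1).erase p.2) T2 hS j hj, mul_sum]
    symm
    rw [← sum_subset ((erase_subset p.2 _).trans (erase_subset p.1 T1))]
    · exact sum_congr rfl fun i hi => by rw [if_pos hi]
    · intro i _ hi
      rw [if_neg hi]

/-- the expansion of the complete minor -/
theorem HC (hΛ : ∀ i j, Λ i j = Λ j i) (hΛ0 : ∀ i, Λ i i = 0) {S : Finset ℕ} {c : ℕ} (hc : c ∈ S) :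
    Hf (Mb Λ L d g) (Ix S (S.erase c) {()}) =
      ∑ i ∈ S, d i * Ph (S.erase c) (∏ x ∈ S.erase i, lf (L x) S) +
      ∑ p ∈ prs S, Λ p.1 p.2 *
        Ph (S.erase c) (lf g S * ∏ x ∈ (S.erase p.1).erase p.2, lf (L x) S) := by
  have hcard : 0 < S.card := card_pos.2 ⟨c, hc⟩
  rw [Hf_rec (Mb_symm hΛ) (i := Sum.inr ()) ((Ix_mem _ _ _).2.2 () |>.2 (by simp)), Ix_erase3,
    Ix_sum]
  have h1 : Mb Λ L d g (Sum.inr ()) (Sum.inr ()) = 0 := rfl
  rw [h1, zero_mul, zero_add, sum_empty, add_zero]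
  congr 1
  · refine sum_congr rfl fun i hi => ?_
    rw [Ix_erase1, HA hΛ (S := S) _ (S.erase i) (S.erase c) rfl
      (by rw [card_erase_of_mem hi, card_erase_of_mem hc]) (erase_subset c S)]
    rfl
  · have e1 : ∀ p ∈ prs S, Λ p.1 p.2 *
        Ph (S.erase c) (lf g S * ∏ x ∈ (S.erase p.1).erase p.2, lf (L x) S) =
        ∑ q ∈ S.erase c, g q * (Λ p.1 p.2 * Ph ((S.erase c).erase q)
          (∏ x ∈ (S.erase p.1).erase p.2, lf (L x) S)) := by
      intro p _
      rw [Ph_lf g (erase_subset c S), mul_sum]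
      exact sum_congr rfl fun q _ => by ring
    rw [sum_congr rfl e1, sum_comm]
    refine sum_congr rfl fun q hq => ?_
    rw [Ix_erase2, HB hΛ hΛ0 (S := S) _ S ((S.erase c).erase q) rfl (by
      rw [card_erase_of_mem hq, card_erase_of_mem hc]
      have : 0 < (S.erase c).card := card_pos.2 ⟨q, hq⟩
      rw [card_erase_of_mem hc] at this
      omega) ((erase_subset q _).trans (erase_subset c S)), mul_sum]
    rfl

end blk

/-! ### the sum over the pairs -/

section fin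

variable {l : ℕ → ℕ → ZMod 2}

theorem Ph_pair (l : ℕ → ℕ → ZMod 2) (g : ℕ → ZMod 2) {S : Finset ℕ} (hg : sm g S = 0) {a b c : ℕ}
    (ha : a ∈ S) (hb : b ∈ S) (hc : c ∈ S) (hab : a ≠ b) :
    Ph (S.erase c) (lf g S * ∏ x ∈ (S.erase a).erase b, lf (Lm l S x) S) =
    ∑ A ∈ S.powerset, if a ∈ A ∧ b ∉ A then sm g A * (tt l A a * tt l (S \ A) b) else 0 := by
  have h1 : ∀ T : Finset ℕ, Ph T (∏ i ∈ S.erase b, lf (if i = a then g else Lm l S i) S) =
      Ph T (lf g S * ∏ x ∈ (S.erase a).erase b, lf (Lm l S x) S) := by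
    intro T
    congr 1
    rw [← mul_prod_erase (S.erase b) _ (mem_erase.2 ⟨hab, ha⟩), if_pos rfl, erase_right_comm]
    congr 1
    refine prod_congr rfl fun i hi => ?_
    rw [if_neg (ne_of_mem_erase (mem_of_mem_erase hi))]
  rw [← h1, Ph_col2 (fun i => if i = a then g else Lm l S i) S (S.erase b) (by
    intro i hi
    split_ifs with h
    · exact hg
    · exact Lm_row l (mem_of_mem_erase hi)) hc hb, h1,
    ← ll_prod l ((erase_subset b _).trans (erase_subset a S)), Ph_two l g ha hb hab]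
  refine sum_congr rfl fun A _ => ?_
  by_cases h2 : a ∈ A
  · by_cases h3 : b ∈ A
    · rw [if_pos h2, if_pos h3, if_neg fun h => h.2 h3]
    · rw [if_pos h2, if_neg h3, if_pos ⟨h2, h3⟩]
      rfl
  · rw [if_neg h2, if_neg fun h => h2 h.1]

theorem pair_sum (F : Finset ℕ → ℕ → ℕ → ZMod 2) {S : Finset ℕ} {c : ℕ} (hc : c ∈ S)
    (hF : ∀ A ⊆ S, ∀ i ∈ S, ∀ j ∈ S, F (S \ A) i j = F A j i) :
    ∑ p ∈ prs S, ∑ A ∈ S.powerset, (if p.1 ∈ A ∧ p.2 ∉ A then F A p.1 p.2 else 0) =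
    ∑ A ∈ S.powerset, if c ∈ A then ∑ i ∈ A, ∑ j ∈ S \ A, F A i j else 0 := by
  have hL : ∑ p ∈ prs S, ∑ A ∈ S.powerset, (if p.1 ∈ A ∧ p.2 ∉ A then F A p.1 p.2 else 0) =
      ∑ A ∈ S.powerset, ∑ i ∈ S, ∑ j ∈ S, if i < j ∧ i ∈ A ∧ j ∉ A then F A i j else 0 := by
    rw [sum_comm]
    refine sum_congr rfl fun A _ => ?_
    unfold prs
    rw [sum_filter, sum_product]
    refine sum_congr rfl fun i _ => sum_congr rfl fun j _ => ?_
    by_cases h : i < j
    · rw [if_pos h]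
      by_cases h2 : i ∈ A ∧ j ∉ A
      · rw [if_pos h2, if_pos ⟨h, h2⟩]
      · rw [if_neg h2, if_neg fun h3 => h2 h3.2]
    · rw [if_neg h, if_neg fun h3 => h h3.1]
  have hR : ∀ A ∈ S.powerset, (if c ∈ A then ∑ i ∈ A, ∑ j ∈ S \ A, F A i j else 0) =
      ∑ i ∈ S, ∑ j ∈ S, (if c ∈ A ∧ i < j ∧ i ∈ A ∧ j ∉ A then F A i j else 0) +
      ∑ i ∈ S, ∑ j ∈ S, (if c ∈ A ∧ j < i ∧ i ∈ A ∧ j ∉ A then F A i j else 0) := by
    intro A hA
    rw [mem_powerset] at hA
    rw [← sum_add_distrib]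
    split_ifs with h
    · rw [← sum_subset hA]
      · refine sum_congr rfl fun i hi => ?_
        rw [← sum_add_distrib, ← sum_subset (sdiff_subset : S \ A ⊆ S)]
        · refine sum_congr rfl fun j hj => ?_
          have hjA := (mem_sdiff.1 hj).2
          have hij : i ≠ j := fun h => hjA (h ▸ hi)
          rcases lt_or_gt_of_ne hij with h1 | h1
          · rw [if_pos ⟨h, h1, hi, hjA⟩, if_neg fun h2 => absurd h2.2.1 (by omega), add_zero]
          · rw [if_neg fun h2 => absurd h2.2.1 (by omega), if_pos ⟨h, h1, hi, hjA⟩, zero_add]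
        · intro j hj hj'
          have hjA : j ∈ A := by
            by_contra h2
            exact hj' (mem_sdiff.2 ⟨hj, h2⟩)
          rw [if_neg fun h2 => h2.2.2.2 hjA, if_neg fun h2 => h2.2.2.2 hjA, add_zero]
      · intro i _ hi
        rw [← sum_add_distrib]
        refine sum_eq_zero fun j _ => ?_
        rw [if_neg fun h2 => hi h2.2.2.1, if_neg fun h2 => hi h2.2.2.1, add_zero]
    · symm
      refine sum_eq_zero fun i _ => ?_
      rw [← sum_add_distrib]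
      refine sum_eq_zero fun j _ => ?_
      rw [if_neg fun h2 => h h2.1, if_neg fun h2 => h h2.1, add_zero]
  rw [hL, sum_congr rfl hR, sum_add_distrib]
  have h2 : ∑ A ∈ S.powerset, ∑ i ∈ S, ∑ j ∈ S,
      (if c ∈ A ∧ j < i ∧ i ∈ A ∧ j ∉ A then F A i j else 0) =
      ∑ A ∈ S.powerset, ∑ i ∈ S, ∑ j ∈ S,
      (if c ∉ A ∧ i < j ∧ i ∈ A ∧ j ∉ A then F A i j else 0) := by
    rw [sum_compl]
    refine sum_congr rfl fun A hA => ?_
    rw [mem_powerset] at hA
    rw [sum_comm]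
    refine sum_congr rfl fun j hj => sum_congr rfl fun i hi => ?_
    have e1 : (c ∈ S \ A ∧ j < i ∧ i ∈ S \ A ∧ j ∉ S \ A) ↔ (c ∉ A ∧ j < i ∧ j ∈ A ∧ i ∉ A) := by
      simp only [mem_sdiff]
      constructor
      · rintro ⟨h1, h2, h3, h4⟩
        refine ⟨h1.2, h2, ?_, h3.2⟩
        by_contra h5
        exact h4 ⟨hj, h5⟩
      · rintro ⟨h1, h2, h3, h4⟩
        exact ⟨⟨hc, h1⟩, h2, ⟨hi, h4⟩, fun h5 => h5.2 h3⟩
    rw [if_congr e1 (hF A hA i hi j hj) rfl]
  rw [h2, ← sum_add_distrib]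
  refine sum_congr rfl fun A _ => ?_
  rw [← sum_add_distrib]
  refine sum_congr rfl fun i _ => ?_
  rw [← sum_add_distrib]
  refine sum_congr rfl fun j _ => ?_
  by_cases hcA : c ∈ A
  · by_cases h : i < j ∧ i ∈ A ∧ j ∉ A
    · rw [if_pos h, if_pos ⟨hcA, h⟩, if_neg fun h3 => h3.1 hcA, add_zero]
    · rw [if_neg h, if_neg fun h3 => h h3.2, if_neg fun h3 => h3.1 hcA, add_zero]
  · by_cases h : i < j ∧ i ∈ A ∧ j ∉ A
    · rw [if_pos h, if_neg fun h3 => hcA h3.1, if_pos ⟨hcA, h⟩, zero_add]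
    · rw [if_neg h, if_neg fun h3 => hcA h3.1, if_neg fun h3 => h h3.2, zero_add]

/-- **the value of the complete minor** -/
theorem HD {Λ : ℕ → ℕ → ZMod 2} (hΛ : ∀ i j, Λ i j = Λ j i) (hΛ0 : ∀ i, Λ i i = 0)
    (d g : ℕ → ZMod 2) {S : Finset ℕ} (hg : sm g S = 0) {c : ℕ} (hc : c ∈ S) :
    Hf (Mb Λ (Lm l S) d g) (Ix S (S.erase c) {()}) = Yd l d S +
      ∑ A ∈ S.powerset, if c ∈ A then sm g A * BB l Λ A (S \ A) else 0 := by
  rw [HC hΛ hΛ0 hc]
  congr 1
  · refine sum_congr rfl fun i hi => ?_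
    rw [← ll_prod l (erase_subset i S), tt_col l hi hc]
  · have h1 := pair_sum (fun A i j => sm g A * (Λ i j * (tt l A i * tt l (S \ A) j))) hc (by
      intro A hA i _ j _
      rw [Finset.sdiff_sdiff_eq_self hA, sm_sdiff g hA, hg, zero_add, hΛ i j]
      ring)
    have h2 : ∀ p ∈ prs S, Λ p.1 p.2 *
        Ph (S.erase c) (lf g S * ∏ x ∈ (S.erase p.1).erase p.2, lf (Lm l S x) S) =
        ∑ A ∈ S.powerset, if p.1 ∈ A ∧ p.2 ∉ A then
          sm g A * (Λ p.1 p.2 * (tt l A p.1 * tt l (S \ A) p.2)) else 0 := by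
      intro p hp
      rw [mem_prs] at hp
      rw [Ph_pair l g hg hp.1 hp.2.1 hc (Nat.ne_of_lt hp.2.2), mul_sum]
      refine sum_congr rfl fun A _ => ?_
      split_ifs
      · ring
      · rw [mul_zero]
    rw [sum_congr rfl h2, h1]
    refine sum_congr rfl fun A _ => ?_
    split_ifs
    · unfold BB
      rw [mul_sum]
      exact sum_congr rfl fun i _ => by rw [mul_sum]
    · rfl

/-- **the kernel criterion** -/
theorem Pf_ker {Λ : ℕ → ℕ → ZMod 2} (hΛ : ∀ i j, Λ i j = Λ j i) (hΛ0 : ∀ i, Λ i i = 0)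
    (d g : ℕ → ZMod 2) {S : Finset ℕ} (hg : sm g S = 0) {c : ℕ} (hc : c ∈ S) :
    Yd l d S + ∑ A ∈ S.powerset, (if c ∈ A then sm g A * BB l Λ A (S \ A) else 0) =
    ind (∀ (x X : ℕ → ZMod 2) (e : ZMod 2),
      (∀ p ∈ S, ∑ q ∈ S, Lm l S p q * x q + ∑ q ∈ S, Λ p q * X q + e * d p = 0) →
      (∀ q ∈ S, ∑ p ∈ S, Lm l S p q * X p + e * g q = 0) →
      ∑ p ∈ S, g p * x p + ∑ p ∈ S, d p * X p = 0 →
      (∀ p ∈ S, X p = 0) ∧ e = 0 ∧ ∀ p ∈ S, ∀ q ∈ S, x p = x q) := by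
  rw [← HD hΛ hΛ0 d g hg hc]
  unfold Hf
  refine ind_congr ?_
  have hsum : ∀ f : ℕ → ZMod 2, ∑ q ∈ S, f q = f c + ∑ q ∈ S.erase c, f q := fun f =>
    (add_sum_erase S f hc).symm
  constructor
  · intro h x X e h1 h2 h3
    have h4 := h (fun y => match y with
      | Sum.inl (Sum.inl i) => X i
      | Sum.inl (Sum.inr j) => x j + x c
      | Sum.inr _ => e) (by
      intro r hr
      rw [Ix_sum]
      rcases r with (p | q) | u
      · have hp := ((Ix_mem _ _ _).1 p).1 hr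
        have h5 := sum_shift (Lm l S p) x S (x c)
        rw [Lm_row l hp, zero_mul, add_zero, hsum (fun q => Lm l S p q * (x q + x c)), two0,
          mul_zero, zero_add] at h5
        have h6 := h1 p hp
        rw [← h5] at h6
        rw [sum_singleton]
        have e1 : ∑ i ∈ S, Mb Λ (Lm l S) d g (Sum.inl (Sum.inl p)) (Sum.inl (Sum.inl i)) * X i =
          ∑ q ∈ S, Λ p q * X q := rfl
        have e2 : ∑ j ∈ S.erase c, Mb Λ (Lm l S) d g (Sum.inl (Sum.inl p)) (Sum.inl (Sum.inr j)) *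
          (x j + x c) = ∑ q ∈ S.erase c, Lm l S p q * (x q + x c) := rfl
        have e3 : Mb Λ (Lm l S) d g (Sum.inl (Sum.inl p)) (Sum.inr ()) * e = d p * e := rfl
        rw [← h6]
        simp only
        rw [e1, e2, e3]
        ring
      · have hq := ((Ix_mem _ _ _).2.1 q).1 hr
        have h6 := h2 q (mem_of_mem_erase hq)
        rw [sum_singleton, ← h6]
        have e2 : ∑ j ∈ S.erase c, Mb Λ (Lm l S) d g (Sum.inl (Sum.inr q)) (Sum.inl (Sum.inr j)) *
          (x j + x c) = 0 := sum_eq_zero fun j _ => zero_mul _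
        simp only
        rw [e2, add_zero]
        have e3 : Mb Λ (Lm l S) d g (Sum.inl (Sum.inr q)) (Sum.inr ()) * e = e * g q := mul_comm _ _
        rw [e3]
        rfl
      · have e3 : ∑ u' ∈ ({()} : Finset Unit), Mb Λ (Lm l S) d g (Sum.inr u) (Sum.inr u') * e = 0 :=
          sum_eq_zero fun j _ => zero_mul _
        have h5 := sum_shift g x S (x c)
        have hg' : ∑ q ∈ S, g q = 0 := hg
        rw [hg', zero_mul, add_zero, hsum (fun q => g q * (x q + x c)), two0, mul_zero,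
          zero_add] at h5
        rw [← h5] at h3
        simp only
        rw [e3, add_zero, ← h3, add_comm]
        rfl)
    have hX : ∀ p ∈ S, X p = 0 := fun p hp => h4 _ (((Ix_mem _ _ _).1 p).2 hp)
    have he : e = 0 := h4 _ (((Ix_mem S (S.erase c) {()}).2.2 ()).2 (mem_singleton_self _))
    have hx : ∀ p ∈ S, x p = x c := by
      intro p hp
      by_cases hpc : p = c
      · rw [hpc]
      · exact eq_of_add (h4 _ (((Ix_mem S (S.erase c) {()}).2.1 p).2 (mem_erase.2 ⟨hpc, hp⟩)))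
    exact ⟨hX, he, fun p hp q hq => by rw [hx p hp, hx q hq]⟩
  · intro h v hv
    set X : ℕ → ZMod 2 := fun i => v (Sum.inl (Sum.inl i)) with hX
    set x : ℕ → ZMod 2 := fun j => if j = c then 0 else v (Sum.inl (Sum.inr j)) with hx
    set e : ZMod 2 := v (Sum.inr ()) with he
    have hxc : x c = 0 := if_pos rfl
    have hxv : ∀ q ∈ S.erase c, v (Sum.inl (Sum.inr q)) = x q := fun q hq =>
      (if_neg (ne_of_mem_erase hq)).symm
    have k1 : ∀ p ∈ S, ∑ q ∈ S, Lm l S p q * x q + ∑ q ∈ S, Λ p q * X q + e * d p = 0 := by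
      intro p hp
      have h1 := hv (Sum.inl (Sum.inl p)) (((Ix_mem _ _ _).1 p).2 hp)
      rw [Ix_sum, sum_singleton] at h1
      rw [← h1, hsum (fun q => Lm l S p q * x q), hxc, mul_zero, zero_add]
      have e2 : ∑ j ∈ S.erase c, Mb Λ (Lm l S) d g (Sum.inl (Sum.inl p)) (Sum.inl (Sum.inr j)) *
          v (Sum.inl (Sum.inr j)) = ∑ q ∈ S.erase c, Lm l S p q * x q :=
        sum_congr rfl fun q hq => by rw [← hxv q hq]; rfl
      rw [e2]
      have e1 : ∑ i ∈ S, Mb Λ (Lm l S) d g (Sum.inl (Sum.inl p)) (Sum.inl (Sum.inl i)) *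
          v (Sum.inl (Sum.inl i)) = ∑ q ∈ S, Λ p q * X q := rfl
      have e3 : Mb Λ (Lm l S) d g (Sum.inl (Sum.inl p)) (Sum.inr ()) * v (Sum.inr ()) = d p * e := rfl
      rw [e1, e3]
      ring
    have k2' : ∀ q ∈ S.erase c, ∑ p ∈ S, Lm l S p q * X p + e * g q = 0 := by
      intro q hq
      have h1 := hv (Sum.inl (Sum.inr q)) (((Ix_mem S (S.erase c) {()}).2.1 q).2 hq)
      rw [Ix_sum, sum_singleton] at h1
      rw [← h1]
      have e2 : ∑ j ∈ S.erase c, Mb Λ (Lm l S) d g (Sum.inl (Sum.inr q)) (Sum.inl (Sum.inr j)) *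
          v (Sum.inl (Sum.inr j)) = 0 := sum_eq_zero fun j _ => zero_mul _
      rw [e2, add_zero]
      have e3 : Mb Λ (Lm l S) d g (Sum.inl (Sum.inr q)) (Sum.inr ()) * v (Sum.inr ()) = e * g q :=
        mul_comm _ _
      rw [e3]
      rfl
    have k2 : ∀ q ∈ S, ∑ p ∈ S, Lm l S p q * X p + e * g q = 0 := by
      intro q hq
      by_cases hqc : q = c
      · have h1 : ∑ q ∈ S, (∑ p ∈ S, Lm l S p q * X p + e * g q) = 0 := by
          rw [sum_add_distrib, sum_comm, ← mul_sum]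
          have h2 : ∑ p ∈ S, ∑ q ∈ S, Lm l S p q * X p = 0 := by
            refine sum_eq_zero fun p hp => ?_
            rw [← sum_mul, Lm_row l hp, zero_mul]
          have hg' : ∑ q ∈ S, g q = 0 := hg
          rw [h2, hg', mul_zero, add_zero]
        rw [hsum, sum_eq_zero k2', add_zero] at h1
        rw [hqc]
        exact h1
      · exact k2' q (mem_erase.2 ⟨hqc, hq⟩)
    have k3 : ∑ p ∈ S, g p * x p + ∑ p ∈ S, d p * X p = 0 := by
      have h1 := hv (Sum.inr ()) (((Ix_mem S (S.erase c) {()}).2.2 ()).2 (mem_singleton_self _))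
      rw [Ix_sum, sum_singleton] at h1
      have e3 : Mb Λ (Lm l S) d g (Sum.inr ()) (Sum.inr ()) * v (Sum.inr ()) = 0 := zero_mul _
      rw [e3, add_zero] at h1
      rw [← h1, hsum (fun q => g q * x q), hxc, mul_zero, zero_add, add_comm]
      congr 1
      exact sum_congr rfl fun q hq => by rw [← hxv q hq]; rfl
    obtain ⟨h1, h2, h3⟩ := h x X e k1 k2 k3
    intro r hr
    rcases r with (p | q) | u
    · exact h1 p (((Ix_mem _ _ _).1 p).1 hr)
    · have hq := ((Ix_mem _ _ _).2.1 q).1 hr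
      rw [hxv q hq, h3 q (mem_of_mem_erase hq) c hc, hxc]
    · exact h2

end fin

end Pool.Agent.N972.F2
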