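import Pool.Agent.N855.P17.Conv

/-!
# Principal cofactors and determinants over the field with two elements (helper972)

The coefficient functionals of the ring of polynomials in variables of square zero, the principal
cofactors `tt l S r` of the matrix `Lm l S`, the determinants `Dd l ρ S` of `Lm l S + diag ρ`, the sums
`Yd l ρ S = ∑ r ∈ S, ρ r * tt l S r`, and their expansions over the subsets.
-/

set_option autoImplicit false
set_option linter.unusedSectionVars false

open Finset Pool.Agent.N855.P17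

namespace Pool.Agent.N972.F2

section ring

variable (ι : Type) [DecidableEq ι]

theorem exr : ∃ (R : Type) (_ : CommRing R) (C : ZMod 2 →+* R)
    (y : ι → R) (Φ : Finset ι → R →+ ZMod 2), (∀ x : R, x + x = 0) ∧ (∀ i, y i * y i = 0) ∧
      (∀ T, Φ T 1 = if T = ∅ then 1 else 0) ∧ (∀ T c r, Φ T (C c * r) = c * Φ T r) ∧
      (∀ T j r, Φ T (y j * r) = if j ∈ T then Φ (T.erase j) r else 0) := by
  obtain ⟨R, i, C, y, Φ, h1, h2, h3, h4, h5⟩ := exists_ring (fun _ : ι => (0 : ZMod 2))
  refine ⟨R, i, C, y, Φ, h1, h2, ?_, h4, h5⟩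
  intro T
  rw [h3]
  split_ifs with h
  · rw [h, prod_empty]
  · obtain ⟨c, hc⟩ := nonempty_iff_ne_empty.2 h
    exact prod_eq_zero hc rfl

/-- the ring -/
noncomputable def Rr : Type := (exr ι).choose

noncomputable instance : CommRing (Rr ι) := (exr ι).choose_spec.choose

/-- the constants -/
noncomputable def Cc : ZMod 2 →+* Rr ι := (exr ι).choose_spec.choose_spec.choose

variable {ι}

/-- the variables -/
noncomputable def yy : ι → Rr ι := (exr ι).choose_spec.choose_spec.choose_spec.choose

/-- the coefficients -/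
noncomputable def Ph : Finset ι → Rr ι →+ ZMod 2 :=
  (exr ι).choose_spec.choose_spec.choose_spec.choose_spec.choose

theorem R_two (x : Rr ι) : x + x = 0 :=
  (exr ι).choose_spec.choose_spec.choose_spec.choose_spec.choose_spec.1 x

theorem yy_sq (i : ι) : yy i * yy i = 0 :=
  (exr ι).choose_spec.choose_spec.choose_spec.choose_spec.choose_spec.2.1 i

theorem Ph_one (T : Finset ι) : Ph T 1 = if T = ∅ then 1 else 0 :=
  (exr ι).choose_spec.choose_spec.choose_spec.choose_spec.choose_spec.2.2.1 T

theorem Ph_C (T : Finset ι) (c : ZMod 2) (r : Rr ι) : Ph T (Cc ι c * r) = c * Ph T r :=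
  (exr ι).choose_spec.choose_spec.choose_spec.choose_spec.choose_spec.2.2.2.1 T c r

theorem Ph_y (T : Finset ι) (j : ι) (r : Rr ι) :
    Ph T (yy j * r) = if j ∈ T then Ph (T.erase j) r else 0 :=
  (exr ι).choose_spec.choose_spec.choose_spec.choose_spec.choose_spec.2.2.2.2 T j r

/-- a linear form -/
noncomputable def lf (m : ι → ZMod 2) (J : Finset ι) : Rr ι := ∑ j ∈ J, Cc ι (m j) * yy j

theorem lf_congr {m m' : ι → ZMod 2} {J : Finset ι} (h : ∀ j ∈ J, m j = m' j) : lf m J = lf m' J :=
  sum_congr rfl fun j hj => by rw [h j hj]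

theorem lf_add (m m' : ι → ZMod 2) (J : Finset ι) : lf (fun j => m j + m' j) J = lf m J + lf m' J := by
  unfold lf
  rw [← sum_add_distrib]
  exact sum_congr rfl fun j _ => by rw [map_add]; ring

theorem lf_smul (c : ZMod 2) (m : ι → ZMod 2) (J : Finset ι) :
    lf (fun j => c * m j) J = Cc ι c * lf m J := by
  unfold lf
  rw [mul_sum]
  exact sum_congr rfl fun j _ => by rw [map_mul]; ring

theorem lf_sq (m : ι → ZMod 2) (J : Finset ι) : lf m J * lf m J = 0 := by
  induction J using Finset.induction_on with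
  | empty =>
    unfold lf
    rw [sum_empty, mul_zero]
  | insert a s ha ih =>
    have e : lf m (insert a s) = Cc ι (m a) * yy a + lf m s := by
      unfold lf
      rw [sum_insert ha]
    rw [e]
    have h1 := R_two (Cc ι (m a) * yy a * lf m s)
    have h2 := yy_sq a
    calc (Cc ι (m a) * yy a + lf m s) * (Cc ι (m a) * yy a + lf m s) =
        Cc ι (m a) * Cc ι (m a) * (yy a * yy a) +
          (Cc ι (m a) * yy a * lf m s + Cc ι (m a) * yy a * lf m s) + lf m s * lf m s := by ring
      _ = 0 := by rw [h1, h2, ih]; ring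

theorem lf_sub {m : ι → ZMod 2} {J K : Finset ι} (h : J ⊆ K) (h0 : ∀ j ∈ K, j ∉ J → m j = 0) :
    lf m K = lf m J := by
  unfold lf
  symm
  refine sum_subset h fun j hj hn => ?_
  rw [h0 j hj hn, map_zero, zero_mul]

theorem Ph_lf' (m : ι → ZMod 2) (J T : Finset ι) (r : Rr ι) : Ph T (lf m J * r) =
    ∑ j ∈ J, m j * (if j ∈ T then Ph (T.erase j) r else 0) := by
  unfold lf
  rw [sum_mul, map_sum]
  refine sum_congr rfl fun j _ => ?_
  rw [mul_assoc, Ph_C, Ph_y]

theorem Ph_lf (m : ι → ZMod 2) {J T : Finset ι} (hT : T ⊆ J) (r : Rr ι) : Ph T (lf m J * r) =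
    ∑ j ∈ T, m j * Ph (T.erase j) r := by
  rw [Ph_lf']
  symm
  rw [← sum_subset hT]
  · exact sum_congr rfl fun j hj => by rw [if_pos hj]
  · intro j _ hj
    rw [if_neg hj, mul_zero]

/-- the degree -/
theorem Ph_deg (m : ι → ι → ZMod 2) (J I : Finset ι) : ∀ T : Finset ι, T.card ≠ I.card →
    Ph T (∏ i ∈ I, lf (m i) J) = 0 := by
  induction I using Finset.induction_on with
  | empty =>
    intro T hT
    rw [prod_empty, Ph_one, if_neg]
    rintro rfl
    exact hT rfl
  | insert i I hi ih =>
    intro T hT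
    rw [prod_insert hi, Ph_lf']
    refine sum_eq_zero fun j _ => ?_
    split_ifs with hj
    · rw [ih, mul_zero]
      rw [card_erase_of_mem hj]
      rw [card_insert_of_notMem hi] at hT
      have := card_pos.2 ⟨j, hj⟩
      omega
    · rw [mul_zero]

/-- the columns -/
theorem Ph_col (m : ι → ι → ZMod 2) (S I : Finset ι) (h0 : ∀ i ∈ I, ∑ j ∈ S, m i j = 0) :
    ∀ T ⊆ S, ∑ j ∈ S \ T, Ph (insert j T) (∏ i ∈ I, lf (m i) S) = 0 := by
  induction I using Finset.induction_on with
  | empty =>
    intro T hT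
    refine sum_eq_zero fun j _ => ?_
    rw [prod_empty, Ph_one, if_neg (insert_ne_empty j T)]
  | insert i I hi ih =>
    intro T hT
    have ih' := ih fun k hk => h0 k (mem_insert_of_mem hk)
    set f := ∏ k ∈ I, lf (m k) S with hf
    have h1 : ∀ j ∈ S \ T, Ph (insert j T) (∏ k ∈ insert i I, lf (m k) S) =
        m i j * Ph T f + ∑ k ∈ T, m i k * Ph (insert j (T.erase k)) f := by
      intro j hj
      have hjS := (mem_sdiff.1 hj).1
      have hjT := (mem_sdiff.1 hj).2
      rw [prod_insert hi, ← hf, Ph_lf (m i) (insert_subset hjS hT), sum_insert hjT, erase_insert hjT]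
      congr 1
      refine sum_congr rfl fun k hk => ?_
      have hne : j ≠ k := by
        rintro rfl
        exact hjT hk
      rw [erase_insert_of_ne hne]
    rw [sum_congr rfl h1, sum_add_distrib, sum_comm, ← sum_mul]
    have h2 : ∀ k ∈ T, ∑ j ∈ S \ T, m i k * Ph (insert j (T.erase k)) f = m i k * Ph T f := by
      intro k hk
      rw [← mul_sum]
      congr 1
      have h3 := ih' (T.erase k) ((erase_subset k T).trans hT)
      have e : S \ T.erase k = insert k (S \ T) := by
        ext x
        simp only [mem_sdiff, mem_erase, mem_insert]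
        constructor
        · rintro ⟨h4, h5⟩
          by_cases hx : x = k
          · exact Or.inl hx
          · exact Or.inr ⟨h4, fun h6 => h5 ⟨hx, h6⟩⟩
        · rintro (h4 | h4)
          · subst h4
            exact ⟨hT hk, fun h5 => h5.1 rfl⟩
          · exact ⟨h4.1, fun h5 => h4.2 h5.2⟩
      rw [e, sum_insert (fun h4 => (mem_sdiff.1 h4).2 hk), insert_erase hk] at h3
      have : ∀ u w : ZMod 2, u + w = 0 → w = u := by decide
      exact this _ _ h3
    rw [sum_congr rfl h2, ← sum_mul, ← add_mul, sum_sdiff hT, h0 i (mem_insert_self i I), zero_mul]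

theorem Ph_col2 (m : ι → ι → ZMod 2) (S I : Finset ι) (h0 : ∀ i ∈ I, ∑ j ∈ S, m i j = 0) {c r : ι}
    (hc : c ∈ S) (hr : r ∈ S) :
    Ph (S.erase c) (∏ i ∈ I, lf (m i) S) = Ph (S.erase r) (∏ i ∈ I, lf (m i) S) := by
  by_cases hcr : c = r
  · rw [hcr]
  · have h1 := Ph_col m S I h0 ((S.erase c).erase r) ((erase_subset r _).trans (erase_subset c S))
    have e : S \ (S.erase c).erase r = {c, r} := by
      ext x
      simp only [mem_sdiff, mem_erase, mem_insert, mem_singleton]
      constructor
      · rintro ⟨h4, h5⟩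
        by_contra h6
        push Not at h6
        exact h5 ⟨h6.2, h6.1, h4⟩
      · rintro (h4 | h4)
        · subst h4
          exact ⟨hc, fun h5 => h5.2.1 rfl⟩
        · subst h4
          exact ⟨hr, fun h5 => h5.1 rfl⟩
    rw [e, sum_pair hcr, insert_erase (mem_erase.2 ⟨Ne.symm hcr, hr⟩)] at h1
    have e2 : insert c ((S.erase c).erase r) = S.erase r := by
      rw [erase_right_comm, insert_erase (mem_erase.2 ⟨hcr, hc⟩)]
    rw [e2] at h1
    have : ∀ u w : ZMod 2, u + w = 0 → w = u := by decide
    exact this _ _ h1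

/-- the expansion along a column -/
theorem Ph_expcol (m : ι → ι → ZMod 2) (S I : Finset ι) : ∀ T ⊆ S, ∀ j ∈ T,
    Ph T (∏ i ∈ I, lf (m i) S) = ∑ p ∈ I, m p j * Ph (T.erase j) (∏ i ∈ I.erase p, lf (m i) S) := by
  induction I using Finset.induction_on with
  | empty =>
    intro T hT j hj
    rw [prod_empty, sum_empty, Ph_one, if_neg]
    rintro rfl
    exact absurd hj (notMem_empty j)
  | insert i I hi ih =>
    intro T hT j hj
    rw [prod_insert hi, Ph_lf (m i) hT, sum_insert hi, erase_insert hi, ← add_sum_erase T _ hj]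
    congr 1
    have h1 : ∀ k ∈ T.erase j, m i k * Ph (T.erase k) (∏ x ∈ I, lf (m x) S) =
        ∑ p ∈ I, m p j * (m i k * Ph ((T.erase j).erase k) (∏ x ∈ I.erase p, lf (m x) S)) := by
      intro k hk
      rw [ih (T.erase k) ((erase_subset k T).trans hT) j
        (mem_erase.2 ⟨(ne_of_mem_erase hk).symm, hj⟩), mul_sum]
      refine sum_congr rfl fun p _ => ?_
      rw [erase_right_comm]
      ring
    rw [sum_congr rfl h1, sum_comm]
    refine sum_congr rfl fun p hp => ?_
    have hne : i ≠ p := by
      rintro rfl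
      exact hi hp
    have e : (insert i I).erase p = insert i (I.erase p) := erase_insert_of_ne hne
    rw [e, prod_insert fun h => hi (mem_of_mem_erase h), Ph_lf (m i) ((erase_subset j T).trans hT),
      mul_sum]

/-- multiplicativity, a part -/
theorem Ph_mul0 (m' : ι → ι → ZMod 2) {J' : Finset ι} (S' : Finset ι) :
    ∀ T T' : Finset ι, Disjoint T J' → Disjoint T T' →
    Ph (T ∪ T') (∏ i ∈ S', lf (m' i) J') = Ph T 1 * Ph T' (∏ i ∈ S', lf (m' i) J') := by
  induction S' using Finset.induction_on with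
  | empty =>
    intro T T' hd hd'
    rw [prod_empty, Ph_one, Ph_one, Ph_one]
    by_cases h : T = ∅
    · subst h
      rw [empty_union, if_pos rfl, one_mul]
    · rw [if_neg h, zero_mul, if_neg]
      intro h2
      exact h (union_eq_empty.1 h2).1
  | insert i S hi ih =>
    intro T T' hd hd'
    rw [prod_insert hi, Ph_lf', Ph_lf', mul_sum]
    refine sum_congr rfl fun j hj => ?_
    have hjT : j ∉ T := fun h => Finset.disjoint_left.1 hd h hj
    have hiff : j ∈ T ∪ T' ↔ j ∈ T' := by
      rw [mem_union]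
      exact or_iff_right hjT
    rw [if_congr hiff rfl rfl]
    split_ifs with h1
    · have e : (T ∪ T').erase j = T ∪ T'.erase j := by
        ext x
        simp only [mem_erase, mem_union]
        constructor
        · rintro ⟨h3, h4 | h4⟩
          · exact Or.inl h4
          · exact Or.inr ⟨h3, h4⟩
        · rintro (h4 | h4)
          · exact ⟨fun h => hjT (h ▸ h4), Or.inl h4⟩
          · exact ⟨h4.1, Or.inr h4.2⟩
      rw [e, ih T (T'.erase j) hd (Finset.disjoint_of_subset_right (erase_subset j T') hd')]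
      ring
    · ring

/-- multiplicativity -/
theorem Ph_mul (m m' : ι → ι → ZMod 2) {J J' : Finset ι} (S S' : Finset ι) :
    ∀ T T' : Finset ι, Disjoint T J' → Disjoint T' J → Disjoint T T' →
    Ph (T ∪ T') ((∏ i ∈ S, lf (m i) J) * ∏ i ∈ S', lf (m' i) J') =
      Ph T (∏ i ∈ S, lf (m i) J) * Ph T' (∏ i ∈ S', lf (m' i) J') := by
  induction S using Finset.induction_on with
  | empty =>
    intro T T' h1 h2 h3
    rw [prod_empty, one_mul]
    exact Ph_mul0 m' S' T T' h1 h3
  | insert i S hi ih =>
    intro T T' hd1 hd2 hd3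
    rw [prod_insert hi, mul_assoc, Ph_lf', Ph_lf', sum_mul]
    refine sum_congr rfl fun j hj => ?_
    have hjT : j ∉ T' := fun h => Finset.disjoint_left.1 hd2 h hj
    have hiff : j ∈ T ∪ T' ↔ j ∈ T := by
      rw [mem_union]
      exact or_iff_left hjT
    rw [if_congr hiff rfl rfl]
    split_ifs with h1
    · have e : (T ∪ T').erase j = T.erase j ∪ T' := by
        ext x
        simp only [mem_erase, mem_union]
        constructor
        · rintro ⟨h3, h4 | h4⟩
          · exact Or.inl ⟨h3, h4⟩
          · exact Or.inr h4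
        · rintro (h4 | h4)
          · exact ⟨h4.1, Or.inl h4.2⟩
          · exact ⟨fun h => hjT (h ▸ h4), Or.inr h4⟩
      rw [e, ih (T.erase j) T' (Finset.disjoint_of_subset_left (erase_subset j T) hd1) hd2
        (Finset.disjoint_of_subset_left (erase_subset j T) hd3)]
      ring
    · ring

end ring

section mat

variable {ι : Type} [DecidableEq ι]

/-- the form of the row `i` -/
noncomputable def ll (l : ι → ι → ZMod 2) (S : Finset ι) (i : ι) : Rr ι :=
  lam yy (fun i j => Cc ι (l i j)) S i

theorem ll_lf (l : ι → ι → ZMod 2) {S : Finset ι} {i : ι} (hi : i ∈ S) :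
    ll l S i = lf (Lm l S i) S := by
  unfold ll lf lam
  rw [← add_sum_erase S _ hi, ← add_sum_erase S (fun j => Cc ι (Lm l S i j) * yy j) hi, R_two,
    mul_zero, zero_add]
  simp only [Lm, if_true]
  rw [map_sum, sum_mul, ← sum_add_distrib]
  refine sum_congr rfl fun j hj => ?_
  rw [if_neg (ne_of_mem_erase hj).symm]
  ring

/-- the principal cofactor -/
noncomputable def tt (l : ι → ι → ZMod 2) (S : Finset ι) (r : ι) : ZMod 2 :=
  Ph (S.erase r) (∏ i ∈ S.erase r, ll l S i)

/-- the determinant of `Lm l S + diag ρ` -/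
noncomputable def Dd (l : ι → ι → ZMod 2) (ρ : ι → ZMod 2) (S : Finset ι) : ZMod 2 :=
  Ph S (GG yy (fun i => Cc ι (ρ i) * yy i) (fun i j => Cc ι (l i j)) S)

/-- the sum of the cofactors -/
noncomputable def Yd (l : ι → ι → ZMod 2) (ρ : ι → ZMod 2) (S : Finset ι) : ZMod 2 :=
  ∑ r ∈ S, ρ r * tt l S r

/-- the rows of `Lm l S + diag ρ` -/
def Lr (l : ι → ι → ZMod 2) (ρ : ι → ZMod 2) (S : Finset ι) (i j : ι) : ZMod 2 :=
  Lm l S i j + if j = i then ρ i else 0

theorem GG_lf (l : ι → ι → ZMod 2) (ρ : ι → ZMod 2) (S : Finset ι) :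
    GG yy (fun i => Cc ι (ρ i) * yy i) (fun i j => Cc ι (l i j)) S =
      ∏ i ∈ S, lf (Lr l ρ S i) S := by
  unfold GG
  refine prod_congr rfl fun i hi => ?_
  have h1 : lam yy (fun i j => Cc ι (l i j)) S i = ll l S i := rfl
  have h2 : lf (Lr l ρ S i) S = lf (Lm l S i) S + lf (fun j => if j = i then ρ i else 0) S :=
    lf_add _ _ S
  rw [h1, ll_lf l hi, h2]
  have h3 : lf (fun j => if j = i then ρ i else 0) S = Cc ι (ρ i) * yy i := by
    unfold lf
    rw [sum_eq_single i]
    · simp only [if_true]
    · intro j _ hj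
      simp only
      rw [if_neg hj, map_zero, zero_mul]
    · intro h
      exact absurd hi h
  rw [h3]
  ring

theorem Dd_lf (l : ι → ι → ZMod 2) (ρ : ι → ZMod 2) (S : Finset ι) :
    Dd l ρ S = Ph S (∏ i ∈ S, lf (Lr l ρ S i) S) := by
  unfold Dd
  rw [GG_lf]

theorem ll_prod (l : ι → ι → ZMod 2) {S I : Finset ι} (hI : I ⊆ S) :
    ∏ i ∈ I, ll l S i = ∏ i ∈ I, lf (Lm l S i) S :=
  prod_congr rfl fun _ hi => ll_lf l (hI hi)

theorem tt_lf (l : ι → ι → ZMod 2) (S : Finset ι) (r : ι) :
    tt l S r = Ph (S.erase r) (∏ i ∈ S.erase r, lf (Lm l S i) S) := by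
  unfold tt
  rw [ll_prod l (erase_subset r S)]

/-- the column of the cofactor does not matter -/
theorem tt_col (l : ι → ι → ZMod 2) {S : Finset ι} {r c : ι} (hr : r ∈ S) (hc : c ∈ S) :
    Ph (S.erase c) (∏ i ∈ S.erase r, ll l S i) = tt l S r := by
  unfold tt
  rw [ll_prod l (erase_subset r S)]
  exact Ph_col2 _ S _ (fun i hi => Lm_row l (mem_of_mem_erase hi)) hc hr

theorem Dd_empty (l : ι → ι → ZMod 2) (ρ : ι → ZMod 2) : Dd l ρ ∅ = 1 := by
  rw [Dd_lf, prod_empty, Ph_one, if_pos rfl]

theorem Yd_empty (l : ι → ι → ZMod 2) (ρ : ι → ZMod 2) : Yd l ρ ∅ = 0 := by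
  unfold Yd
  rw [sum_empty]

/-- **the expansion of the determinant** -/
theorem Dd_exp (l : ι → ι → ZMod 2) (ρ : ι → ZMod 2) (P : Finset ι) {c : ι} (hc : c ∈ P) :
    Dd l ρ P = ∑ B ∈ P.powerset, if c ∈ B then Yd l ρ B * Dd l ρ (P \ B) else 0 := by
  have hmain := expansion (R_two (ι := ι)) yy_sq P.card P rfl (fun i => Cc ι (ρ i) * yy i)
    (fun i j => Cc ι (l i j)) c hc
  unfold Dd
  rw [hmain, map_sum]
  refine sum_congr rfl fun B hB => ?_
  rw [mem_powerset] at hB
  split_ifs with hcB
  · unfold XX Yd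
    rw [sum_mul, map_sum, sum_mul]
    refine sum_congr rfl fun r hr => ?_
    have e1 : Cc ι (ρ r) * yy r * (∏ i ∈ B.erase r, lam yy (fun i j => Cc ι (l i j)) B i) *
        GG yy (fun i => Cc ι (ρ i) * yy i) (fun i j => Cc ι (l i j)) (P \ B) =
        Cc ι (ρ r) * (yy r * ((∏ i ∈ B.erase r, ll l B i) *
        GG yy (fun i => Cc ι (ρ i) * yy i) (fun i j => Cc ι (l i j)) (P \ B))) := by
      have : ∀ u w z t : Rr ι, u * w * z * t = u * (w * (z * t)) := fun u w z t => by ring
      exact this _ _ _ _
    rw [e1, Ph_C, Ph_y, if_pos (hB hr), GG_lf, ll_prod l (erase_subset r B)]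
    have e2 : P.erase r = B.erase r ∪ (P \ B) := by
      ext x
      simp only [mem_erase, mem_union, mem_sdiff]
      constructor
      · rintro ⟨h1, h2⟩
        by_cases h3 : x ∈ B
        · exact Or.inl ⟨h1, h3⟩
        · exact Or.inr ⟨h2, h3⟩
      · rintro (⟨h1, h2⟩ | ⟨h1, h2⟩)
        · exact ⟨h1, hB h2⟩
        · refine ⟨?_, h1⟩
          rintro rfl
          exact h2 hr
    rw [e2, Ph_mul (Lm l B) (Lr l ρ (P \ B)) (B.erase r) (P \ B) (B.erase r) (P \ B)
      (Finset.disjoint_of_subset_left (erase_subset r B) disjoint_sdiff) sdiff_disjoint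
      (Finset.disjoint_of_subset_left (erase_subset r B) disjoint_sdiff), tt_lf]
    ring
  · exact map_zero _

/-- the cofactor as a determinant -/
theorem tt_Dd (l : ι → ι → ZMod 2) {S : Finset ι} {r : ι} (hr : r ∈ S) :
    tt l S r = Dd l (fun i => l i r) (S.erase r) := by
  rw [tt_lf, Dd_lf]
  have key : ∀ I ⊆ S.erase r, ∀ T ⊆ S.erase r, Ph T (∏ i ∈ I, lf (Lm l S i) S) =
      Ph T (∏ i ∈ I, lf (Lr l (fun i => l i r) (S.erase r) i) (S.erase r)) := by
    intro I
    induction I using Finset.induction_on with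
    | empty =>
      intro _ T _
      rw [prod_empty, prod_empty]
    | insert i I hi ih =>
      intro hI T hT
      have hiS : i ∈ S.erase r := hI (mem_insert_self i I)
      rw [prod_insert hi, prod_insert hi, Ph_lf _ (hT.trans (erase_subset r S)), Ph_lf _ hT]
      refine sum_congr rfl fun j hj => ?_
      rw [ih (fun k hk => hI (mem_insert_of_mem hk)) (T.erase j) ((erase_subset j T).trans hT)]
      congr 1
      unfold Lr Lm
      by_cases hij : i = j
      · subst hij
        rw [if_pos rfl, if_pos rfl, if_pos rfl]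
        have h1 : r ∈ S.erase i := mem_erase.2 ⟨(ne_of_mem_erase hiS).symm, hr⟩
        rw [← add_sum_erase (S.erase i) _ h1, erase_right_comm, add_comm]
      · rw [if_neg hij, if_neg hij, if_neg (Ne.symm hij), add_zero]
  exact key _ (Subset.refl _) _ (Subset.refl _)

/-- the cofactors annihilate the columns -/
theorem tt_ann (l : ι → ι → ZMod 2) {S : Finset ι} {j : ι} (hj : j ∈ S) :
    ∑ p ∈ S, Lm l S p j * tt l S p = 0 := by
  have h1 := Ph_expcol (Lm l S) S S S (Subset.refl S) j hj
  have h2 : ∀ p ∈ S, Lm l S p j * Ph (S.erase j) (∏ i ∈ S.erase p, lf (Lm l S i) S) =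
      Lm l S p j * tt l S p := by
    intro p hp
    rw [← ll_prod l (erase_subset p S), tt_col l hp hj]
  rw [sum_congr rfl h2] at h1
  rw [← h1]
  have h3 : ∏ i ∈ S, lf (Lm l S i) S = ∏ i ∈ S, lf (Lr l (fun _ => 0) S i) S := by
    refine prod_congr rfl fun i _ => lf_congr fun k _ => ?_
    unfold Lr
    rw [ite_self, add_zero]
  rw [h3, ← Dd_lf, Dd_exp l _ S hj]
  refine sum_eq_zero fun B _ => ?_
  split_ifs
  · have : Yd l (fun _ => 0) B = 0 := by
      unfold Yd
      exact sum_eq_zero fun r _ => by rw [zero_mul]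
    rw [this, zero_mul]
  · rfl

/-- the expansion with two roots -/
theorem two_roots (l : ι → ι → ZMod 2) {S : Finset ι} {p p' : ι} (hp : p ∈ S) (hp' : p' ∈ S)
    (hne : p ≠ p') : ∏ i ∈ (S.erase p).erase p', ll l S i =
      ∑ A ∈ S.powerset, if p ∈ A then (if p' ∈ A then 0 else (∏ i ∈ A.erase p, ll l A i) *
        ∏ i ∈ (S \ A).erase p', ll l (S \ A) i) else 0 := by
  set l' : ι → ι → Rr ι := fun i j => if i = p ∨ i = p' then 0 else Cc ι (l i j) with hl'
  set v : ι → Rr ι := fun i => if i = p ∨ i = p' then 1 else 0 with hv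
  have hmain := expansion (R_two (ι := ι)) yy_sq S.card S rfl v l' p hp
  have hlam0 : ∀ T : Finset ι, ∀ i, i = p ∨ i = p' → lam yy l' T i = 0 := by
    intro T i hi
    unfold lam
    refine sum_eq_zero fun j _ => ?_
    rw [hl']
    simp only
    rw [if_pos hi, zero_mul]
  have hlam1 : ∀ T : Finset ι, ∀ i, ¬ (i = p ∨ i = p') → lam yy l' T i = ll l T i := by
    intro T i hi
    unfold ll
    refine lam_congr fun j _ => ?_
    rw [hl']
    simp only
    rw [if_neg hi]
  have hv1 : ∀ i, i = p ∨ i = p' → v i = 1 := fun i hi => if_pos hi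
  have hv0 : ∀ i, ¬ (i = p ∨ i = p') → v i = 0 := fun i hi => if_neg hi
  have hL : GG yy v l' S = ∏ i ∈ (S.erase p).erase p', ll l S i := by
    unfold GG
    rw [← mul_prod_erase S _ hp, ← mul_prod_erase (S.erase p) _ (mem_erase.2 ⟨Ne.symm hne, hp'⟩),
      hlam0 S p (Or.inl rfl), hlam0 S p' (Or.inr rfl), hv1 p (Or.inl rfl), hv1 p' (Or.inr rfl),
      add_zero, one_mul, one_mul]
    refine prod_congr rfl fun i hi => ?_
    have h1 : ¬ (i = p ∨ i = p') := by
      rintro (h | h)
      · exact (ne_of_mem_erase (mem_of_mem_erase hi)) h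
      · exact (ne_of_mem_erase hi) h
    rw [hv0 i h1, zero_add, hlam1 S i h1]
  rw [← hL, hmain]
  refine sum_congr rfl fun A hA => ?_
  rw [mem_powerset] at hA
  split_ifs with hpA hpA'
  · have : XX yy v l' A = 0 := by
      unfold XX
      refine sum_eq_zero fun r hr => ?_
      by_cases hrp : r = p
      · rw [prod_eq_zero (mem_erase.2 ⟨?_, hpA'⟩ : p' ∈ A.erase r) (hlam0 A p' (Or.inr rfl)), mul_zero]
        rw [hrp]; exact hne.symm
      · rw [prod_eq_zero (mem_erase.2 ⟨Ne.symm hrp, hpA⟩ : p ∈ A.erase r) (hlam0 A p (Or.inl rfl)),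
          mul_zero]
    rw [this, zero_mul]
  · have h1 : XX yy v l' A = ∏ i ∈ A.erase p, ll l A i := by
      unfold XX
      rw [← add_sum_erase A _ hpA, hv1 p (Or.inl rfl), one_mul, sum_eq_zero, add_zero]
      · refine prod_congr rfl fun i hi => hlam1 A i ?_
        rintro (h | h)
        · exact (ne_of_mem_erase hi) h
        · exact hpA' (h ▸ mem_of_mem_erase hi)
      · intro r hr
        rw [prod_eq_zero (mem_erase.2 ⟨(ne_of_mem_erase hr).symm, hpA⟩ : p ∈ A.erase r)
          (hlam0 A p (Or.inl rfl)), mul_zero]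
    have h2 : GG yy v l' (S \ A) = ∏ i ∈ (S \ A).erase p', ll l (S \ A) i := by
      unfold GG
      have h3 : p' ∈ S \ A := mem_sdiff.2 ⟨hp', hpA'⟩
      rw [← mul_prod_erase (S \ A) _ h3, hlam0 _ p' (Or.inr rfl), hv1 p' (Or.inr rfl), add_zero,
        one_mul]
      refine prod_congr rfl fun i hi => ?_
      have h4 : ¬ (i = p ∨ i = p') := by
        rintro (h | h)
        · exact (mem_sdiff.1 (mem_of_mem_erase hi)).2 (h ▸ hpA)
        · exact (ne_of_mem_erase hi) h
      rw [hv0 i h4, zero_add, hlam1 _ i h4]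
    rw [h1, h2]
  · rfl

/-- **the difference of two cofactors** -/
theorem tt_diff (l : ι → ι → ZMod 2) {S : Finset ι} {k ψ : ι → ZMod 2}
    (hk : ∀ j ∈ S, ∑ i ∈ S, k i * Lm l S i j = ψ j) {p p' : ι} (hp : p ∈ S) (hp' : p' ∈ S)
    (hne : p ≠ p') (hkp : k p = 1) (hkp' : k p' = 1) :
    tt l S p + tt l S p' = ∑ A ∈ S.powerset, if p ∈ A then (if p' ∈ A then 0 else
      (∑ j ∈ A, ψ j) * (tt l A p * tt l (S \ A) p')) else 0 := by
  set f := ∏ i ∈ (S.erase p).erase p', ll l S i with hf
  have hpe' : p' ∈ S.erase p := mem_erase.2 ⟨hne.symm, hp'⟩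
  have hpe : p ∈ S.erase p' := mem_erase.2 ⟨hne, hp⟩
  -- the sum
  have h1 : tt l S p + tt l S p' = Ph (S.erase p') ((ll l S p + ll l S p') * f) := by
    have h2 : tt l S p = Ph (S.erase p') (ll l S p' * f) := by
      rw [← tt_col l hp hp', ← mul_prod_erase (S.erase p) _ hpe']
    have h3 : tt l S p' = Ph (S.erase p') (ll l S p * f) := by
      unfold tt
      rw [← mul_prod_erase (S.erase p') _ hpe, hf, erase_right_comm]
    rw [h2, h3, ← map_add]
    congr 1
    ring
  -- the relation
  have h4 : (ll l S p + ll l S p') * f = lf ψ S * f := by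
    have h5 : ∑ i ∈ S, Cc ι (k i) * ll l S i = lf ψ S := by
      have h6 : ∀ i ∈ S, Cc ι (k i) * ll l S i = ∑ j ∈ S, Cc ι (k i * Lm l S i j) * yy j := by
        intro i hi
        rw [ll_lf l hi]
        unfold lf
        rw [mul_sum]
        exact sum_congr rfl fun j _ => by rw [map_mul]; ring
      rw [sum_congr rfl h6, sum_comm]
      unfold lf
      refine sum_congr rfl fun j hj => ?_
      rw [← sum_mul, ← map_sum, hk j hj]
    have h7 : ∑ i ∈ S, Cc ι (k i) * ll l S i = (ll l S p + ll l S p') +
        ∑ i ∈ (S.erase p).erase p', Cc ι (k i) * ll l S i := by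
      rw [← add_sum_erase S _ hp, ← add_sum_erase (S.erase p) _ hpe', hkp, hkp', map_one]
      ring
    have h8 : (∑ i ∈ (S.erase p).erase p', Cc ι (k i) * ll l S i) * f = 0 := by
      rw [sum_mul]
      refine sum_eq_zero fun i hi => ?_
      rw [hf, ← mul_prod_erase _ _ hi, ll_lf l (mem_of_mem_erase (mem_of_mem_erase hi))]
      have h9 := lf_sq (Lm l S i) S
      calc Cc ι (k i) * lf (Lm l S i) S * (lf (Lm l S i) S *
            ∏ x ∈ ((S.erase p).erase p').erase i, ll l S x) =
          Cc ι (k i) * (lf (Lm l S i) S * lf (Lm l S i) S) *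
            ∏ x ∈ ((S.erase p).erase p').erase i, ll l S x := by ring
        _ = 0 := by rw [h9]; ring
    rw [← h5, h7, add_mul (ll l S p + ll l S p') _ f, h8, add_zero]
  rw [h1, h4, Ph_lf', hf, two_roots l hp hp' hne]
  -- the terms
  have h10 : ∀ j ∈ S, ψ j * (if j ∈ S.erase p' then Ph ((S.erase p').erase j)
      (∑ A ∈ S.powerset, if p ∈ A then (if p' ∈ A then 0 else (∏ i ∈ A.erase p, ll l A i) *
        ∏ i ∈ (S \ A).erase p', ll l (S \ A) i) else 0) else 0) =
      ∑ A ∈ S.powerset, if p ∈ A then (if p' ∈ A then 0 else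
        (if j ∈ A then ψ j else 0) * (tt l A p * tt l (S \ A) p')) else 0 := by
    intro j hj
    by_cases hjp : j = p'
    · subst hjp
      rw [if_neg (notMem_erase _ S), mul_zero]
      symm
      refine sum_eq_zero fun A _ => ?_
      split_ifs <;> simp
    · rw [if_pos (mem_erase.2 ⟨hjp, hj⟩), map_sum, mul_sum]
      refine sum_congr rfl fun A hA => ?_
      rw [mem_powerset] at hA
      split_ifs with h11 h12 h13
      · rw [map_zero, mul_zero]
      · congr 1
        have e : (S.erase p').erase j = A.erase j ∪ (S \ A).erase p' := by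
          ext x
          simp only [mem_erase, mem_union, mem_sdiff]
          constructor
          · rintro ⟨h1, h2, h3⟩
            by_cases h4 : x ∈ A
            · exact Or.inl ⟨h1, h4⟩
            · exact Or.inr ⟨h2, h3, h4⟩
          · rintro (⟨h1, h2⟩ | ⟨h1, h2, h3⟩)
            · refine ⟨h1, ?_, hA h2⟩
              rintro rfl
              exact h12 h2
            · refine ⟨?_, h1, h2⟩
              rintro rfl
              exact h3 h13
        rw [e, ll_prod l (erase_subset p A), ll_prod l (erase_subset p' (S \ A)),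
          Ph_mul (Lm l A) (Lm l (S \ A)) (A.erase p) ((S \ A).erase p') (A.erase j)
            ((S \ A).erase p')
            (Finset.disjoint_of_subset_left (erase_subset j A) disjoint_sdiff)
            (Finset.disjoint_of_subset_left (erase_subset p' (S \ A)) sdiff_disjoint)
            (Finset.disjoint_of_subset_left (erase_subset j A)
              (Finset.disjoint_of_subset_right (erase_subset p' (S \ A)) disjoint_sdiff)),
          ← tt_lf, ← ll_prod l (erase_subset p A), tt_col l h11 h13]
      · -- `j` is not in `A`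
        have e : (S.erase p').erase j = A ∪ ((S \ A).erase p').erase j := by
          ext x
          simp only [mem_erase, mem_union, mem_sdiff]
          constructor
          · rintro ⟨h1, h2, h3⟩
            by_cases h4 : x ∈ A
            · exact Or.inl h4
            · exact Or.inr ⟨h1, h2, h3, h4⟩
          · rintro (h2 | ⟨h1, h2, h3, h4⟩)
            · refine ⟨?_, ?_, hA h2⟩
              · rintro rfl
                exact h13 h2
              · rintro rfl
                exact h12 h2
            · exact ⟨h1, h2, h3⟩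
        rw [e, ll_prod l (erase_subset p A), ll_prod l (erase_subset p' (S \ A)),
          Ph_mul (Lm l A) (Lm l (S \ A)) (A.erase p) ((S \ A).erase p') A
            (((S \ A).erase p').erase j) disjoint_sdiff
            (Finset.disjoint_of_subset_left ((erase_subset j _).trans (erase_subset p' (S \ A)))
              sdiff_disjoint)
            (Finset.disjoint_of_subset_right ((erase_subset j _).trans (erase_subset p' (S \ A)))
              disjoint_sdiff), Ph_deg _ A (A.erase p) A]
        · ring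
        · rw [card_erase_of_mem h11]
          have := card_pos.2 ⟨p, h11⟩
          omega
      · rw [map_zero, mul_zero]
  rw [sum_congr rfl h10, sum_comm]
  refine sum_congr rfl fun A hA => ?_
  rw [mem_powerset] at hA
  split_ifs with h11 h12
  · exact sum_const_zero
  · rw [← sum_mul]
    congr 1
    symm
    rw [← sum_subset hA]
    · exact sum_congr rfl fun j hj => by rw [if_pos hj]
    · intro j _ hj
      rw [if_neg hj]
  · exact sum_const_zero

end mat

end Pool.Agent.N972.F2
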