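import Pool.Agent.N972.F2.Crit
import Pool.Agent.N972.F2.Id2

/-!
# The bilinear identities of the criterion `C21` (helper972)
-/

set_option autoImplicit false
set_option linter.unusedSectionVars false

open Finset Pool.Agent.N855.P17

namespace Pool.Agent.N972.F2

section quad

variable {ι : Type} [DecidableEq ι] {l : ι → ι → ZMod 2} {al k : ι → ZMod 2}

theorem mE_mul {f F : Finset ι → ZMod 2} (hff : cv f f = fun _ => 0)
    (hF : ∀ c, rs c F = cv (rs c f) f) (γ : ι → ZMod 2) : mE γ (cv f F) = cv (mE γ f) F := by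
  have h1 : mE γ F = cv (mE γ f) f := mE_of hF γ
  funext S
  rw [mE_cv, h1]
  have h2 : cv f (cv (mE γ f) f) = fun _ => 0 := by
    have : cv f (cv (mE γ f) f) = cv (mE γ f) (cv f f) := by ac_rfl
    rw [this, hff, cv_zero]
  rw [h2, add_zero]

theorem rs_mE (c : ι) (γ : ι → ZMod 2) (f : Finset ι → ZMod 2) : rs c (mE γ f) = mE γ (rs c f) := by
  funext S
  show (if c ∈ S then sm γ S * f S else 0) = sm γ S * (if c ∈ S then f S else 0)
  split_ifs
  · rfl
  · rw [mul_zero]

/-- the vanishing of the sums over quadruples -/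
theorem quad {f F : Finset ι → ZMod 2} (hff : cv f f = fun _ => 0)
    (hF : ∀ c, rs c F = cv (rs c f) f) {γ : ι → ZMod 2} {S : Finset ι} (hγ : sm γ S = 0) (c : ι) :
    cv (rs c (mE γ F)) F S = 0 := by
  have h1 : mE γ F = cv (mE γ f) f := mE_of hF γ
  have h2 : rs c (mE γ F) = fun T => cv (rs c (mE γ f)) f T + cv (mE γ f) (rs c f) T := by
    rw [h1]
    funext T
    exact rs_cv c _ _ T
  have h3 := mE_mul hff hF γ
  have h4 : cv (rs c (mE γ F)) F = mE γ (cv (rs c f) (cv f F)) := by
    rw [h2, cv_add_l]
    funext T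
    have e1 : cv (cv (rs c (mE γ f)) f) F = cv (mE γ (rs c f)) (cv f F) := by
      rw [rs_mE]; exact cv_assoc _ _ _
    have e2 : cv (cv (mE γ f) (rs c f)) F = cv (rs c f) (mE γ (cv f F)) := by
      rw [h3]; ac_rfl
    rw [e1, e2, mE_cv]
  rw [h4]
  unfold mE
  rw [hγ, zero_mul]

/-- `al` without its value at `t` -/
def al0 (al : ι → ZMod 2) (t : ι) (i : ι) : ZMod 2 := if i = t then 0 else al i

theorem al0_sm (al : ι → ZMod 2) {t : ι} {S : Finset ι} (h : t ∉ S) : sm (al0 al t) S = sm al S := by
  refine sm_congr fun p hp => ?_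
  unfold al0
  rw [if_neg]
  rintro rfl
  exact h hp

section vert

variable (hk : HK l al k) {t : ι} (ht : al t = 1) (hkt : k t = 0) (hk1 : ∀ i, i ≠ t → k i = 1)
  (hlt : ∀ i, i ≠ t → l i t = al i)

include hk1 in
theorem al0_sup (p : ι) (hp : k p = 0) : al0 al t p = 0 := by
  unfold al0
  rw [if_pos]
  by_contra h
  rw [hk1 p h] at hp
  exact one_ne_zero hp

include hk hk1 in
/-- the difference of two determinants -/
theorem dif_al0 {B : Finset ι} (htB : t ∉ B) (hB : sm al B = 0) {j : ι} (hj : j ∈ B) :
    Dd l (ad (al0 al t) j) B + Dd l (al0 al t) B = gg l al (al0 al t) B + tt l B j := by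
  have hjt : j ≠ t := fun h => htB (h ▸ hj)
  have hs0 : ∀ p, k p = 0 → al0 al t p = 0 := al0_sup hk1
  have hs1 : ∀ p, k p = 0 → ad (al0 al t) j p = 0 := by
    intro p hp
    unfold ad
    rw [hs0 p hp, if_neg, add_zero]
    rintro rfl
    rw [hk1 p hjt] at hp
    exact one_ne_zero hp
  rw [Dd_even hk hs1 hB, Dd_even hk hs0 hB]
  have hsub : ∀ X ⊆ B, t ∉ X := fun X hX h => htB (hX h)
  -- the first exponential vanishes
  have h0 : Ge l al (al0 al t) B = 0 := by
    have h1 : rs j (Ge l al (al0 al t)) B = Ge l al (al0 al t) B := if_pos hj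
    rw [← h1, rs_Ge hk hs0]
    refine sum_eq_zero fun X hX => ?_
    rw [mem_powerset] at hX
    have h2 : kk l al (al0 al t) X = 0 := by
      by_contra h3
      have h4 := kk_even h3
      rw [al0_sm al (hsub X hX), h4.1] at h4
      exact zero_ne_one h4.2
    unfold rs
    rw [h2, ite_self, zero_mul]
  -- the sets without `j`
  have hkz : ∀ X ⊆ B, j ∉ X → kk l al (ad (al0 al t) j) X = 0 := by
    intro X hX hjX
    by_contra h3
    have h4 := kk_even h3
    rw [sm_ad, if_neg hjX, add_zero, al0_sm al (hsub X hX), h4.1] at h4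
    exact zero_ne_one h4.2
  have hun : ∀ Y ⊆ B, j ∉ Y → Ge l al (ad (al0 al t) j) Y = un1 Y := by
    intro Y hY hjY
    by_cases hY0 : Y = ∅
    · rw [hY0, Ge_empty]
      unfold un1
      rw [if_pos rfl]
    · obtain ⟨c, hc⟩ := nonempty_iff_ne_empty.2 hY0
      have h1 : rs c (Ge l al (ad (al0 al t) j)) Y = Ge l al (ad (al0 al t) j) Y := if_pos hc
      rw [← h1, rs_Ge hk hs1]
      unfold un1
      rw [if_neg hY0]
      refine sum_eq_zero fun X hX => ?_
      rw [mem_powerset] at hX
      unfold rs
      rw [hkz X (hX.trans hY) fun h => hjY (hX h), ite_self, zero_mul]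
  have h1 : rs j (Ge l al (ad (al0 al t) j)) B = Ge l al (ad (al0 al t) j) B := if_pos hj
  rw [h0, add_zero, ← h1, rs_Ge hk hs1]
  unfold cv
  rw [sum_eq_single B]
  · rw [Finset.sdiff_self, Ge_empty, mul_one]
    unfold rs
    rw [if_pos hj]
    unfold kk gg
    rw [sm_ad, if_pos hj, al0_sm al htB, hB, if_pos ⟨rfl, zero_add 1⟩, if_pos ⟨rfl, rfl⟩, Yd_ad _ hj]
  · intro X hX hXB
    rw [mem_powerset] at hX
    unfold rs
    by_cases hjX : j ∈ X
    · rw [hun _ sdiff_subset fun h => (mem_sdiff.1 h).2 hjX]
      unfold un1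
      have hne : ¬ (B \ X = ∅) := fun h =>
        hXB (Subset.antisymm hX (sdiff_eq_empty_iff_subset.1 h))
      rw [if_neg hne, mul_zero]
    · rw [if_neg hjX, zero_mul]
  · intro h
    exact absurd (mem_powerset.2 (Subset.refl B)) h

include hk ht hkt hk1 hlt in
/-- the cofactor of a set extended by `t` -/
theorem T1_ins {B : Finset ι} (htB : t ∉ B) (hB : sm al B = 0) :
    T1 l al k (insert t B) = Yd l (l t) B + sm (l t) B * gg l al (al0 al t) B := by
  by_cases hB0 : B = ∅
  · rw [hB0, Yd_empty, sm_empty, zero_mul, add_zero]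
    unfold T1
    refine ind_neg ?_
    rintro ⟨_, p, hp, hkp, _⟩
    rw [insert_empty_eq, mem_singleton] at hp
    rw [hp, hkt] at hkp
    exact zero_ne_one hkp
  · obtain ⟨i, hi⟩ := nonempty_iff_ne_empty.2 hB0
    have hit : i ≠ t := fun h => htB (h ▸ hi)
    have hne : ∀ p ∈ B, p ≠ t := fun p hp h => htB (h ▸ hp)
    set A := insert t B with hA
    have htA : t ∈ A := mem_insert_self t B
    have hBA : B ⊆ A := subset_insert t B
    have haA : sm al A = 1 := by rw [hA, sm_insert al htB, ht, hB, add_zero]
    -- the sum of the rows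
    have hrow : ∑ p ∈ B, ll l A p = 0 := by
      have h1 : ∑ p ∈ B, ll l A p = lf (fun q => ∑ p ∈ B, Lm l A p q) A := by
        have h2 : ∑ p ∈ B, ll l A p = ∑ p ∈ B, lf (Lm l A p) A :=
          sum_congr rfl fun p hp => ll_lf l (hBA hp)
        rw [h2]
        unfold lf
        rw [sum_comm]
        refine sum_congr rfl fun q _ => ?_
        rw [map_sum, sum_mul]
      rw [h1]
      have h2 : lf (fun q => ∑ p ∈ B, Lm l A p q) A = lf (fun _ => 0) A := by
        refine lf_congr fun q hq => ?_
        have h3 := hk A q hq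
        rw [haA, hA, sum_insert htB, hkt, zero_mul, zero_add] at h3
        have h4 : ∑ p ∈ B, k p * Lm l (insert t B) p q = ∑ p ∈ B, Lm l (insert t B) p q :=
          sum_congr rfl fun p hp => by rw [hk1 p (hne p hp), one_mul]
        rw [h4] at h3
        rw [hA, h3]
        have : (1 : ZMod 2) + 1 = 0 := by decide
        rw [this, zero_mul]
      rw [h2]
      unfold lf
      exact sum_eq_zero fun j _ => by rw [map_zero, zero_mul]
    -- the removed row does not matter
    have hind : ∀ j ∈ B, ∏ p ∈ B.erase i, ll l A p = ∏ p ∈ B.erase j, ll l A p := by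
      intro j hj
      by_cases hij : i = j
      · rw [hij]
      · set R := ∏ p ∈ (B.erase i).erase j, ll l A p with hR
        have e1 : ∏ p ∈ B.erase i, ll l A p = ll l A j * R := by
          rw [hR, mul_prod_erase _ _ (mem_erase.2 ⟨Ne.symm hij, hj⟩)]
        have e2 : ∏ p ∈ B.erase j, ll l A p = ll l A i * R := by
          rw [hR, erase_right_comm, mul_prod_erase _ _ (mem_erase.2 ⟨hij, hi⟩)]
        have e3 : (∑ p ∈ B, ll l A p) * R = (ll l A i + ll l A j) * R := by
          rw [← add_sum_erase B _ hi, ← add_sum_erase (B.erase i) _ (mem_erase.2 ⟨Ne.symm hij, hj⟩)]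
          have e4 : (∑ p ∈ (B.erase i).erase j, ll l A p) * R = 0 := by
            rw [sum_mul]
            refine sum_eq_zero fun p hp => ?_
            rw [hR, ← mul_prod_erase _ _ hp, ← mul_assoc, ll_lf l
              (hBA (mem_of_mem_erase (mem_of_mem_erase hp))), lf_sq, zero_mul]
          rw [← add_assoc, add_mul, e4, add_zero]
        rw [hrow, zero_mul] at e3
        rw [e1, e2]
        have e5 : ll l A i * R + ll l A j * R = 0 := by rw [← add_mul, ← e3]
        have e6 := R_two (ll l A i * R)
        calc ll l A j * R = ll l A i * R + ll l A i * R + ll l A j * R := by rw [e6, zero_add]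
          _ = ll l A i * R + (ll l A i * R + ll l A j * R) := by rw [add_assoc]
          _ = ll l A i * R := by rw [e5, add_zero]
    -- the minors
    have hmin : ∀ j ∈ B, Ph (B.erase j) (∏ p ∈ B.erase j, ll l A p) =
        Dd l (fun p => al0 al t p + l p j) (B.erase j) := by
      intro j hj
      rw [ll_prod l ((erase_subset j B).trans hBA), Dd_lf]
      have key : ∀ I ⊆ B.erase j, ∀ T ⊆ B.erase j, Ph T (∏ i ∈ I, lf (Lm l A i) A) =
          Ph T (∏ i ∈ I, lf (Lr l (fun p => al0 al t p + l p j) (B.erase j) i) (B.erase j)) := by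
        intro I
        induction I using Finset.induction_on with
        | empty =>
          intro _ T _
          rw [prod_empty, prod_empty]
        | insert i I hi ih =>
          intro hI T hT
          have hiS : i ∈ B.erase j := hI (mem_insert_self i I)
          have hiB := mem_of_mem_erase hiS
          rw [prod_insert hi, prod_insert hi, Ph_lf _ ((hT.trans (erase_subset j B)).trans hBA),
            Ph_lf _ hT]
          refine sum_congr rfl fun j' hj' => ?_
          rw [ih (fun k hk => hI (mem_insert_of_mem hk)) (T.erase j') ((erase_subset j' T).trans hT)]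
          congr 1
          unfold Lr Lm
          by_cases hij : i = j'
          · subst hij
            rw [if_pos rfl, if_pos rfl, if_pos rfl]
            have h1 : j ∈ B.erase i := mem_erase.2 ⟨(ne_of_mem_erase hiS).symm, hj⟩
            have h2 : A.erase i = insert t (B.erase i) := by
              rw [hA, erase_insert_of_ne (hne i hiB).symm]
            have h3 : t ∉ B.erase i := fun h => htB (mem_of_mem_erase h)
            rw [h2, sum_insert h3, ← add_sum_erase (B.erase i) _ h1, erase_right_comm,
              hlt i (hne i hiB)]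
            have h4 : al0 al t i = al i := if_neg (hne i hiB)
            have h5 : (fun p => al0 al t p + l p j) i = al0 al t i + l i j := rfl
            rw [h5, h4]
            ring
          · rw [if_neg hij, if_neg hij, if_neg (Ne.symm hij), add_zero]
      exact key _ (Subset.refl _) _ (Subset.refl _)
    rw [← tt_T1 hk haA (hBA hi) (hk1 i hit), ← tt_col l (hBA hi) htA]
    have e1 : A.erase t = B := erase_insert htB
    have e2 : A.erase i = insert t (B.erase i) := by rw [hA, erase_insert_of_ne hit.symm]
    rw [e1, e2, prod_insert fun h => htB (mem_of_mem_erase h), ll_lf l htA, Ph_lf _ hBA]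
    unfold Yd sm
    rw [sum_mul, ← sum_add_distrib]
    refine sum_congr rfl fun j hj => ?_
    have e3 : Lm l A t j = l t j := by
      unfold Lm
      rw [if_neg]
      rintro rfl
      exact htB hj
    rw [e3, hind j hj, hmin j hj]
    have e4 : Dd l (fun p => al0 al t p + l p j) (B.erase j) = gg l al (al0 al t) B + tt l B j := by
      rw [← dif_al0 hk hk1 htB hB hj, Dd_ad _ hj]
      have : ∀ u w : ZMod 2, w = u + w + u := by decide
      exact this _ _
    rw [e4]
    ring

end vert

/-- the bilinear form of two complementary sets -/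
noncomputable def BB (l : ι → ι → ZMod 2) (Λ : ι → ι → ZMod 2) (A B : Finset ι) : ZMod 2 :=
  ∑ i ∈ A, ∑ j ∈ B, Λ i j * (tt l A i * tt l B j)

theorem BB_prod (Λ : ι → ι → ZMod 2) {A B : Finset ι} (hd : Disjoint A B) {f g : ι → ZMod 2}
    (h : ∀ i ∈ A, ∀ j ∈ B, i ≠ j → Λ i j = f i * f j + g i * g j) :
    BB l Λ A B = Yd l f A * Yd l f B + Yd l g A * Yd l g B := by
  unfold BB Yd
  rw [sum_mul_sum, sum_mul_sum, ← sum_add_distrib]
  refine sum_congr rfl fun i hi => ?_
  rw [← sum_add_distrib]
  refine sum_congr rfl fun j hj => ?_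
  rw [h i hi j hj fun h => Finset.disjoint_left.1 hd hi (h ▸ hj)]
  ring

/-- the common right side -/
noncomputable def RHS (l : ι → ι → ZMod 2) (al k κ γ : ι → ZMod 2) (S : Finset ι) (c : ι) : ZMod 2 :=
  ∑ A ∈ S.powerset, if c ∈ A then sm γ A * ((1 + sm κ A) * (T1 l al k A * T1 l al k (S \ A)) +
    kk l al κ A * kk l al κ (S \ A)) else 0

theorem Yd_Yd {κ : ι → ZMod 2} (hk : HK l al k) (hκ : ∀ p, k p = 0 → κ p = 0) {S A : Finset ι}
    (hA : A ⊆ S) (hal : sm al S = 0) (hκS : sm κ S = 0) : Yd l κ A * Yd l κ (S \ A) =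
      sm κ A * (T1 l al k A * T1 l al k (S \ A)) + kk l al κ A * kk l al κ (S \ A) +
        gg l al κ A * gg l al κ (S \ A) := by
  have h1 : sm al (S \ A) = sm al A := by rw [sm_sdiff al hA, hal, zero_add]
  have h2 : sm κ (S \ A) = sm κ A := by rw [sm_sdiff κ hA, hκS, zero_add]
  rw [Yd_split l al κ A, Yd_split l al κ (S \ A), hh_T1 hk fun p _ => hκ p,
    hh_T1 hk fun p _ => hκ p, h2]
  have hs : ∀ u : ZMod 2, u * u = u := by decide
  rcases z01 (sm al A) with h | h
  · have t1 : T1 l al k A = 0 := T1_even h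
    rcases z01 (sm κ A) with h' | h'
    · have t2 : kk l al κ A = 0 := by
        unfold kk; rw [if_neg]; rw [h']; exact fun h => zero_ne_one h.2
      have t3 : kk l al κ (S \ A) = 0 := by
        unfold kk; rw [if_neg]; rw [h2, h']; exact fun h => zero_ne_one h.2
      rw [t1, t2, t3, h']
      ring
    · have t2 : gg l al κ A = 0 := by
        unfold gg; rw [if_neg]; rw [h']; exact fun h => one_ne_zero h.2
      have t3 : gg l al κ (S \ A) = 0 := by
        unfold gg; rw [if_neg]; rw [h2, h']; exact fun h => one_ne_zero h.2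
      have t4 : T1 l al k (S \ A) = 0 := T1_even (h1.trans h)
      rw [t1, t2, t3, t4]
      ring
  · have t2 : gg l al κ A = 0 := by
      unfold gg; rw [if_neg]; rw [h]; exact fun h => one_ne_zero h.1
    have t3 : kk l al κ A = 0 := by
      unfold kk; rw [if_neg]; rw [h]; exact fun h => one_ne_zero h.1
    have t4 : gg l al κ (S \ A) = 0 := by
      unfold gg; rw [if_neg]; rw [h1, h]; exact fun h => one_ne_zero h.1
    have t5 : kk l al κ (S \ A) = 0 := by
      unfold kk; rw [if_neg]; rw [h1, h]; exact fun h => one_ne_zero h.1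
    rw [t2, t3, t4, t5]
    calc (sm κ A * T1 l al k A + 0 + 0) * (sm κ A * T1 l al k (S \ A) + 0 + 0) =
        (sm κ A * sm κ A) * (T1 l al k A * T1 l al k (S \ A)) := by ring
      _ = _ := by rw [hs]; ring

/-- the sum of the products of the divided squares -/
theorem quad_gg (hk : HK l al k) {κ γ : ι → ZMod 2} (hκ : ∀ p, k p = 0 → κ p = 0) {S : Finset ι}
    (hγ : sm γ S = 0) (c : ι) : ∑ A ∈ S.powerset, (if c ∈ A then
      sm γ A * (gg l al κ A * gg l al κ (S \ A)) else 0) = 0 := by
  refine Eq.trans ?_ (quad (cv_hh κ) (rs_gg hk hκ) hγ c)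
  unfold cv rs mE
  refine sum_congr rfl fun A _ => ?_
  split_ifs
  · ring
  · rw [zero_mul]

/-- **the bilinear identity**, without the vertex of `-4` -/
theorem ev0 (hk : HK l al k) (hk1 : ∀ i, k i = 1) {κ γ : ι → ZMod 2} {S : Finset ι}
    (hal : sm al S = 0) (hκS : sm κ S = 0) (hγ : sm γ S = 0) (c : ι) (Λ : ι → ι → ZMod 2)
    (hΛ : ∀ i ∈ S, ∀ j ∈ S, i ≠ j → Λ i j = al i * al j + κ i * κ j) :
    ∑ A ∈ S.powerset, (if c ∈ A then sm γ A * BB l Λ A (S \ A) else 0) = RHS l al k κ γ S c := by
  have hz : ∀ f : ι → ZMod 2, ∀ p, k p = 0 → f p = 0 := by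
    intro f p hp
    rw [hk1 p] at hp
    exact absurd hp one_ne_zero
  have h1 := quad_gg hk (hz al) hγ c (l := l) (al := al)
  have h2 := quad_gg hk (hz κ) hγ c (l := l) (al := al)
  have e : ∀ A ∈ S.powerset, (if c ∈ A then sm γ A * BB l Λ A (S \ A) else 0) =
      (if c ∈ A then sm γ A * ((1 + sm κ A) * (T1 l al k A * T1 l al k (S \ A)) +
        kk l al κ A * kk l al κ (S \ A)) else 0) +
      (if c ∈ A then sm γ A * (gg l al al A * gg l al al (S \ A)) else 0) +
      (if c ∈ A then sm γ A * (gg l al κ A * gg l al κ (S \ A)) else 0) := by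
    intro A hA
    rw [mem_powerset] at hA
    by_cases hc : c ∈ A
    swap
    · rw [if_neg hc, if_neg hc, if_neg hc, if_neg hc]
      ring
    rw [if_pos hc, if_pos hc, if_pos hc, if_pos hc, BB_prod Λ disjoint_sdiff (f := al) (g := κ)
      (fun i hi j hj hij => hΛ i (hA hi) j (sdiff_subset hj) hij),
      Yd_Yd hk (hz κ) hA hal hκS, Yd_Yd hk (hz al) hA hal hal]
    have h3 : kk l al al A = 0 := by
      unfold kk
      rw [if_neg]
      rintro ⟨h4, h5⟩
      rw [h4] at h5
      exact zero_ne_one h5
    have h6 : sm al A * (T1 l al k A * T1 l al k (S \ A)) = T1 l al k A * T1 l al k (S \ A) := by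
      by_cases h7 : T1 l al k A = 0
      · rw [h7]; ring
      · rw [T1_par h7, one_mul]
    rw [h3, h6]
    ring
  rw [sum_congr rfl e, sum_add_distrib, sum_add_distrib, h1, h2, add_zero, add_zero]
  rfl

section vert1

variable (hk : HK l al k) {t : ι} (ht : al t = 1) (hkt : k t = 0) (hk1 : ∀ i, i ≠ t → k i = 1)
  (hlt : ∀ i, i ≠ t → l i t = al i)

include hk hk1 hlt in
/-- the sums of the cofactors with the functional `al0` -/
theorem Yd_al0 {A : Finset ι} (htA : t ∈ A) (ht : al t = 1) : Yd l (al0 al t) A =
    sm (l t) (A.erase t) * (if sm al A = 0 then tt l A t else 0) := by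
  have h2 : sm al A = 1 + sm al (A.erase t) := by
    rw [← ht, ← sm_insert al (notMem_erase t A), insert_erase htA]
  have h3 : sm (al0 al t) A = sm al (A.erase t) := by
    have := sm_insert (al0 al t) (notMem_erase t A)
    rw [insert_erase htA, al0_sm al (notMem_erase t A)] at this
    rw [this]
    unfold al0
    rw [if_pos rfl, zero_add]
  by_cases h : sm al A = 0
  · rw [if_pos h]
    have h1 := tt_ann l htA
    rw [← add_sum_erase A _ htA] at h1
    unfold Yd
    rw [← add_sum_erase A _ htA]
    have h4 : al0 al t t = 0 := if_pos rfl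
    rw [h4, zero_mul, zero_add]
    have h5 : ∑ r ∈ A.erase t, al0 al t r * tt l A r = ∑ p ∈ A.erase t, Lm l A p t * tt l A p := by
      refine sum_congr rfl fun p hp => ?_
      have hpt := ne_of_mem_erase hp
      have e1 : al0 al t p = al p := if_neg hpt
      have e2 : Lm l A p t = l p t := if_neg hpt
      rw [e1, e2, hlt p hpt]
    rw [h5]
    have h6 : Lm l A t t = sm (l t) (A.erase t) := if_pos rfl
    rw [h6] at h1
    have : ∀ u w : ZMod 2, u + w = 0 → w = u := by decide
    exact this _ _ h1
  · rw [if_neg h, mul_zero]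
    have h4 : sm al A = 1 := by
      rcases z01 (sm al A) with h5 | h5
      · exact absurd h5 h
      · exact h5
    have h5 : Yd l (al0 al t) A = hh l al (al0 al t) A := by
      unfold hh
      rw [if_pos h4]
    rw [h5, hh_T1 hk fun p _ => al0_sup hk1 p, h3]
    have h6 : sm al (A.erase t) = 0 := by
      rw [h4] at h2
      have : ∀ u : ZMod 2, 1 = 1 + u → u = 0 := by decide
      exact this _ h2
    rw [h6, zero_mul]

include hk ht hkt hk1 hlt in
/-- **the bilinear identity** with the vertex of `-4` -/
theorem ev1 {κ γ : ι → ZMod 2} (hκt : κ t = 0) (hγt : γ t = 0) {S : Finset ι} (htS : t ∈ S)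
    (hal : sm al S = 0) (hκS : sm κ S = 0) (hγ : sm γ S = 0) (Λ : ι → ι → ZMod 2)
    (hΛ1 : ∀ j ∈ S, j ≠ t → Λ t j = l t j)
    (hΛ : ∀ i ∈ S, ∀ j ∈ S, i ≠ t → j ≠ t → i ≠ j → Λ i j = al i * al j + κ i * κ j) :
    ∑ A ∈ S.powerset, (if t ∈ A then sm γ A * BB l Λ A (S \ A) else 0) =
      RHS l al k κ γ S t := by
  have hsup : ∀ f : ι → ZMod 2, f t = 0 → ∀ p, k p = 0 → f p = 0 := by
    intro f hf p hp
    by_cases h : p = t
    · rw [h, hf]
    · rw [hk1 p h] at hp
      exact absurd hp one_ne_zero
  set M := S.erase t with hM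
  have htM : t ∉ M := notMem_erase t S
  have hSM : insert t M = S := insert_erase htS
  set Q := gg l al (al0 al t) with hQ
  have halM : sm al M = 1 := by
    have := sm_insert al htM
    rw [hSM, hal, ht] at this
    have a1 : ∀ u : ZMod 2, 0 = 1 + u → u = 1 := by decide
    exact a1 _ this
  have hγM : sm γ M = 0 := by
    have := sm_insert γ htM
    rw [hSM, hγ, hγt, zero_add] at this
    exact this.symm
  -- the pointwise identity
  have e : ∀ A ∈ S.powerset, (if t ∈ A then sm γ A * BB l Λ A (S \ A) else 0) =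
      (if t ∈ A then sm γ A * ((1 + sm κ A) * (T1 l al k A * T1 l al k (S \ A)) +
        kk l al κ A * kk l al κ (S \ A)) else 0) +
      (if t ∈ A then sm γ A * (gg l al κ A * gg l al κ (S \ A)) else 0) +
      (if t ∈ A then sm γ (A.erase t) * (T1 l al k (A.erase t) * (Yd l (l t) (S \ A) +
        sm (l t) (A.erase t) * Q (S \ A))) + sm γ A * (T1 l al k A * T1 l al k (S \ A)) else 0) := by
    intro A hA
    rw [mem_powerset] at hA
    by_cases htA : t ∈ A
    swap
    · rw [if_neg htA, if_neg htA, if_neg htA, if_neg htA]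
      ring
    rw [if_pos htA, if_pos htA, if_pos htA, if_pos htA]
    set B := S \ A with hB
    have htB : t ∉ B := fun h => (mem_sdiff.1 h).2 htA
    have halB : sm al B = sm al A := by rw [hB, sm_sdiff al hA, hal, zero_add]
    have hγA : sm γ A = sm γ (A.erase t) := by
      have := sm_insert γ (notMem_erase t A)
      rw [insert_erase htA, hγt, zero_add] at this
      exact this
    have hala : sm al A = 1 + sm al (A.erase t) := by
      rw [← ht, ← sm_insert al (notMem_erase t A), insert_erase htA]
    -- the bilinear form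
    have h1 : BB l Λ A B = tt l A t * Yd l (l t) B + (Yd l (al0 al t) A * Yd l al B +
        Yd l κ A * Yd l κ B) := by
      unfold BB Yd
      rw [← add_sum_erase A _ htA, mul_sum]
      congr 1
      · refine sum_congr rfl fun j hj => ?_
        rw [hΛ1 j (sdiff_subset hj) fun h => htB (h ▸ hj)]
        ring
      · rw [sum_mul_sum, sum_mul_sum, ← sum_add_distrib, ← add_sum_erase A (fun i =>
          (∑ j ∈ B, al0 al t i * tt l A i * (al j * tt l B j) +
            ∑ j ∈ B, κ i * tt l A i * (κ j * tt l B j))) htA]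
        have h2 : ∑ j ∈ B, al0 al t t * tt l A t * (al j * tt l B j) +
            ∑ j ∈ B, κ t * tt l A t * (κ j * tt l B j) = 0 := by
          rw [sum_eq_zero, sum_eq_zero, add_zero]
          · intro j _
            rw [hκt]; ring
          · intro j _
            have : al0 al t t = 0 := if_pos rfl
            rw [this]; ring
        rw [h2, zero_add]
        refine sum_congr rfl fun i hi => ?_
        rw [← sum_add_distrib]
        have hit := ne_of_mem_erase hi
        have hiA := mem_of_mem_erase hi
        refine sum_congr rfl fun j hj => ?_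
        rw [hΛ i (hA hiA) j (sdiff_subset hj) hit (fun h => htB (h ▸ hj))
          (fun h => (mem_sdiff.1 hj).2 (h ▸ hiA))]
        have : al0 al t i = al i := if_neg hit
        rw [this]
        ring
    have h3 : sm al B = 0 → Yd l al B = Q B := by
      intro h
      rw [hQ]
      unfold gg
      rw [al0_sm al htB, h, if_pos ⟨rfl, rfl⟩]
      refine Yd_congr l fun p hp => ?_
      have h5 : al0 al t p = al p := if_neg fun h6 : p = t => htB (h6 ▸ hp)
      exact h5.symm
    rw [h1, Yd_Yd hk (hsup κ hκt) hA hal hκS, Yd_al0 hk hk1 hlt htA ht, ← hB,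
      tt_t hk hk1 hlt htA, hγA]
    rcases z01 (sm al A) with h | h
    · have ha1 : sm al (A.erase t) = 1 := by
        rw [h] at hala
        have : ∀ u : ZMod 2, 0 = 1 + u → u = 1 := by decide
        exact this _ hala
      have hun : un1 (A.erase t) = 0 := by
        unfold un1
        rw [if_neg]
        intro h4
        rw [h4, sm_empty] at ha1
        exact zero_ne_one ha1
      rw [if_pos h, hun, zero_add, h3 (halB.trans h), T1_even h]
      ring
    · have ha0 : sm al (A.erase t) = 0 := by
        rw [h] at hala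
        have : ∀ u : ZMod 2, 1 = 1 + u → u = 0 := by decide
        exact this _ hala
      rw [if_neg (by rw [h]; exact one_ne_zero), T1_even ha0]
      by_cases h4 : A.erase t = ∅
      · rw [h4, sm_empty]; ring
      · have hun : un1 (A.erase t) = 0 := if_neg h4
        rw [hun]
        have : ∀ g κ u w z : ZMod 2, g * ((0 + 0) * w + (0 + (κ * u + z + 0))) =
          g * ((1 + κ) * u + z) + g * 0 + (g * 0 + g * u) := by decide
        have t2 : gg l al κ A = 0 := by
          unfold gg; rw [if_neg]; rw [h]; exact fun h => one_ne_zero h.1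
        have t3 : kk l al κ A = 0 := by
          unfold kk; rw [if_neg]; rw [h]; exact fun h => one_ne_zero h.1
        rw [t2, t3]
        have a2 : ∀ g κ u w v z q : ZMod 2, g * ((0 + 0) * w + (v * 0 * z + (κ * u + 0 * q + 0 * q))) =
          g * ((1 + κ) * u + 0 * q) + g * (0 * q) + (g * (0 * w) + g * u) := by decide
        have a3 : ∀ g κ u w v z q q' q'' : ZMod 2,
          g * ((0 + 0) * w + (v * 0 * z + (κ * u + 0 * q + 0 * q'))) =
          g * ((1 + κ) * u + 0 * q) + g * (0 * q') + (g * (0 * q'') + g * u) := by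
          intro g κ u w v z q q' q''
          simp only [zero_mul, mul_zero, add_zero, zero_add]
          revert g κ u
          decide
        exact a3 _ _ _ _ _ _ _ _ _
  rw [sum_congr rfl e, sum_add_distrib, sum_add_distrib, quad_gg hk (hsup κ hκt) hγ t, add_zero]
  -- the remaining sum
  have hr : ∑ A ∈ S.powerset, (if t ∈ A then sm γ (A.erase t) * (T1 l al k (A.erase t) *
      (Yd l (l t) (S \ A) + sm (l t) (A.erase t) * Q (S \ A))) +
        sm γ A * (T1 l al k A * T1 l al k (S \ A)) else 0) = 0 := by
    rw [← hSM, sum_powerset_insert htM]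
    have h1 : ∑ A ∈ M.powerset, (if t ∈ A then sm γ (A.erase t) * (T1 l al k (A.erase t) *
      (Yd l (l t) (insert t M \ A) + sm (l t) (A.erase t) * Q (insert t M \ A))) +
        sm γ A * (T1 l al k A * T1 l al k (insert t M \ A)) else 0) = 0 :=
      sum_eq_zero fun A hA => if_neg fun h => htM (mem_powerset.1 hA h)
    rw [h1, zero_add]
    have h2 : ∀ a ∈ M.powerset, (if t ∈ insert t a then sm γ ((insert t a).erase t) *
      (T1 l al k ((insert t a).erase t) * (Yd l (l t) (insert t M \ insert t a) +
        sm (l t) ((insert t a).erase t) * Q (insert t M \ insert t a))) +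
        sm γ (insert t a) * (T1 l al k (insert t a) * T1 l al k (insert t M \ insert t a)) else 0) =
        sm γ a * (T1 l al k a * T1 l al k (insert t (M \ a))) +
          sm (l t) M * (mE γ (hh l al (al0 al t)) a * Q (M \ a)) +
          sm γ a * (T1 l al k (insert t a) * T1 l al k (M \ a)) := by
      intro a ha
      rw [mem_powerset] at ha
      have hta : t ∉ a := fun h => htM (ha h)
      rw [if_pos (mem_insert_self t a), erase_insert hta, insert_sdiff_ins htM,
        sm_insert γ hta, hγt, zero_add]
      congr 1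
      have h3 : mE γ (hh l al (al0 al t)) a = sm γ a * T1 l al k a := by
        unfold mE
        rw [hh_T1 hk fun p _ => al0_sup hk1 p, al0_sm al hta]
        by_cases h4 : T1 l al k a = 0
        · rw [h4]; ring
        · rw [T1_par h4, one_mul]
      rw [h3]
      by_cases h4 : T1 l al k a = 0
      · rw [h4]; ring
      · have h5 : sm al (M \ a) = 0 := by
          rw [sm_sdiff al ha, halM, T1_par h4]
          decide
        rw [T1_ins hk ht hkt hk1 hlt (fun h => htM (sdiff_subset h)) h5, sm_sdiff (l t) ha, ← hQ]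
        have : ∀ g u y a q m : ZMod 2, g * (u * (y + a * q)) =
          g * (u * (y + (m + a) * q)) + m * (g * u * q) := by decide
        exact this _ _ _ _ _ _
    rw [sum_congr rfl h2, sum_add_distrib, sum_add_distrib, ← mul_sum]
    have h3 : ∑ a ∈ M.powerset, mE γ (hh l al (al0 al t)) a * Q (M \ a) = 0 := by
      have h4 := mE_mul (cv_hh (l := l) (al := al) (al0 al t))
        (rs_gg hk fun p => al0_sup hk1 p) γ
      have h5 := congrFun h4 M
      have h6 : mE γ (cv (hh l al (al0 al t)) (gg l al (al0 al t))) M = 0 := by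
        unfold mE
        rw [hγM, zero_mul]
      rw [h6] at h5
      exact h5.symm
    have h4 : ∑ a ∈ M.powerset, sm γ a * (T1 l al k (insert t a) * T1 l al k (M \ a)) =
        ∑ a ∈ M.powerset, sm γ a * (T1 l al k a * T1 l al k (insert t (M \ a))) := by
      rw [sum_compl]
      refine sum_congr rfl fun a ha => ?_
      rw [mem_powerset] at ha
      rw [Finset.sdiff_sdiff_eq_self ha, sm_sdiff γ ha, hγM, zero_add]
      ring
    rw [h3, h4, mul_zero, add_zero]
    exact two0 _
  rw [hr, add_zero]
  rfl

end vert1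

end quad

end Pool.Agent.N972.F2
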